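import Pool.Agent.Helper5_Frey.Moment

/-!
# The square mean of a polynomial on a disc
-/

namespace Pool.Agent.Helper90Frey

open MeasureTheory Metric

/-- Lower bound for the `L²` norm on a disc of a polynomial with given coefficients. -/
theorem disc_lower_scaled (g : ℕ) : ∃ c : ℝ, 0 < c ∧ ∀ (w : Fin g → ℂ) (ρ : ℝ), 0 < ρ →
    c * ∑ i : Fin g, ‖w i‖ ^ 2 * (ρ ^ ((i : ℕ) + 1)) ^ 2 ≤
      ∫ z in ball (0 : ℂ) ρ, ‖∑ i, w i * z ^ (i : ℕ)‖ ^ 2 := by
  obtain ⟨c, hc, h⟩ := Helper5Frey.disc_lower g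
  refine ⟨c, hc, ?_⟩
  intro w ρ hρ
  have h1 := h (fun i => w i * (ρ : ℂ) ^ (i : ℕ))
  set f : ℂ → ℝ := fun z => ‖∑ i, w i * z ^ (i : ℕ)‖ ^ 2 *
    (ball (0 : ℂ) ρ).indicator (fun _ => (1 : ℝ)) z with hf
  have h2 : ∀ z : ℂ, ‖∑ i, (w i * (ρ : ℂ) ^ (i : ℕ)) * z ^ (i : ℕ)‖ ^ 2 *
      (ball (0 : ℂ) 1).indicator (fun _ => (1 : ℝ)) z = f (ρ • z) := by
    intro z
    rw [hf]
    simp only
    congr 1
    · congr 2
      apply Finset.sum_congr rfl
      intro i _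
      rw [Complex.real_smul, mul_pow]
      ring
    · have h3 : z ∈ ball (0 : ℂ) 1 ↔ ρ • z ∈ ball (0 : ℂ) ρ := by
        rw [mem_ball_zero_iff, mem_ball_zero_iff, norm_smul, Real.norm_eq_abs, abs_of_pos hρ]
        constructor
        · intro h4
          nlinarith
        · intro h4
          by_contra h5
          push Not at h5
          nlinarith
      by_cases h4 : z ∈ ball (0 : ℂ) 1
      · rw [Set.indicator_of_mem h4, Set.indicator_of_mem (h3.mp h4)]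
      · rw [Set.indicator_of_notMem h4, Set.indicator_of_notMem (fun h5 => h4 (h3.mpr h5))]
  simp only [h2] at h1
  have h4 := Measure.integral_comp_smul (volume : Measure ℂ) f ρ
  rw [Complex.finrank_real_complex, abs_of_nonneg (by positivity), smul_eq_mul] at h4
  rw [h4] at h1
  have hρ2 : 0 < ρ ^ 2 := by positivity
  have h5 : ∫ z in ball (0 : ℂ) ρ, ‖∑ i, w i * z ^ (i : ℕ)‖ ^ 2 = ∫ z, f z := by
    rw [← integral_indicator measurableSet_ball]
    congr 1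
    ext z
    rw [hf]
    by_cases h6 : z ∈ ball (0 : ℂ) ρ
    · simp [Set.indicator_of_mem h6]
    · simp [Set.indicator_of_notMem h6]
  rw [h5]
  calc c * ∑ i : Fin g, ‖w i‖ ^ 2 * (ρ ^ ((i : ℕ) + 1)) ^ 2
      = ρ ^ 2 * (c * ∑ i : Fin g, ‖w i * (ρ : ℂ) ^ (i : ℕ)‖ ^ 2) := by
        rw [Finset.mul_sum, Finset.mul_sum, Finset.mul_sum]
        apply Finset.sum_congr rfl
        intro i _
        rw [norm_mul, norm_pow, Complex.norm_real, Real.norm_eq_abs, abs_of_pos hρ]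
        ring
    _ ≤ ρ ^ 2 * ((ρ ^ 2)⁻¹ * ∫ z, f z) := by gcongr
    _ = _ := by rw [← mul_assoc, mul_inv_cancel₀ hρ2.ne', one_mul]

end Pool.Agent.Helper90Frey
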