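import Pool.Agent.Helper90_Frey.Integ

/-!
# The quadratic form of the Gram matrix
-/

namespace Pool.Agent.Helper90Frey

open Filter Topology MeasureTheory ComplexConjugate Matrix
open scoped ComplexOrder

variable {u v D : ℕ}

/-- The polynomial with coefficient vector `w` on the exponents of holomorphic differentials. -/
noncomputable def hpoly (w : hol u v D → ℂ) (x y : ℂ) : ℂ :=
  ∑ s : hol u v D, w s * (x ^ s.1.1 * y ^ s.1.2)

/-- The integrand of the quadratic form. -/
noncomputable def qint (F : MvPolynomial (Fin 2) ℂ) (w : hol u v D → ℂ) (x : ℂ) : ℝ :=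
  ∑ y ∈ rts F x, ‖hpoly w x y‖ ^ 2 / ‖val (MvPolynomial.pderiv 1 F) x y‖ ^ 2

lemma qint_nonneg (F : MvPolynomial (Fin 2) ℂ) (w : hol u v D → ℂ) (x : ℂ) :
    0 ≤ qint F w x := by
  unfold qint
  apply Finset.sum_nonneg
  intro y _
  positivity

lemma sum_ksum (F : MvPolynomial (Fin 2) ℂ) (w : hol u v D → ℂ) (x : ℂ) :
    ∑ s : hol u v D, ∑ t : hol u v D, w s * conj (w t) * ksum F (num s.1 t.1) x =
      ((qint F w x : ℝ) : ℂ) := by
  unfold ksum qint
  simp only [Finset.mul_sum]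
  have h1 : ∀ s : hol u v D, ∑ t : hol u v D, ∑ y ∈ rts F x, w s * conj (w t) *
      (num s.1 t.1 (x, y) / ((‖val (MvPolynomial.pderiv 1 F) x y‖ ^ 2 : ℝ) : ℂ)) =
      ∑ y ∈ rts F x, ∑ t : hol u v D, w s * conj (w t) *
      (num s.1 t.1 (x, y) / ((‖val (MvPolynomial.pderiv 1 F) x y‖ ^ 2 : ℝ) : ℂ)) :=
    fun s => Finset.sum_comm
  simp only [h1]
  rw [Finset.sum_comm]
  push_cast
  apply Finset.sum_congr rfl
  intro y _
  have h2 : ((‖hpoly w x y‖ : ℝ) : ℂ) ^ 2 = hpoly w x y * conj (hpoly w x y) := by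
    rw [Complex.mul_conj, Complex.normSq_eq_norm_sq]
    push_cast
    rfl
  rw [h2]
  unfold hpoly num
  rw [map_sum, Finset.sum_mul_sum, Finset.sum_div]
  apply Finset.sum_congr rfl
  intro s _
  rw [Finset.sum_div]
  apply Finset.sum_congr rfl
  intro t _
  simp only [map_mul, map_pow]
  ring

lemma gram_apply (hu : 0 < u) (hv : 0 < v) (hvD : v ∣ D) (a : full u v D → ℤ)
    (hA : toC a (topexp hv hvD) ≠ 0) (s t : hol u v D) :
    gram a s t = ∫ x : ℂ, ksum (cpoly (toC a)) (num s.1 t.1) x := by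
  unfold gram
  rw [of_apply]
  congr 1
  ext x
  exact kernel_eq hu hv hvD a hA s.1 t.1 x

lemma GoodCurve.integrable_qint (hu : 0 < u) (hv : 0 < v) (hvD : v ∣ D) (hD : v < D)
    {a : full u v D → ℤ} (h : GoodCurve hv hvD a) (w : hol u v D → ℂ) :
    Integrable (qint (cpoly (toC a)) w) := by
  have h1 : Integrable (fun x : ℂ => ∑ s : hol u v D, ∑ t : hol u v D, w s * conj (w t) *
      ksum (cpoly (toC a)) (num s.1 t.1) x) := by
    apply integrable_finsetSum
    intro s _
    apply integrable_finsetSum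
    intro t _
    exact (h.integrable hu hv hvD hD s t).const_mul _
  have h2 := h1.re
  refine h2.congr (Eventually.of_forall fun x => ?_)
  simp only [sum_ksum]
  exact RCLike.ofReal_re _

/-- The quadratic form. -/
lemma GoodCurve.gram_form (hu : 0 < u) (hv : 0 < v) (hvD : v ∣ D) (hD : v < D)
    {a : full u v D → ℤ} (h : GoodCurve hv hvD a) (w : hol u v D → ℂ) :
    star w ⬝ᵥ (gram a *ᵥ w) =
      ((∫ x : ℂ, qint (cpoly (toC a)) (fun s => conj (w s)) x : ℝ) : ℂ) := by
  have h1 : (∫ x : ℂ, ∑ s : hol u v D, ∑ t : hol u v D, conj (w s) * conj (conj (w t)) *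
      ksum (cpoly (toC a)) (num s.1 t.1) x) =
      ((∫ x : ℂ, qint (cpoly (toC a)) (fun s => conj (w s)) x : ℝ) : ℂ) := by
    rw [← integral_complex_ofReal]
    congr 1
    ext x
    exact sum_ksum _ (fun s => conj (w s)) x
  rw [← h1, integral_finsetSum]
  · rw [dotProduct]
    apply Finset.sum_congr rfl
    intro s _
    rw [integral_finsetSum]
    · rw [mulVec, dotProduct, Finset.mul_sum]
      apply Finset.sum_congr rfl
      intro t _
      rw [integral_const_mul, gram_apply hu hv hvD a h.top]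
      simp only [Pi.star_apply, RCLike.star_def, Complex.conj_conj]
      ring
    · intro t _
      exact (h.integrable hu hv hvD hD s t).const_mul _
  · intro s _
    apply integrable_finsetSum
    intro t _
    exact (h.integrable hu hv hvD hD s t).const_mul _

lemma gram_isHermitian (hu : 0 < u) (hv : 0 < v) (hvD : v ∣ D) (a : full u v D → ℤ)
    (hA : toC a (topexp hv hvD) ≠ 0) : (gram a).IsHermitian := by
  ext s t
  rw [conjTranspose_apply, gram_apply hu hv hvD a hA, gram_apply hu hv hvD a hA,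
    RCLike.star_def, ← integral_conj]
  congr 1
  ext x
  unfold ksum num
  rw [map_sum]
  apply Finset.sum_congr rfl
  intro y _
  simp only [map_div₀, map_mul, map_pow, Complex.conj_conj, Complex.conj_ofReal]
  ring

/-- A Hermitian matrix whose form is at least `lam * ‖w‖ ^ 2` has determinant at least
`lam ^ n`. -/
lemma det_lower {n : Type*} [Fintype n] [DecidableEq n] (A : Matrix n n ℂ) (hA : A.IsHermitian)
    (lam : ℝ) (hlam : 0 ≤ lam)
    (h : ∀ w : n → ℂ, lam * ∑ i, ‖w i‖ ^ 2 ≤ (star w ⬝ᵥ (A *ᵥ w)).re) :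
    lam ^ Fintype.card n ≤ A.det.re := by
  have h1 : ∀ i, lam ≤ hA.eigenvalues i := by
    intro i
    rw [hA.eigenvalues_eq]
    have h2 := h ⇑(hA.eigenvectorBasis i)
    have h3 : ∑ k, ‖(hA.eigenvectorBasis i) k‖ ^ 2 = 1 := by
      have := EuclideanSpace.norm_sq_eq (hA.eigenvectorBasis i)
      rw [hA.eigenvectorBasis.orthonormal.1 i] at this
      linarith
    rw [h3, mul_one] at h2
    exact h2
  rw [hA.det_eq_prod_eigenvalues]
  have h4 : (∏ i, ((hA.eigenvalues i : ℝ) : ℂ)).re = ∏ i, hA.eigenvalues i := by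
    rw [← Complex.ofReal_prod, Complex.ofReal_re]
  have h5 : lam ^ Fintype.card n = ∏ _i : n, lam := by simp
  refine le_trans ?_ h4.ge
  rw [h5]
  exact Finset.prod_le_prod (fun _ _ => hlam) (fun i _ => h1 i)

/-- The same with weights. -/
lemma det_lower_scaled {n : Type*} [Fintype n] [DecidableEq n] (A : Matrix n n ℂ)
    (hA : A.IsHermitian) (lam : ℝ) (hlam : 0 ≤ lam) (s : n → ℝ) (hs : ∀ i, 0 < s i)
    (h : ∀ w : n → ℂ, lam * ∑ i, ‖w i‖ ^ 2 * s i ^ 2 ≤ (star w ⬝ᵥ (A *ᵥ w)).re) :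
    lam ^ Fintype.card n * ∏ i, s i ^ 2 ≤ A.det.re := by
  set A' : Matrix n n ℂ :=
    Matrix.of fun i j => ((s i : ℂ))⁻¹ * (Matrix.of fun i j => ((s j : ℂ))⁻¹ * A i j) i j with hA'
  have hent : ∀ i j, A' i j = ((s i : ℂ))⁻¹ * (((s j : ℂ))⁻¹ * A i j) := fun i j => rfl
  have hdet : A'.det = (∏ i, ((s i : ℂ))⁻¹) * ((∏ i, ((s i : ℂ))⁻¹) * A.det) := by
    rw [hA', det_mul_column, det_mul_row]
  have hherm : A'.IsHermitian := by
    ext i j
    rw [conjTranspose_apply, hent, hent]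
    have := hA.apply i j
    rw [← this]
    simp only [star_mul', RCLike.star_def, map_inv₀, Complex.conj_ofReal]
    ring
  have hform : ∀ w : n → ℂ, lam * ∑ i, ‖w i‖ ^ 2 ≤ (star w ⬝ᵥ (A' *ᵥ w)).re := by
    intro w
    have h1 := h (fun i => ((s i : ℂ))⁻¹ * w i)
    have h2 : ∑ i, ‖((s i : ℂ))⁻¹ * w i‖ ^ 2 * s i ^ 2 = ∑ i, ‖w i‖ ^ 2 := by
      apply Finset.sum_congr rfl
      intro i _
      have := (hs i).ne'
      rw [norm_mul, norm_inv, Complex.norm_real, Real.norm_eq_abs, abs_of_pos (hs i)]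
      field_simp
    rw [h2] at h1
    refine h1.trans (le_of_eq ?_)
    congr 1
    simp only [dotProduct, mulVec, Finset.mul_sum]
    apply Finset.sum_congr rfl
    intro i _
    apply Finset.sum_congr rfl
    intro j _
    rw [hent]
    simp only [Pi.star_apply, star_mul', RCLike.star_def, map_inv₀, Complex.conj_ofReal]
    ring
  have h3 := det_lower A' hherm lam hlam hform
  rw [hdet] at h3
  have h4 : (∏ i, ((s i : ℂ))⁻¹) * ((∏ i, ((s i : ℂ))⁻¹) * A.det) =
      (((∏ i, s i ^ 2)⁻¹ : ℝ) : ℂ) * A.det := by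
    rw [← mul_assoc, ← Finset.prod_mul_distrib]
    congr 1
    push_cast
    rw [← Finset.prod_inv_distrib]
    apply Finset.prod_congr rfl
    intro i _
    rw [← mul_inv, sq]
  rw [h4, Complex.re_ofReal_mul] at h3
  have hP : 0 < ∏ i, s i ^ 2 := Finset.prod_pos fun i _ => pow_pos (hs i) 2
  calc lam ^ Fintype.card n * ∏ i, s i ^ 2 ≤
        ((∏ i, s i ^ 2)⁻¹ * A.det.re) * ∏ i, s i ^ 2 := by gcongr
    _ = A.det.re := by
        field_simp

end Pool.Agent.Helper90Frey
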