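import Pool.Agent.Helper90_Frey.Roots

/-!
# Measurability and local integrability of sums over the points of a smooth curve
-/

namespace Pool.Agent.Helper90Frey

open Polynomial Filter Topology MeasureTheory

lemma integrableOn_rpow_norm (x₀ : ℂ) {a : ℝ} (ha : a < 2) :
    IntegrableOn (fun z : ℂ => ‖z - x₀‖ ^ (-a)) (Metric.ball x₀ 1) := by
  have h0 : IntegrableOn (fun z : ℂ => ‖z‖ ^ (-a)) (Metric.ball (0 : ℂ) 1) := by
    have hα : a < (Module.finrank ℝ ℂ : ℝ) := by
      rw [Complex.finrank_real_complex]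
      exact_mod_cast ha
    have hd : 1 ≤ Module.finrank ℝ ℂ := by
      rw [Complex.finrank_real_complex]
      norm_num
    have hdec : ∀ᵐ z : ℂ ∂(volume.restrict (Metric.ball (0 : ℂ) 1)),
        ‖‖z‖ ^ (-a)‖ ≤ 1 * ‖z‖ ^ (-a) := by
      filter_upwards with z
      rw [one_mul, Real.norm_eq_abs, abs_of_nonneg (by positivity)]
    have hme : AEStronglyMeasurable (fun z : ℂ => ‖z‖ ^ (-a)) volume := by
      have : Measurable (fun z : ℂ => ‖z‖ ^ (-a)) := measurable_norm.pow_const _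
      exact this.aestronglyMeasurable
    exact integrableOn_ball_of_norm_le_rpow hd hα hdec hme
  have h1 := (measurePreserving_sub_right (volume : Measure ℂ) x₀).integrableOn_comp_preimage
    (measurableEmbedding_subRight x₀) (f := fun z : ℂ => ‖z‖ ^ (-a)) (s := Metric.ball (0 : ℂ) 1)
  have h2 : (fun z : ℂ => z - x₀) ⁻¹' (Metric.ball (0 : ℂ) 1) = Metric.ball x₀ 1 := by
    ext z
    simp [dist_eq_norm]
  rw [h2] at h1
  exact h1.mpr h0

lemma integrableAtFilter_of_bound {f : ℂ → ℂ} (hf : AEStronglyMeasurable f volume) (x₀ : ℂ)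
    {a C : ℝ} (ha : a < 2) (h : ∀ᶠ x in 𝓝[≠] x₀, ‖f x‖ ≤ C * ‖x - x₀‖ ^ (-a)) :
    IntegrableAtFilter f (𝓝 x₀) volume := by
  rw [eventually_nhdsWithin_iff, Metric.eventually_nhds_iff] at h
  obtain ⟨δ, hδ, hb⟩ := h
  refine ⟨Metric.ball x₀ (min δ 1), Metric.ball_mem_nhds x₀ (by positivity), ?_⟩
  have h1 : IntegrableOn (fun z : ℂ => C * ‖z - x₀‖ ^ (-a)) (Metric.ball x₀ (min δ 1)) :=
    ((integrableOn_rpow_norm x₀ ha).mono_set (Metric.ball_subset_ball (min_le_right _ _))).const_mul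
      C
  refine Integrable.mono' h1 hf.restrict ?_
  have hne : ∀ᵐ x : ℂ ∂(volume.restrict (Metric.ball x₀ (min δ 1))), x ≠ x₀ := by
    apply ae_restrict_of_ae
    rw [ae_iff]
    simp
  filter_upwards [hne, ae_restrict_mem Metric.isOpen_ball.measurableSet] with x hx hxb
  apply hb _ hx
  exact lt_of_lt_of_le (Metric.mem_ball.mp hxb) (min_le_left _ _)

variable {F : MvPolynomial (Fin 2) ℂ} {e : ℕ} {l : ℂ}

/-- The sum over the points of the curve. -/
noncomputable def ksum (F : MvPolynomial (Fin 2) ℂ) (g : ℂ × ℂ → ℂ) (x : ℂ) : ℂ :=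
  ∑ y ∈ rts F x, g (x, y) / ((‖val (MvPolynomial.pderiv 1 F) x y‖ ^ 2 : ℝ) : ℂ)

/-- The curve has no singular point. -/
def Smooth (F : MvPolynomial (Fin 2) ℂ) : Prop :=
  ∀ x y, val F x y = 0 → val (MvPolynomial.pderiv 0 F) x y ≠ 0 ∨
    val (MvPolynomial.pderiv 1 F) x y ≠ 0

/-- Away from finitely many points the roots are distinct. -/
lemma Lead.eventually_card (h : Lead F e l) (he : 0 < e) (hs : Smooth F) (x₀ : ℂ) :
    ∀ᶠ x in 𝓝[≠] x₀, (rts F x).card = e := by
  obtain ⟨c, hc, hev⟩ := h.eventually_lower x₀ (hs x₀)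
  rw [eventually_nhdsWithin_iff]
  filter_upwards [hev] with x hx hne
  rw [h.card_eq_iff]
  intro y hy h0
  have h1 := hx y hy
  rw [h0, norm_zero] at h1
  have h2 : 0 < ‖x - x₀‖ := norm_pos_iff.mpr (sub_ne_zero.mpr hne)
  have h3 : 0 < c * ‖x - x₀‖ ^ (((e : ℝ) - 1) / e) := by positivity
  linarith

lemma Lead.null (h : Lead F e l) (he : 0 < e) (hs : Smooth F) :
    volume {x | (rts F x).card = e}ᶜ = 0 := by
  apply measure_null_of_locally_null
  intro x₀ _
  refine ⟨{x₀}, ?_, by simp⟩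
  have h1 := h.eventually_card he hs x₀
  rw [eventually_nhdsWithin_iff] at h1
  rw [mem_nhdsWithin_iff_eventually]
  filter_upwards [h1] with x hx hxm
  by_contra hne
  exact hxm (hx hne)

lemma Lead.ae_card (h : Lead F e l) (he : 0 < e) (hs : Smooth F) :
    ∀ᵐ x : ℂ, (rts F x).card = e := by
  rw [ae_iff]
  exact h.null he hs

lemma Lead.aestronglyMeasurable (h : Lead F e l) (he : 0 < e) (hs : Smooth F) {g : ℂ × ℂ → ℂ}
    (hg : Continuous g) : AEStronglyMeasurable (ksum F g) volume := by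
  have hopen := h.isOpen_card
  have hcont : ContinuousOn (ksum F g) {x | (rts F x).card = e} := by
    intro x hx
    apply ContinuousAt.continuousWithinAt
    apply h.continuousAt_sum hx (fun z => g z /
      ((‖val (MvPolynomial.pderiv 1 F) z.1 z.2‖ ^ 2 : ℝ) : ℂ))
    intro y hy
    apply ContinuousAt.div
    · exact hg.continuousAt
    · have : Continuous (fun z : ℂ × ℂ =>
          ((‖val (MvPolynomial.pderiv 1 F) z.1 z.2‖ ^ 2 : ℝ) : ℂ)) :=
        Complex.continuous_ofReal.comp ((continuous_val _).norm.pow 2)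
      exact this.continuousAt
    · have h1 := (h.card_eq_iff x).mp hx y (h.mem_rts.mp hy)
      have h2 : 0 < ‖val (MvPolynomial.pderiv 1 F) x y‖ := norm_pos_iff.mpr h1
      have h3 : (‖val (MvPolynomial.pderiv 1 F) x y‖ ^ 2 : ℝ) ≠ 0 := by positivity
      exact_mod_cast h3
  have h1 := hcont.aestronglyMeasurable (μ := volume) hopen.measurableSet
  have hr : (volume : Measure ℂ).restrict {x | (rts F x).card = e} = volume :=
    Measure.restrict_eq_self_of_ae_mem (h.ae_card he hs)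
  rwa [hr] at h1

/-- Local integrability. -/
theorem Lead.locallyIntegrable (h : Lead F e l) (he : 0 < e) (hs : Smooth F) {g : ℂ × ℂ → ℂ}
    (hg : Continuous g) : LocallyIntegrable (ksum F g) volume := by
  intro x₀
  have heR : (0 : ℝ) < e := by exact_mod_cast he
  set α : ℝ := ((e : ℝ) - 1) / e with hα
  have hα1 : α < 1 := by
    rw [hα, div_lt_one heR]
    linarith
  obtain ⟨c, hc, hlow⟩ := h.eventually_lower x₀ (hs x₀)
  obtain ⟨R, hR, hbd⟩ := h.eventually_bounded x₀
  have hK : IsCompact (Metric.closedBall x₀ 1 ×ˢ Metric.closedBall (0 : ℂ) R) :=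
    (isCompact_closedBall _ _).prod (isCompact_closedBall _ _)
  obtain ⟨W, hW⟩ := hK.exists_bound_of_continuousOn hg.continuousOn
  have hball : ∀ᶠ x in 𝓝 x₀, ‖x - x₀‖ < 1 := by
    have := Metric.ball_mem_nhds x₀ one_pos
    filter_upwards [this] with x hx
    rwa [Metric.mem_ball, dist_eq_norm] at hx
  apply integrableAtFilter_of_bound (h.aestronglyMeasurable he hs hg) x₀
    (a := 2 * α) (C := e * (|W| / c ^ 2)) (by linarith)
  rw [eventually_nhdsWithin_iff]
  filter_upwards [hlow, hbd, hball] with x h1 h2 h3 hne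
  have ht : 0 < ‖x - x₀‖ := norm_pos_iff.mpr (sub_ne_zero.mpr hne)
  unfold ksum
  refine (norm_sum_le _ _).trans ?_
  calc ∑ y ∈ rts F x, ‖g (x, y) / ((‖val (MvPolynomial.pderiv 1 F) x y‖ ^ 2 : ℝ) : ℂ)‖
      ≤ ∑ _y ∈ rts F x, |W| / c ^ 2 * ‖x - x₀‖ ^ (-(2 * α)) := by
        apply Finset.sum_le_sum
        intro y hy
        have hy0 := h.mem_rts.mp hy
        have k1 := h1 y hy0
        have k2 : ‖g (x, y)‖ ≤ |W| := by
          refine (hW (x, y) ⟨?_, ?_⟩).trans (le_abs_self W)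
          · rw [Metric.mem_closedBall, dist_eq_norm]
            exact h3.le
          · rw [mem_closedBall_zero_iff]
            exact h2 y hy0
        rw [norm_div, Complex.norm_real, Real.norm_eq_abs, abs_of_nonneg (by positivity)]
        have k3 : 0 < c * ‖x - x₀‖ ^ α := by positivity
        have k4 : (c * ‖x - x₀‖ ^ α) ^ 2 ≤ ‖val (MvPolynomial.pderiv 1 F) x y‖ ^ 2 :=
          pow_le_pow_left₀ k3.le k1 2
        calc ‖g (x, y)‖ / ‖val (MvPolynomial.pderiv 1 F) x y‖ ^ 2
            ≤ |W| / (c * ‖x - x₀‖ ^ α) ^ 2 := by gcongr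
          _ = |W| / c ^ 2 * ‖x - x₀‖ ^ (-(2 * α)) := by
            rw [mul_pow, ← Real.rpow_natCast (‖x - x₀‖ ^ α) 2, ← Real.rpow_mul ht.le,
              Real.rpow_neg ht.le]
            push_cast
            rw [mul_comm α 2]
            field_simp
    _ = (rts F x).card * (|W| / c ^ 2 * ‖x - x₀‖ ^ (-(2 * α))) := by
        rw [Finset.sum_const, nsmul_eq_mul]
    _ ≤ e * (|W| / c ^ 2 * ‖x - x₀‖ ^ (-(2 * α))) := by
        have := h.card_rts_le x
        gcongr
    _ = _ := by ring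

end Pool.Agent.Helper90Frey
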