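import Pool.Agent.Helper90_Frey.Inf
import Pool.Agent.Helper90_Frey.Kernel

/-!
# Lower bound for the sum over the points above `x` by the Horner dual basis
-/

namespace Pool.Agent.Helper90Frey

open Polynomial Filter Topology MeasureTheory

/-- Lagrange interpolation at the roots of `q`. -/
lemma lagrange_roots {q P : ℂ[X]} {s : Finset ℂ} (hs : ∀ y ∈ s, q.eval y = 0)
    (hd : ∀ y ∈ s, (derivative q).eval y ≠ 0) (hq : q.natDegree = s.card) (h0 : 0 < s.card)
    (hP : P.natDegree < s.card) :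
    P = ∑ y ∈ s, C (P.eval y / (derivative q).eval y) * (q /ₘ (X - C y)) := by
  have hfac : ∀ y ∈ s, (X - C y) * (q /ₘ (X - C y)) = q := by
    intro y hy
    exact mul_divByMonic_eq_iff_isRoot.mpr (hs y hy)
  apply eq_of_degrees_lt_of_eval_finset_eq s
  · exact lt_of_le_of_lt degree_le_natDegree (by exact_mod_cast hP)
  · refine lt_of_le_of_lt (degree_sum_le _ _) ?_
    rw [Finset.sup_lt_iff (by
      rw [WithBot.bot_lt_iff_ne_bot]
      exact_mod_cast WithBot.coe_ne_bot)]
    intro y hy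
    refine lt_of_le_of_lt (degree_mul_le _ _) ?_
    have h1 : (q /ₘ (X - C y)).natDegree < s.card := by
      rw [natDegree_divByMonic _ (monic_X_sub_C y), natDegree_X_sub_C, hq]
      omega
    have h2 : degree (C (P.eval y / (derivative q).eval y)) ≤ 0 := degree_C_le
    calc degree (C (P.eval y / (derivative q).eval y)) + degree (q /ₘ (X - C y))
        ≤ 0 + degree (q /ₘ (X - C y)) := by gcongr
      _ = degree (q /ₘ (X - C y)) := zero_add _
      _ ≤ ((q /ₘ (X - C y)).natDegree : WithBot ℕ) := degree_le_natDegree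
      _ < s.card := by exact_mod_cast h1
  · intro z hz
    rw [eval_finsetSum, Finset.sum_eq_single z]
    · have h1 : (derivative q).eval z = (q /ₘ (X - C z)).eval z := by
        conv_lhs => rw [← hfac z hz]
        rw [derivative_mul]
        simp
      rw [eval_mul, eval_C, ← h1, div_mul_cancel₀ _ (hd z hz)]
    · intro y hy hyz
      have h1 := congrArg (eval z) (hfac y hy)
      rw [eval_mul, eval_sub, eval_X, eval_C, hs z hz] at h1
      have h2 := (mul_eq_zero.mp h1).resolve_left (sub_ne_zero.mpr (Ne.symm hyz))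
      rw [eval_mul, h2, mul_zero]
    · intro h
      exact absurd hz h

/-- The coefficients in terms of the values at the roots. -/
lemma coeff_sq_le {q P : ℂ[X]} {s : Finset ℂ} (hs : ∀ y ∈ s, q.eval y = 0)
    (hd : ∀ y ∈ s, (derivative q).eval y ≠ 0) (hq : q.natDegree = s.card) (h0 : 0 < s.card)
    (hP : P.natDegree < s.card) {R T Q : ℝ} (hR : 0 < R) (hT : 1 ≤ T) (hQ : 0 ≤ Q)
    (hc : ∀ j ≤ s.card, ‖q.coeff j‖ * R ^ j ≤ Q) (hb : ∀ y ∈ s, ‖y‖ ≤ T * R) (k : ℕ) :
    ‖P.coeff k‖ ^ 2 * (R ^ (k + 1)) ^ 2 ≤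
      (∑ y ∈ s, ‖P.eval y‖ ^ 2 / ‖(derivative q).eval y‖ ^ 2) *
        (s.card * (s.card * Q * T ^ s.card) ^ 2) := by
  have hT0 : 0 < T := by linarith
  have h1 : ‖P.coeff k‖ ≤ ∑ y ∈ s, (‖P.eval y‖ / ‖(derivative q).eval y‖) *
      ‖(q /ₘ (X - C y)).coeff k‖ := by
    have h2 := congrArg (fun p => p.coeff k) (lagrange_roots hs hd hq h0 hP)
    simp only [finsetSum_coeff, coeff_C_mul] at h2
    rw [h2]
    refine (norm_sum_le _ _).trans (le_of_eq ?_)
    apply Finset.sum_congr rfl
    intro y _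
    rw [norm_mul, norm_div]
  have h3 : ∀ y ∈ s, ‖(q /ₘ (X - C y)).coeff k‖ * R ^ (k + 1) ≤ s.card * Q * T ^ s.card := by
    intro y hy
    rw [coeff_divByMonic_X_sub_C, hq]
    calc ‖∑ i ∈ Finset.Icc (k + 1) s.card, y ^ (i - (k + 1)) * q.coeff i‖ * R ^ (k + 1)
        ≤ (∑ i ∈ Finset.Icc (k + 1) s.card, ‖y‖ ^ (i - (k + 1)) * ‖q.coeff i‖) * R ^ (k + 1) := by
          gcongr
          refine (norm_sum_le _ _).trans (le_of_eq ?_)
          apply Finset.sum_congr rfl
          intro i _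
          rw [norm_mul, norm_pow]
      _ = ∑ i ∈ Finset.Icc (k + 1) s.card, ‖y‖ ^ (i - (k + 1)) * ‖q.coeff i‖ * R ^ (k + 1) := by
          rw [Finset.sum_mul]
      _ ≤ ∑ _i ∈ Finset.Icc (k + 1) s.card, T ^ s.card * Q := by
          apply Finset.sum_le_sum
          intro i hi
          rw [Finset.mem_Icc] at hi
          obtain ⟨t, ht⟩ : ∃ t, i = k + 1 + t := ⟨i - (k + 1), by omega⟩
          have e1 : i - (k + 1) = t := by omega
          rw [e1]
          have e2 : ‖y‖ ^ t ≤ (T * R) ^ t := pow_le_pow_left₀ (norm_nonneg _) (hb y hy) t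
          have e3 : T ^ t ≤ T ^ s.card := pow_le_pow_right₀ hT (by omega)
          calc ‖y‖ ^ t * ‖q.coeff i‖ * R ^ (k + 1) ≤ (T * R) ^ t * ‖q.coeff i‖ * R ^ (k + 1) := by
                gcongr
            _ = T ^ t * (‖q.coeff i‖ * R ^ i) := by
                rw [ht]
                ring
            _ ≤ T ^ s.card * Q := by
                have := hc i hi.2
                gcongr
      _ = ((Finset.Icc (k + 1) s.card).card : ℝ) * (T ^ s.card * Q) := by
          rw [Finset.sum_const, nsmul_eq_mul]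
      _ ≤ (s.card : ℝ) * (T ^ s.card * Q) := by
          have : (Finset.Icc (k + 1) s.card).card ≤ s.card := by
            rw [Nat.card_Icc]
            omega
          have : ((Finset.Icc (k + 1) s.card).card : ℝ) ≤ s.card := by exact_mod_cast this
          gcongr
      _ = _ := by ring
  calc ‖P.coeff k‖ ^ 2 * (R ^ (k + 1)) ^ 2 = (‖P.coeff k‖ * R ^ (k + 1)) ^ 2 := by ring
    _ ≤ ((∑ y ∈ s, (‖P.eval y‖ / ‖(derivative q).eval y‖) *
          ‖(q /ₘ (X - C y)).coeff k‖) * R ^ (k + 1)) ^ 2 := by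
        gcongr
    _ = (∑ y ∈ s, (‖P.eval y‖ / ‖(derivative q).eval y‖) *
          (‖(q /ₘ (X - C y)).coeff k‖ * R ^ (k + 1))) ^ 2 := by
        rw [Finset.sum_mul]
        congr 1
        apply Finset.sum_congr rfl
        intro y _
        ring
    _ ≤ (∑ y ∈ s, (‖P.eval y‖ / ‖(derivative q).eval y‖) ^ 2) *
          (∑ y ∈ s, (‖(q /ₘ (X - C y)).coeff k‖ * R ^ (k + 1)) ^ 2) :=
        Finset.sum_mul_sq_le_sq_mul_sq _ _ _
    _ ≤ (∑ y ∈ s, ‖P.eval y‖ ^ 2 / ‖(derivative q).eval y‖ ^ 2) *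
          (∑ _y ∈ s, (s.card * Q * T ^ s.card) ^ 2) := by
        apply mul_le_mul
        · apply Finset.sum_le_sum
          intro y _
          rw [div_pow]
        · apply Finset.sum_le_sum
          intro y hy
          exact pow_le_pow_left₀ (by positivity) (h3 y hy) 2
        · positivity
        · positivity
    _ = _ := by rw [Finset.sum_const, nsmul_eq_mul]

end Pool.Agent.Helper90Frey
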