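import Mathlib

/-!
# Definitions for the hand-in on Frey's height conjecture: curves with a triangular Newton polygon

Everything is explicit: a polynomial `F(x, y)` with integer coefficients, the Gram matrix of the
holomorphic differentials `x ^ i y ^ j dx / F_y` of the curve `F = 0`, the height attached to it,
and the primes at which the reduction is smooth at infinity with exactly one singular point, an
ordinary node.
-/

namespace Pool.Agent.Helper90Frey

open MvPolynomial MeasureTheory
open scoped ComplexOrder

/-- The exponents `(i, j)` with `u * i + v * j ≤ D`. -/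
def full (u v D : ℕ) : Finset (ℕ × ℕ) :=
  (Finset.range (D + 1) ×ˢ Finset.range (D + 1)).filter fun s => u * s.1 + v * s.2 ≤ D

/-- The exponents `(i, j)` with `u * (i + 1) + v * (j + 1) < D`. -/
def hol (u v D : ℕ) : Finset (ℕ × ℕ) :=
  (Finset.range (D + 1) ×ˢ Finset.range (D + 1)).filter
    fun s => u * (s.1 + 1) + v * (s.2 + 1) < D

/-- The polynomial `F = ∑ a_(i, j) x ^ i y ^ j`. -/
noncomputable def curve {u v D : ℕ} (a : full u v D → ℤ) : MvPolynomial (Fin 2) ℤ :=
  ∑ s : full u v D, C (a s) * X 0 ^ s.1.1 * X 1 ^ s.1.2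

/-- The polynomial `∑ a_(i, j) Y ^ j` over the exponents with `u * i + v * j = D`. -/
noncomputable def edge {u v D : ℕ} (a : full u v D → ℤ) : Polynomial ℤ :=
  ∑ s : full u v D, if u * s.1.1 + v * s.1.2 = D then
    Polynomial.C (a s) * Polynomial.X ^ s.1.2 else 0

/-- Over the field `K`: the edge polynomial has degree `D / v`, a nonzero constant term and no
multiple root (the curve is smooth at infinity). -/
def SmoothAtInfinity {u v D : ℕ} (K : Type) [Field K] (a : full u v D → ℤ) : Prop :=
  ((edge a).map (Int.castRingHom K)).natDegree = D / v ∧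
    ((edge a).map (Int.castRingHom K)).coeff 0 ≠ 0 ∧
    ((edge a).map (Int.castRingHom K)).Separable

/-- The point `z` of the affine plane over `K` is a singular point of `F = 0`. -/
def Singular {K : Type} [Field K] (F : MvPolynomial (Fin 2) ℤ) (z : Fin 2 → K) : Prop :=
  aeval z F = 0 ∧ aeval z (pderiv 0 F) = 0 ∧ aeval z (pderiv 1 F) = 0

/-- The Hessian determinant of `F` at the point `z` is not zero. -/
def Nondegenerate {K : Type} [Field K] (F : MvPolynomial (Fin 2) ℤ) (z : Fin 2 → K) : Prop :=
  aeval z (pderiv 0 (pderiv 0 F) * pderiv 1 (pderiv 1 F) - pderiv 0 (pderiv 1 F) ^ 2) ≠ 0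

/-- The primes `p` such that the reduction of the curve modulo `p` is smooth at infinity and has
exactly one singular point in the affine plane over an algebraic closure of the field with `p`
elements, an ordinary node (the Hessian determinant is not zero there). -/
def nodePrimes {u v D : ℕ} (a : full u v D → ℤ) : Set ℕ :=
  {p | ∃ hp : p.Prime, haveI : Fact p.Prime := ⟨hp⟩
    SmoothAtInfinity (AlgebraicClosure (ZMod p)) a ∧
    ∃ z : Fin 2 → AlgebraicClosure (ZMod p), Singular (curve a) z ∧
      (∀ w : Fin 2 → AlgebraicClosure (ZMod p), Singular (curve a) w → w = z) ∧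
      Nondegenerate (curve a) z}

/-- The product of the node primes. -/
noncomputable def Nstar {u v D : ℕ} (a : full u v D → ℤ) : ℕ := ∏ᶠ p ∈ nodePrimes a, p

/-- The integrand of the Gram matrix: the sum over the points `(x, y)` of the curve above `x` of
`x ^ s.1 y ^ s.2 conj (x ^ t.1 y ^ t.2) / |F_y (x, y)| ^ 2`. -/
noncomputable def kernel (F : MvPolynomial (Fin 2) ℤ) (s t : ℕ × ℕ) (x : ℂ) : ℂ :=
  ∑ᶠ y ∈ {y : ℂ | aeval ![x, y] F = 0}, x ^ s.1 * y ^ s.2 *
    starRingEnd ℂ (x ^ t.1 * y ^ t.2) / ((‖aeval ![x, y] (pderiv 1 F)‖ ^ 2 : ℝ) : ℂ)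

/-- The Gram matrix of the differentials `x ^ i y ^ j dx / F_y`, for `(i, j)` in `hol u v D`. -/
noncomputable def gram {u v D : ℕ} (a : full u v D → ℤ) : Matrix (hol u v D) (hol u v D) ℂ :=
  Matrix.of fun s t => ∫ x : ℂ, kernel (curve a) s t x

/-- The height: minus one half of the logarithm of the Gram determinant. -/
noncomputable def hW {u v D : ℕ} (a : full u v D → ℤ) : ℝ :=
  -(1 / 2) * Real.log (gram a).det.re

/-- The curve is smooth at infinity and in the affine plane over the complex numbers, the
integrals in its Gram matrix converge (absolutely), the Gram matrix is positive definite, there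
are finitely many node primes, and the height is at most `κ` times the logarithm of the product
of the node primes. -/
def FreyHolds {u v D : ℕ} (κ : ℝ) (a : full u v D → ℤ) : Prop :=
  SmoothAtInfinity ℂ a ∧ (∀ z : Fin 2 → ℂ, ¬ Singular (curve a) z) ∧
    (∀ s t : hol u v D, Integrable (kernel (curve a) s t)) ∧
    (gram a).PosDef ∧ (nodePrimes a).Finite ∧ hW a ≤ κ * Real.log (Nstar a)

end Pool.Agent.Helper90Frey
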