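import Pool.Agent.Helper90_Frey.Roots
import Pool.Agent.Helper90_Frey.Defs

/-!
# Behaviour of the curve at infinity
-/

namespace Pool.Agent.Helper90Frey

open Polynomial Filter Topology

variable {u v D : ℕ}

/-- The polynomial with complex coefficient vector `A`. -/
noncomputable def cpoly (A : full u v D → ℂ) : MvPolynomial (Fin 2) ℂ :=
  ∑ s : full u v D, MvPolynomial.C (A s) * MvPolynomial.X 0 ^ s.1.1 * MvPolynomial.X 1 ^ s.1.2

lemma mem_full {s : ℕ × ℕ} (hu : 0 < u) (hv : 0 < v) :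
    s ∈ full u v D ↔ u * s.1 + v * s.2 ≤ D := by
  unfold full
  rw [Finset.mem_filter, Finset.mem_product, Finset.mem_range, Finset.mem_range]
  constructor
  · exact fun h => h.2
  · intro h
    refine ⟨⟨?_, ?_⟩, h⟩
    · nlinarith [Nat.zero_le (v * s.2)]
    · nlinarith [Nat.zero_le (u * s.1)]

lemma mem_hol {s : ℕ × ℕ} (hu : 0 < u) (hv : 0 < v) :
    s ∈ hol u v D ↔ u * (s.1 + 1) + v * (s.2 + 1) < D := by
  unfold hol
  rw [Finset.mem_filter, Finset.mem_product, Finset.mem_range, Finset.mem_range]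
  constructor
  · exact fun h => h.2
  · intro h
    refine ⟨⟨?_, ?_⟩, h⟩
    · nlinarith [Nat.zero_le (v * (s.2 + 1))]
    · nlinarith [Nat.zero_le (u * (s.1 + 1))]

lemma full_le (s : full u v D) : u * s.1.1 + v * s.1.2 ≤ D := (Finset.mem_filter.mp s.2).2

lemma hol_lt (s : hol u v D) : u * (s.1.1 + 1) + v * (s.1.2 + 1) < D :=
  (Finset.mem_filter.mp s.2).2

lemma val_cpoly (A : full u v D → ℂ) (x y : ℂ) :
    val (cpoly A) x y = ∑ s, A s * x ^ s.1.1 * y ^ s.1.2 := by
  unfold val cpoly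
  simp

lemma val_pderiv_cpoly (A : full u v D → ℂ) (x y : ℂ) :
    val (MvPolynomial.pderiv 1 (cpoly A)) x y =
      ∑ s, A s * x ^ s.1.1 * (s.1.2 * y ^ (s.1.2 - 1)) := by
  unfold val cpoly
  rw [map_sum, map_sum]
  apply Finset.sum_congr rfl
  intro s _
  rw [Derivation.leibniz, Derivation.leibniz, Derivation.leibniz_pow, Derivation.leibniz_pow,
    MvPolynomial.pderiv_X_self, MvPolynomial.pderiv_X_of_ne (by decide : (0 : Fin 2) ≠ 1),
    MvPolynomial.pderiv_C]
  simp

lemma slice_cpoly (A : full u v D → ℂ) (x : ℂ) :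
    slice (cpoly A) x = ∑ s, C (A s * x ^ s.1.1) * X ^ s.1.2 := by
  unfold slice cpoly
  simp [C_mul, C_pow]

lemma slice_coeff (A : full u v D → ℂ) (x : ℂ) (j : ℕ) :
    (slice (cpoly A) x).coeff j = ∑ s, if j = s.1.2 then A s * x ^ s.1.1 else 0 := by
  rw [slice_cpoly, finsetSum_coeff]
  apply Finset.sum_congr rfl
  intro s _
  rw [coeff_C_mul_X_pow]

/-- The top exponent `(0, D / v)`. -/
def topexp (hv : 0 < v) (hvD : v ∣ D) : full u v D :=
  ⟨(0, D / v), by
    unfold full
    rw [Finset.mem_filter, Finset.mem_product, Finset.mem_range, Finset.mem_range]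
    have h1 := Nat.mul_div_cancel' hvD
    have h2 : D / v ≤ D := Nat.div_le_self D v
    refine ⟨⟨by omega, by omega⟩, ?_⟩
    simp only [mul_zero, zero_add]
    omega⟩

lemma eq_topexp (hu : 0 < u) (hv : 0 < v) (hvD : v ∣ D) (s : full u v D) (h : s.1.2 = D / v) :
    s = topexp hv hvD := by
  apply Subtype.ext
  unfold topexp
  have h1 := full_le s
  rw [h, Nat.mul_div_cancel' hvD] at h1
  have h2 : s.1.1 = 0 := by
    rcases Nat.eq_zero_or_pos s.1.1 with h3 | h3
    · exact h3
    · nlinarith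
  exact Prod.ext h2 h

lemma snd_le (hv : 0 < v) (s : full u v D) : s.1.2 ≤ D / v := by
  rw [Nat.le_div_iff_mul_le hv]
  have := full_le s
  nlinarith [Nat.zero_le (u * s.1.1)]

lemma lead_cpoly (hu : 0 < u) (hv : 0 < v) (hvD : v ∣ D) (A : full u v D → ℂ)
    (hA : A (topexp hv hvD) ≠ 0) : Lead (cpoly A) (D / v) (A (topexp hv hvD)) := by
  refine ⟨hA, ?_⟩
  intro x
  have hle : (slice (cpoly A) x).natDegree ≤ D / v := by
    rw [slice_cpoly]
    apply natDegree_sum_le_of_forall_le
    intro s _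
    exact (natDegree_C_mul_X_pow_le _ _).trans (snd_le hv s)
  have hc : (slice (cpoly A) x).coeff (D / v) = A (topexp hv hvD) := by
    rw [slice_coeff, Finset.sum_eq_single (topexp hv hvD)]
    · simp [topexp]
    · intro s _ hs
      rw [if_neg]
      intro h
      exact hs (eq_topexp hu hv hvD s h.symm)
    · intro h
      exact absurd (Finset.mem_univ _) h
  have hdeg : (slice (cpoly A) x).natDegree = D / v := by
    apply le_antisymm hle
    apply le_natDegree_of_ne_zero
    rw [hc]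
    exact hA
  refine ⟨hdeg, ?_⟩
  rw [leadingCoeff, hdeg, hc]

/-- The edge polynomial. -/
noncomputable def cedge (A : full u v D → ℂ) : ℂ[X] :=
  ∑ s : full u v D, if u * s.1.1 + v * s.1.2 = D then C (A s) * X ^ s.1.2 else 0

lemma cedge_eval (A : full u v D → ℂ) (y : ℂ) : (cedge A).eval y =
    ∑ s : full u v D, if u * s.1.1 + v * s.1.2 = D then A s * y ^ s.1.2 else 0 := by
  unfold cedge
  rw [eval_finsetSum]
  apply Finset.sum_congr rfl
  intro s _
  split_ifs
  · simp
  · simp

lemma cedge_derivative_eval (A : full u v D → ℂ) (y : ℂ) : (derivative (cedge A)).eval y =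
    ∑ s : full u v D, if u * s.1.1 + v * s.1.2 = D then
      A s * (s.1.2 * y ^ (s.1.2 - 1)) else 0 := by
  unfold cedge
  rw [derivative_sum, eval_finsetSum]
  apply Finset.sum_congr rfl
  intro s _
  split_ifs
  · simp [derivative_X_pow]
  · simp

/-- **Behaviour at infinity.** -/
theorem infinity_bounds (hu : 0 < u) (hv : 0 < v) (hvD : v ∣ D) (hD : v < D) (A : full u v D → ℂ)
    (hA : A (topexp hv hvD) ≠ 0)
    (hsep : ∀ y, (cedge A).eval y = 0 → (derivative (cedge A)).eval y ≠ 0) :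
    ∃ c K R : ℝ, 0 < c ∧ 1 ≤ K ∧ 1 ≤ R ∧ ∀ lam : ℝ, R ≤ lam → ∀ x y : ℂ, ‖x‖ = lam ^ u →
      val (cpoly A) x y = 0 → ‖y‖ ≤ K * lam ^ v ∧
        c * lam ^ (D - v) ≤ ‖val (MvPolynomial.pderiv 1 (cpoly A)) x y‖ := by
  have hL := lead_cpoly hu hv hvD A hA
  set l := A (topexp hv hvD) with hl
  have hl0 : 0 < ‖l‖ := norm_pos_iff.mpr hA
  set S : ℝ := ∑ s, ‖A s‖ with hS
  have hS0 : 0 ≤ S := Finset.sum_nonneg fun _ _ => norm_nonneg _
  set M : ℝ := S / ‖l‖ with hM
  have hM0 : 0 ≤ M := by positivity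
  set e := D / v with he
  set K : ℝ := 1 + e * M with hK
  have hK1 : 1 ≤ K := by
    have : 0 ≤ (e : ℝ) * M := by positivity
    linarith
  -- the root bound
  have hroot : ∀ lam : ℝ, 1 ≤ lam → ∀ x y : ℂ, ‖x‖ = lam ^ u →
      val (cpoly A) x y = 0 → ‖y‖ ≤ K * lam ^ v := by
    intro lam hlam x y hx hy
    have hlam0 : 0 < lam := by linarith
    apply hL.root_bound (by positivity) hM0 _ hy
    intro j hj
    rw [hM, div_mul_cancel₀ _ hl0.ne', slice_coeff]
    calc ‖∑ s : full u v D, if j = s.1.2 then A s * x ^ s.1.1 else 0‖ * (lam ^ v) ^ j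
        ≤ (∑ s : full u v D, ‖A s‖ * (if j = s.1.2 then lam ^ (u * s.1.1) else 0)) *
            (lam ^ v) ^ j := by
          gcongr
          refine (norm_sum_le _ _).trans (Finset.sum_le_sum ?_)
          intro s _
          split_ifs
          · rw [norm_mul, norm_pow, hx, ← pow_mul]
          · simp
      _ = ∑ s : full u v D, ‖A s‖ * (if j = s.1.2 then lam ^ (u * s.1.1) * (lam ^ v) ^ j
            else 0) := by
          rw [Finset.sum_mul]
          apply Finset.sum_congr rfl
          intro s _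
          split_ifs
          · ring
          · ring
      _ ≤ ∑ s : full u v D, ‖A s‖ * (lam ^ v) ^ e := by
          apply Finset.sum_le_sum
          intro s _
          apply mul_le_mul_of_nonneg_left _ (norm_nonneg _)
          split_ifs with h
          · rw [← pow_mul, ← pow_mul, ← pow_add, he, Nat.mul_div_cancel' hvD]
            apply pow_le_pow_right₀ hlam
            rw [h]
            exact full_le s
          · positivity
      _ = S * (lam ^ v) ^ e := by rw [hS, Finset.sum_mul]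
  -- compactness
  set f : ℂ × ℂ → ℂ := fun z => ∑ s : full u v D, if u * s.1.1 + v * s.1.2 = D then
    A s * z.1 ^ s.1.1 * z.2 ^ s.1.2 else 0 with hf
  set fy : ℂ × ℂ → ℂ := fun z => ∑ s : full u v D, if u * s.1.1 + v * s.1.2 = D then
    A s * z.1 ^ s.1.1 * (s.1.2 * z.2 ^ (s.1.2 - 1)) else 0 with hfy
  have hfc : Continuous f := by
    apply continuous_finsetSum
    intro s _
    split_ifs
    · fun_prop
    · exact continuous_const
  have hfyc : Continuous fy := by
    apply continuous_finsetSum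
    intro s _
    split_ifs
    · fun_prop
    · exact continuous_const
  have hcomp : IsCompact (Metric.sphere (0 : ℂ) 1 ×ˢ Metric.closedBall (0 : ℂ) K) :=
    (isCompact_sphere _ _).prod (isCompact_closedBall _ _)
  have hpos : ∀ z ∈ Metric.sphere (0 : ℂ) 1 ×ˢ Metric.closedBall (0 : ℂ) K,
      0 < ‖f z‖ + ‖fy z‖ := by
    rintro ⟨X, Y⟩ ⟨hX, _⟩
    simp only [mem_sphere_zero_iff_norm] at hX
    obtain ⟨μ, hμ⟩ := IsAlgClosed.exists_pow_nat_eq X hu
    have hμ0 : μ ≠ 0 := by
      intro h0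
      rw [h0, zero_pow hu.ne'] at hμ
      rw [← hμ, norm_zero] at hX
      exact zero_ne_one hX
    set Y' := Y / μ ^ v with hY'
    have hYY : Y = μ ^ v * Y' := by
      rw [hY']
      field_simp
    have e1 : f (X, Y) = μ ^ D * (cedge A).eval Y' := by
      rw [hf, cedge_eval, Finset.mul_sum]
      apply Finset.sum_congr rfl
      intro s _
      split_ifs with h
      · have hpD : μ ^ D = μ ^ (u * s.1.1) * μ ^ (v * s.1.2) := by rw [← pow_add, h]
        simp only
        rw [← hμ, hYY, mul_pow, ← pow_mul, ← pow_mul, hpD]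
        ring
      · ring
    have e2 : μ ^ v * fy (X, Y) = μ ^ D * (derivative (cedge A)).eval Y' := by
      rw [hfy, cedge_derivative_eval, Finset.mul_sum, Finset.mul_sum]
      apply Finset.sum_congr rfl
      intro s _
      split_ifs with h
      · simp only
        rcases Nat.eq_zero_or_pos s.1.2 with h0 | h0
        · rw [h0]
          simp
        · obtain ⟨k, hk⟩ : ∃ k, s.1.2 = k + 1 := ⟨s.1.2 - 1, by omega⟩
          have hpD : μ ^ D = μ ^ (u * s.1.1) * μ ^ (v * s.1.2) := by rw [← pow_add, h]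
          rw [← hμ, hYY, hpD, hk, Nat.add_sub_cancel]
          ring
      · ring
    by_contra hcon
    push Not at hcon
    have h1 : ‖f (X, Y)‖ = 0 := le_antisymm (by linarith [norm_nonneg (fy (X, Y))])
      (norm_nonneg _)
    have h2 : ‖fy (X, Y)‖ = 0 := le_antisymm (by linarith [norm_nonneg (f (X, Y))])
      (norm_nonneg _)
    rw [norm_eq_zero] at h1 h2
    rw [h1] at e1
    rw [h2, mul_zero] at e2
    have h3 := (mul_eq_zero.mp e1.symm).resolve_left (pow_ne_zero _ hμ0)
    have h4 := (mul_eq_zero.mp e2.symm).resolve_left (pow_ne_zero _ hμ0)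
    exact hsep Y' h3 h4
  have hne : (Metric.sphere (0 : ℂ) 1 ×ˢ Metric.closedBall (0 : ℂ) K).Nonempty := by
    refine ⟨(1, 0), ?_, ?_⟩
    · simp
    · simp
      linarith
  obtain ⟨z0, hz0, hmin⟩ := hcomp.exists_isMinOn hne
    ((hfc.norm.add hfyc.norm).continuousOn)
  set c0 : ℝ := (‖f z0‖ + ‖fy z0‖) / 2 with hc0
  have hc0p : 0 < c0 := by
    have := hpos z0 hz0
    positivity
  have hlow : ∀ X Y : ℂ, ‖X‖ = 1 → ‖Y‖ ≤ K → 2 * c0 ≤ ‖f (X, Y)‖ + ‖fy (X, Y)‖ := by
    intro X Y hX hY
    have := hmin (a := (X, Y)) ⟨by simpa using hX, by simpa using hY⟩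
    simp only at this
    rw [hc0]
    have h2 : (fun x => ‖f x‖ + ‖fy x‖) z0 ≤ (fun x => ‖f x‖ + ‖fy x‖) (X, Y) := this
    simp only at h2
    linarith
  -- constants
  set C1 : ℝ := S * K ^ D with hC1
  set C2 : ℝ := S * D * K ^ D with hC2
  have hC10 : 0 ≤ C1 := by positivity
  have hC20 : 0 ≤ C2 := by positivity
  refine ⟨c0, K, max 1 ((C1 + C2) / c0), hc0p, hK1, le_max_left _ _, ?_⟩
  intro lam hlam x y hx hy
  have hlam1 : 1 ≤ lam := (le_max_left _ _).trans hlam
  have hlam0 : 0 < lam := by linarith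
  have hlam2 : (C1 + C2) ≤ c0 * lam := by
    have := (le_max_right _ _).trans hlam
    rw [div_le_iff₀ hc0p] at this
    linarith
  have hyK := hroot lam hlam1 x y hx hy
  refine ⟨hyK, ?_⟩
  set X : ℂ := x / (lam : ℂ) ^ u with hX
  set Y : ℂ := y / (lam : ℂ) ^ v with hY
  have hlamC : (lam : ℂ) ≠ 0 := by exact_mod_cast hlam0.ne'
  have hnl : ‖(lam : ℂ)‖ = lam := by rw [Complex.norm_real, Real.norm_eq_abs, abs_of_pos hlam0]
  have hxX : x = (lam : ℂ) ^ u * X := by
    rw [hX]
    field_simp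
  have hyY : y = (lam : ℂ) ^ v * Y := by
    rw [hY]
    field_simp
  have hnX : ‖X‖ = 1 := by
    rw [hX, norm_div, norm_pow, hnl, hx, div_self (by positivity)]
  have hnY : ‖Y‖ ≤ K := by
    rw [hY, norm_div, norm_pow, hnl, div_le_iff₀ (by positivity)]
    exact hyK
  have hYD : ∀ j, j ≤ D → ‖Y‖ ^ j ≤ K ^ D := by
    intro j hj
    calc ‖Y‖ ^ j ≤ K ^ j := pow_le_pow_left₀ (norm_nonneg _) hnY j
      _ ≤ K ^ D := pow_le_pow_right₀ hK1 hj
  have hsD : ∀ s : full u v D, s.1.2 ≤ D := by
    intro s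
    exact (snd_le hv s).trans (Nat.div_le_self D v)
  -- the first estimate
  have g1 : lam * ‖f (X, Y)‖ ≤ C1 := by
    have h1 : (lam : ℂ) ^ D * f (X, Y) = -∑ s : full u v D, if u * s.1.1 + v * s.1.2 = D then 0
        else A s * x ^ s.1.1 * y ^ s.1.2 := by
      have hy' := hy
      rw [val_cpoly] at hy'
      rw [eq_neg_iff_add_eq_zero]
      refine Eq.trans ?_ hy'
      rw [hf, Finset.mul_sum, ← Finset.sum_add_distrib]
      apply Finset.sum_congr rfl
      intro s _
      split_ifs with h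
      · have hpD : (lam : ℂ) ^ D = (lam : ℂ) ^ (u * s.1.1) * (lam : ℂ) ^ (v * s.1.2) := by
          rw [← pow_add, h]
        rw [add_zero, hxX, hyY, hpD]
        ring
      · simp
    have h2 : ‖(lam : ℂ) ^ D * f (X, Y)‖ * lam ≤ C1 * lam ^ D := by
      rw [h1, norm_neg, hC1, hS, Finset.sum_mul, Finset.sum_mul]
      refine (mul_le_mul_of_nonneg_right (norm_sum_le _ _) hlam0.le).trans ?_
      rw [Finset.sum_mul]
      apply Finset.sum_le_sum
      intro s _
      split_ifs with h
      · rw [norm_zero, zero_mul]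
        positivity
      · rw [hxX, hyY, norm_mul, norm_mul, norm_pow, norm_pow, norm_mul, norm_mul, norm_pow,
          norm_pow, hnl, hnX, mul_one]
        have h3 : lam ^ (u * s.1.1 + v * s.1.2 + 1) ≤ lam ^ D := by
          apply pow_le_pow_right₀ hlam1
          have := full_le s
          omega
        calc ‖A s‖ * (lam ^ u) ^ s.1.1 * (lam ^ v * ‖Y‖) ^ s.1.2 * lam =
            ‖A s‖ * ‖Y‖ ^ s.1.2 * lam ^ (u * s.1.1 + v * s.1.2 + 1) := by ring
          _ ≤ ‖A s‖ * K ^ D * lam ^ D := by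
            have := hYD s.1.2 (hsD s)
            gcongr
    rw [norm_mul, norm_pow, hnl] at h2
    have h4 : lam ^ D * (lam * ‖f (X, Y)‖) ≤ lam ^ D * C1 := by
      calc _ = lam ^ D * ‖f (X, Y)‖ * lam := by ring
        _ ≤ C1 * lam ^ D := h2
        _ = _ := by ring
    exact le_of_mul_le_mul_left h4 (by positivity)
  -- the second estimate
  have g2 : lam ^ (D - v) * (lam * ‖fy (X, Y)‖) ≤
      lam * ‖val (MvPolynomial.pderiv 1 (cpoly A)) x y‖ + C2 * lam ^ (D - v) := by
    have h1 : (lam : ℂ) ^ (D - v) * fy (X, Y) = val (MvPolynomial.pderiv 1 (cpoly A)) x y -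
        ∑ s : full u v D, if u * s.1.1 + v * s.1.2 = D then 0
        else A s * x ^ s.1.1 * (s.1.2 * y ^ (s.1.2 - 1)) := by
      rw [eq_sub_iff_add_eq, val_pderiv_cpoly, hfy, Finset.mul_sum, ← Finset.sum_add_distrib]
      apply Finset.sum_congr rfl
      intro s _
      split_ifs with h
      · rw [add_zero]
        rcases Nat.eq_zero_or_pos s.1.2 with h0 | h0
        · rw [h0]
          simp
        · obtain ⟨k, hk⟩ : ∃ k, s.1.2 = k + 1 := ⟨s.1.2 - 1, by omega⟩
          have hDv : (lam : ℂ) ^ (D - v) = (lam : ℂ) ^ (u * s.1.1) * (lam : ℂ) ^ (v * k) := by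
            rw [← pow_add]
            congr 1
            rw [hk] at h
            have h5 : v * (k + 1) = v * k + v := by ring
            omega
          rw [hxX, hyY, hDv, hk, Nat.add_sub_cancel]
          ring
      · simp
    have h2 : ‖∑ s : full u v D, if u * s.1.1 + v * s.1.2 = D then 0
        else A s * x ^ s.1.1 * (s.1.2 * y ^ (s.1.2 - 1))‖ * lam ≤ C2 * lam ^ (D - v) := by
      rw [hC2, hS, Finset.sum_mul, Finset.sum_mul, Finset.sum_mul]
      refine (mul_le_mul_of_nonneg_right (norm_sum_le _ _) hlam0.le).trans ?_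
      rw [Finset.sum_mul]
      apply Finset.sum_le_sum
      intro s _
      split_ifs with h
      · rw [norm_zero, zero_mul]
        positivity
      · rcases Nat.eq_zero_or_pos s.1.2 with h0 | h0
        · rw [h0]
          simp
          positivity
        · obtain ⟨k, hk⟩ : ∃ k, s.1.2 = k + 1 := ⟨s.1.2 - 1, by omega⟩
          rw [hxX, hyY, norm_mul, norm_mul, norm_pow, norm_mul, norm_mul, norm_pow, norm_pow,
            norm_mul, norm_pow, hnl, hnX, mul_one, Complex.norm_natCast]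
          have h3 : lam ^ (u * s.1.1 + v * k + 1) ≤ lam ^ (D - v) := by
            apply pow_le_pow_right₀ hlam1
            have := full_le s
            rw [hk] at this h
            have h5 : v * (k + 1) = v * k + v := by ring
            omega
          have h6 : (s.1.2 : ℝ) ≤ D := by exact_mod_cast hsD s
          have h7 := hYD k (by have := hsD s; omega)
          rw [hk, Nat.add_sub_cancel, ← hk]
          calc ‖A s‖ * (lam ^ u) ^ s.1.1 * (s.1.2 * (lam ^ v * ‖Y‖) ^ k) * lam =
              ‖A s‖ * s.1.2 * ‖Y‖ ^ k * lam ^ (u * s.1.1 + v * k + 1) := by ring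
            _ ≤ ‖A s‖ * D * K ^ D * lam ^ (D - v) := by gcongr
    have h3 : lam ^ (D - v) * ‖fy (X, Y)‖ ≤ ‖val (MvPolynomial.pderiv 1 (cpoly A)) x y‖ +
        ‖∑ s : full u v D, if u * s.1.1 + v * s.1.2 = D then 0
        else A s * x ^ s.1.1 * (s.1.2 * y ^ (s.1.2 - 1))‖ := by
      have : lam ^ (D - v) * ‖fy (X, Y)‖ = ‖(lam : ℂ) ^ (D - v) * fy (X, Y)‖ := by
        rw [norm_mul, norm_pow, hnl]
      rw [this, h1]
      exact norm_sub_le _ _
    nlinarith
  have g3 := hlow X Y hnX hnY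
  have hp : 0 < lam ^ (D - v) := by positivity
  have g4 : lam ^ (D - v) * (2 * c0 * lam) ≤ lam ^ (D - v) * C1 +
      (lam * ‖val (MvPolynomial.pderiv 1 (cpoly A)) x y‖ + C2 * lam ^ (D - v)) := by
    calc lam ^ (D - v) * (2 * c0 * lam) ≤
        lam ^ (D - v) * ((‖f (X, Y)‖ + ‖fy (X, Y)‖) * lam) := by gcongr
      _ = lam ^ (D - v) * (lam * ‖f (X, Y)‖) + lam ^ (D - v) * (lam * ‖fy (X, Y)‖) := by ring
      _ ≤ _ := by gcongr
  have g5 : lam ^ (D - v) * (C1 + C2) ≤ lam ^ (D - v) * (c0 * lam) := by gcongr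
  have g6 : lam * (c0 * lam ^ (D - v)) ≤
      lam * ‖val (MvPolynomial.pderiv 1 (cpoly A)) x y‖ := by nlinarith
  exact le_of_mul_le_mul_left g6 hlam0

end Pool.Agent.Helper90Frey
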