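import Pool.Agent.Helper90_Frey.Cert4
import Pool.Agent.Helper90_Frey.Inf
import Pool.Agent.Helper5_Frey.Rankin

/-!
# The certificate for the family of curves
-/

namespace Pool.Agent.Helper90Frey

open Polynomial

variable {u v D : ℕ}

/-- The exponent `(0, 0)`. -/
def origin (u v D : ℕ) : full u v D :=
  ⟨(0, 0), by
    unfold full
    rw [Finset.mem_filter, Finset.mem_product, Finset.mem_range]
    exact ⟨⟨by omega, by simp⟩, by simp⟩⟩

/-- The exponents different from `(0, 0)`. -/
abbrev tau (u v D : ℕ) := {s : full u v D // s ≠ origin u v D}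

/-- The linear exponents. -/
def lin (hu : 0 < u) (hv : 0 < v) (huD : u ≤ D) (hvD : v ≤ D) (i : Fin 2) : tau u v D :=
  if i = 0 then ⟨⟨(1, 0), (mem_full hu hv).mpr (by simpa using huD)⟩, by
    unfold origin
    intro h
    have := congrArg (fun s : full u v D => s.1.1) h
    simp at this⟩
  else ⟨⟨(0, 1), (mem_full hu hv).mpr (by simpa using hvD)⟩, by
    unfold origin
    intro h
    have := congrArg (fun s : full u v D => s.1.2) h
    simp at this⟩

/-- The monomials. -/
noncomputable def mon (s : tau u v D) : MvPolynomial (Fin 2) ℤ :=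
  MvPolynomial.X 0 ^ s.1.1.1 * MvPolynomial.X 1 ^ s.1.1.2

section lemmas

variable (hu : 0 < u) (hv : 0 < v) (huD : u ≤ D) (hvD : v ≤ D)

lemma lin_ne : lin hu hv huD hvD 0 ≠ lin hu hv huD hvD 1 := by
  unfold lin
  intro h
  have := congrArg (fun s : tau u v D => s.1.1.1) h
  simp at this

lemma mon_lin (i : Fin 2) : mon (lin hu hv huD hvD i) = MvPolynomial.X i := by
  unfold mon lin
  fin_cases i
  · simp
  · simp

/-- The point of the universal family attached to a coefficient vector and a point of the plane. -/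
def pt {K : Type} [Field K] (α : tau u v D → K) (z : Fin 2 → K) (s : tau u v D) : K :=
  if s = lin hu hv huD hvD 0 then z 0 else if s = lin hu hv huD hvD 1 then z 1 else α s

variable {K : Type} [Field K] (α : tau u v D → K) (z : Fin 2 → K)

lemma pt_lin (i : Fin 2) : pt hu hv huD hvD α z (lin hu hv huD hvD i) = z i := by
  unfold pt
  fin_cases i
  · simp
  · simp [(lin_ne hu hv huD hvD).symm]

lemma evA_rename (Q : MvPolynomial (Fin 2) ℤ) :
    evA (pt hu hv huD hvD α z) (MvPolynomial.rename (lin hu hv huD hvD) Q) =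
      MvPolynomial.aeval z Q := by
  unfold evA
  rw [MvPolynomial.coe_eval₂Hom, MvPolynomial.eval₂_rename, MvPolynomial.aeval_def]
  congr 1
  funext i
  exact pt_lin hu hv huD hvD α z i

/-- A linear operator on polynomials that is compatible with the universal family. -/
lemma evA_sum (T : MvPolynomial (Fin 2) ℤ → MvPolynomial (Fin 2) ℤ) :
    evA (pt hu hv huD hvD α z) (∑ s : tau u v D, if s = lin hu hv huD hvD 0 ∨
      s = lin hu hv huD hvD 1 then 0 else MvPolynomial.X s *
        MvPolynomial.rename (lin hu hv huD hvD) (T (mon s))) +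
      α (lin hu hv huD hvD 0) * MvPolynomial.aeval z (T (MvPolynomial.X 0)) +
      α (lin hu hv huD hvD 1) * MvPolynomial.aeval z (T (MvPolynomial.X 1)) =
      ∑ s : tau u v D, α s * MvPolynomial.aeval z (T (mon s)) := by
  classical
  set b0 := lin hu hv huD hvD 0 with hb0
  set b1 := lin hu hv huD hvD 1 with hb1
  have hne : b0 ≠ b1 := lin_ne hu hv huD hvD
  rw [map_sum]
  have h1 : ∀ s : tau u v D, evA (pt hu hv huD hvD α z) (if s = b0 ∨ s = b1 then 0 else
      MvPolynomial.X s * MvPolynomial.rename (lin hu hv huD hvD) (T (mon s))) =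
      α s * MvPolynomial.aeval z (T (mon s)) -
        (if s = b0 then α b0 * MvPolynomial.aeval z (T (MvPolynomial.X 0)) else 0) -
        (if s = b1 then α b1 * MvPolynomial.aeval z (T (MvPolynomial.X 1)) else 0) := by
    intro s
    by_cases h0 : s = b0
    · have h1' : s ≠ b1 := by rw [h0]; exact hne
      rw [if_pos (Or.inl h0), if_pos h0, if_neg h1', map_zero, h0, hb0, mon_lin]
      ring
    · by_cases h1 : s = b1
      · rw [if_pos (Or.inr h1), if_neg h0, if_pos h1, map_zero, h1, hb1, mon_lin]
        ring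
      · rw [if_neg (by tauto), if_neg h0, if_neg h1, map_mul, evA_X, evA_rename]
        have : pt hu hv huD hvD α z s = α s := by
          unfold pt
          rw [if_neg h0, if_neg h1]
        rw [this]
        ring
  rw [Finset.sum_congr rfl (fun s _ => h1 s), Finset.sum_sub_distrib, Finset.sum_sub_distrib,
    Finset.sum_ite_eq' Finset.univ b0, Finset.sum_ite_eq' Finset.univ b1,
    if_pos (Finset.mem_univ _), if_pos (Finset.mem_univ _)]
  ring

lemma lin_injective : Function.Injective (lin hu hv huD hvD) := by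
  intro i j h
  by_contra hne
  fin_cases i <;> fin_cases j
  · exact hne rfl
  · exact lin_ne hu hv huD hvD h
  · exact lin_ne hu hv huD hvD h.symm
  · exact hne rfl

lemma Gd_eq (i : Fin 2) : Gd (lin hu hv huD hvD) mon i =
    ∑ s : tau u v D, if s = lin hu hv huD hvD 0 ∨ s = lin hu hv huD hvD 1 then 0 else
      MvPolynomial.X s * MvPolynomial.rename (lin hu hv huD hvD)
        (MvPolynomial.pderiv i (mon s)) := by
  unfold Gd G
  rw [map_sum]
  apply Finset.sum_congr rfl
  intro s _
  split_ifs with h
  · exact map_zero _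
  · push Not at h
    rw [Derivation.leibniz, smul_eq_mul, smul_eq_mul,
      MvPolynomial.pderiv_rename (lin_injective hu hv huD hvD), MvPolynomial.pderiv_X_of_ne,
      mul_zero, add_zero]
    fin_cases i
    · exact h.1
    · exact h.2

lemma Gdd_eq (i j : Fin 2) : Gdd (lin hu hv huD hvD) mon i j =
    ∑ s : tau u v D, if s = lin hu hv huD hvD 0 ∨ s = lin hu hv huD hvD 1 then 0 else
      MvPolynomial.X s * MvPolynomial.rename (lin hu hv huD hvD)
        (MvPolynomial.pderiv j (MvPolynomial.pderiv i (mon s))) := by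
  unfold Gdd
  rw [Gd_eq, map_sum]
  apply Finset.sum_congr rfl
  intro s _
  split_ifs with h
  · exact map_zero _
  · push Not at h
    rw [Derivation.leibniz, smul_eq_mul, smul_eq_mul,
      MvPolynomial.pderiv_rename (lin_injective hu hv huD hvD), MvPolynomial.pderiv_X_of_ne,
      mul_zero, add_zero]
    fin_cases j
    · exact h.1
    · exact h.2

/-- Restriction of a coefficient vector to the exponents different from `(0, 0)`. -/
def res {A : Type*} (a : full u v D → A) (s : tau u v D) : A := a s.1

lemma curve_eq (a : full u v D → ℤ) : curve a = MvPolynomial.C (a (origin u v D)) +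
    ∑ s : tau u v D, MvPolynomial.C (res a s) * mon s := by
  unfold curve
  rw [Fintype.sum_eq_add_sum_subtype_ne _ (origin u v D)]
  congr 1
  · unfold origin
    simp
  · apply Finset.sum_congr rfl
    intro s _
    unfold res mon
    ring

variable (a : full u v D → ℤ)

/-- The reduction of the restricted coefficient vector. -/
def redK (K : Type) [Field K] (a : full u v D → ℤ) (s : tau u v D) : K := ((res a s : ℤ) : K)

omit hu hv huD hvD in
lemma algebraMap_res (a : full u v D → ℤ) (s : tau u v D) :
    algebraMap ℤ K (res a s) = redK K a s := by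
  rw [eq_intCast]
  rfl

lemma aeval_curve_pt : MvPolynomial.aeval z (curve a) = (a (origin u v D) : K) +
    redK K a (lin hu hv huD hvD 0) * z 0 + redK K a (lin hu hv huD hvD 1) * z 1 +
    evA (pt hu hv huD hvD (redK K a) z) (G (lin hu hv huD hvD) mon) := by
  have h := evA_sum hu hv huD hvD (redK K a) z id
  simp only [id] at h
  unfold G
  rw [curve_eq, map_add, map_sum, MvPolynomial.aeval_C]
  have h2 : ∀ s : tau u v D, MvPolynomial.aeval z (MvPolynomial.C (res a s) * mon s) =
      redK K a s * MvPolynomial.aeval z (mon s) := by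
    intro s
    rw [map_mul, MvPolynomial.aeval_C, algebraMap_res]
  rw [Finset.sum_congr rfl (fun s _ => h2 s), ← h, MvPolynomial.aeval_X, MvPolynomial.aeval_X]
  simp only [eq_intCast]
  ring

lemma aeval_pderiv_pt (i : Fin 2) : MvPolynomial.aeval z (MvPolynomial.pderiv i (curve a)) =
    redK K a (lin hu hv huD hvD i) +
    evA (pt hu hv huD hvD (redK K a) z) (Gd (lin hu hv huD hvD) mon i) := by
  have h := evA_sum hu hv huD hvD (redK K a) z (MvPolynomial.pderiv i)
  rw [Gd_eq, curve_eq, map_add, map_sum, MvPolynomial.pderiv_C, zero_add, map_sum]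
  have h2 : ∀ s : tau u v D, MvPolynomial.aeval z (MvPolynomial.pderiv i
      (MvPolynomial.C (res a s) * mon s)) =
      redK K a s * MvPolynomial.aeval z (MvPolynomial.pderiv i (mon s)) := by
    intro s
    rw [MvPolynomial.pderiv_C_mul, map_mul, MvPolynomial.aeval_C, algebraMap_res]
  rw [Finset.sum_congr rfl (fun s _ => h2 s), ← h]
  fin_cases i
  · simp
    ring
  · simp
    ring

lemma aeval_pderiv2_pt (i j : Fin 2) :
    MvPolynomial.aeval z (MvPolynomial.pderiv j (MvPolynomial.pderiv i (curve a))) =
    evA (pt hu hv huD hvD (redK K a) z) (Gdd (lin hu hv huD hvD) mon i j) := by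
  have h := evA_sum hu hv huD hvD (redK K a) z
    (fun Q => MvPolynomial.pderiv j (MvPolynomial.pderiv i Q))
  rw [Gdd_eq, curve_eq, map_add, map_sum, MvPolynomial.pderiv_C, zero_add, map_sum, map_sum]
  have h2 : ∀ s : tau u v D, MvPolynomial.aeval z (MvPolynomial.pderiv j (MvPolynomial.pderiv i
      (MvPolynomial.C (res a s) * mon s))) =
      redK K a s * MvPolynomial.aeval z (MvPolynomial.pderiv j (MvPolynomial.pderiv i (mon s))) := by
    intro s
    rw [MvPolynomial.pderiv_C_mul, MvPolynomial.pderiv_C_mul, map_mul, MvPolynomial.aeval_C,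
      algebraMap_res]
  rw [Finset.sum_congr rfl (fun s _ => h2 s), ← h]
  have h3 : ∀ k : Fin 2, MvPolynomial.pderiv j (MvPolynomial.pderiv i
      (MvPolynomial.X k : MvPolynomial (Fin 2) ℤ)) = 0 := by
    intro k
    rw [MvPolynomial.pderiv_X]
    by_cases hk : k = i
    · rw [hk, Pi.single_eq_same]
      exact MvPolynomial.pderiv_one
    · rw [Pi.single_eq_of_ne hk]
      exact map_zero _
  rw [h3, h3]
  simp

/-- Singular points are critical points of the universal family. -/
lemma singular_iff : Singular (curve a) z ↔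
    IsCrit (lin hu hv huD hvD) mon (redK K a) (pt hu hv huD hvD (redK K a) z)
      (-(a (origin u v D) : K)) := by
  have e0 := aeval_curve_pt hu hv huD hvD z a
  have e1 := aeval_pderiv_pt hu hv huD hvD z a 0
  have e2 := aeval_pderiv_pt hu hv huD hvD z a 1
  have hv' : evA (pt hu hv huD hvD (redK K a) z) (vcrit (lin hu hv huD hvD) mon) =
      evA (pt hu hv huD hvD (redK K a) z) (G (lin hu hv huD hvD) mon) -
      z 0 * evA (pt hu hv huD hvD (redK K a) z) (Gd (lin hu hv huD hvD) mon 0) -
      z 1 * evA (pt hu hv huD hvD (redK K a) z) (Gd (lin hu hv huD hvD) mon 1) := by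
    unfold vcrit
    rw [map_sub, map_sub, map_mul, map_mul, evA_X, evA_X, pt_lin, pt_lin]
  unfold Singular IsCrit
  constructor
  · rintro ⟨h0, h1, h2⟩
    rw [e0] at h0
    rw [e1] at h1
    rw [e2] at h2
    refine ⟨?_, ?_, ?_, ?_⟩
    · intro s hs0 hs1
      unfold pt
      rw [if_neg hs0, if_neg hs1]
    · linear_combination h1
    · linear_combination h2
    · rw [hv']
      linear_combination h0 - z 0 * h1 - z 1 * h2
  · rintro ⟨_, h1, h2, h3⟩
    rw [hv'] at h3
    refine ⟨?_, ?_, ?_⟩
    · rw [e0]
      linear_combination h3 + z 0 * h1 + z 1 * h2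
    · rw [e1]
      linear_combination h1
    · rw [e2]
      linear_combination h2

/-- Every critical point comes from a point of the plane. -/
lemma crit_eq_pt {p : tau u v D → K} {t : K}
    (h : IsCrit (lin hu hv huD hvD) mon (redK K a) p t) :
    p = pt hu hv huD hvD (redK K a) (fun i => p (lin hu hv huD hvD i)) := by
  funext s
  unfold pt
  split_ifs with h0 h1
  · rw [h0]
  · rw [h1]
  · exact h.1 s h0 h1

/-- The Hessian of the universal family is not zero. -/
lemma hess_ne_zero (hu2 : 2 * u ≤ D) (hv2 : 2 * v ≤ D) :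
    hess (lin hu hv huD hvD) (mon : tau u v D → _) ≠ 0 := by
  classical
  intro h0
  -- coefficient vector with the squares
  set α : tau u v D → ℚ := fun s => if s.1.1 = (2, 0) ∨ s.1.1 = (0, 2) then 1 else 0 with hα
  have hmem20 : ((2, 0) : ℕ × ℕ) ∈ full u v D := (mem_full hu hv).mpr (by simp; omega)
  have hmem02 : ((0, 2) : ℕ × ℕ) ∈ full u v D := (mem_full hu hv).mpr (by simp; omega)
  have hT : ∀ i j : Fin 2, evA (pt hu hv huD hvD α (fun _ => (0 : ℚ)))
      (Gdd (lin hu hv huD hvD) mon i j) = ∑ s : tau u v D, α s *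
        MvPolynomial.aeval (fun _ => (0 : ℚ)) (MvPolynomial.pderiv j
          (MvPolynomial.pderiv i (mon s))) := by
    intro i j
    have h := evA_sum hu hv huD hvD α (fun _ => (0 : ℚ))
      (fun Q => MvPolynomial.pderiv j (MvPolynomial.pderiv i Q))
    have h3 : ∀ k : Fin 2, MvPolynomial.pderiv j (MvPolynomial.pderiv i
        (MvPolynomial.X k : MvPolynomial (Fin 2) ℤ)) = 0 := by
      intro k
      rw [MvPolynomial.pderiv_X]
      by_cases hk : k = i
      · rw [hk, Pi.single_eq_same]
        exact MvPolynomial.pderiv_one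
      · rw [Pi.single_eq_of_ne hk]
        exact map_zero _
    rw [h3, h3, map_zero, mul_zero, mul_zero, add_zero, add_zero] at h
    rw [Gdd_eq]
    exact h
  set s20 : tau u v D := ⟨⟨(2, 0), hmem20⟩, by
    unfold origin
    intro h
    have := congrArg (fun s : full u v D => s.1.1) h
    simp at this⟩ with hs20
  set s02 : tau u v D := ⟨⟨(0, 2), hmem02⟩, by
    unfold origin
    intro h
    have := congrArg (fun s : full u v D => s.1.2) h
    simp at this⟩ with hs02
  have hne : s20 ≠ s02 := by
    intro h
    have := congrArg (fun s : tau u v D => s.1.1.1) h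
    simp [hs20, hs02] at this
  have hsum : ∀ φ : tau u v D → ℚ, ∑ s : tau u v D, α s * φ s = φ s20 + φ s02 := by
    intro φ
    rw [Finset.sum_eq_add s20 s02 hne]
    · simp [hα, hs20, hs02]
    · intro s _ hs
      have h1 : s.1.1 ≠ (2, 0) := fun h => hs.1 (Subtype.ext (Subtype.ext h))
      have h2 : s.1.1 ≠ (0, 2) := fun h => hs.2 (Subtype.ext (Subtype.ext h))
      simp [hα, h1, h2]
    · intro h
      exact absurd (Finset.mem_univ _) h
    · intro h
      exact absurd (Finset.mem_univ _) h
  have h1 := congrArg (evA (pt hu hv huD hvD α (fun _ => (0 : ℚ)))) h0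
  unfold hess at h1
  rw [map_sub, map_mul, map_mul, hT, hT, hT, hsum, hsum, hsum, map_zero] at h1
  have m20 : (mon s20 : MvPolynomial (Fin 2) ℤ) = MvPolynomial.X 0 ^ 2 := by
    simp [mon, hs20]
  have m02 : (mon s02 : MvPolynomial (Fin 2) ℤ) = MvPolynomial.X 1 ^ 2 := by
    simp [mon, hs02]
  rw [m20, m02] at h1
  simp [Derivation.leibniz_pow] at h1
  rw [map_ofNat] at h1
  norm_num at h1

end lemmas

end Pool.Agent.Helper90Frey
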