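import Pool.Agent.Helper90_Frey.Horner
import Pool.Agent.Helper90_Frey.Disc

/-!
# The integrals in the Gram matrix converge
-/

namespace Pool.Agent.Helper90Frey

open Filter Topology MeasureTheory ComplexConjugate Asymptotics

variable {u v D : ℕ}

/-- The complex coefficient vector. -/
noncomputable def toC (a : full u v D → ℤ) : full u v D → ℂ := fun s => (a s : ℂ)

lemma map_curve (a : full u v D → ℤ) :
    MvPolynomial.map (Int.castRingHom ℂ) (curve a) = cpoly (toC a) := by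
  unfold curve cpoly toC
  simp

lemma aeval_eq_val (G : MvPolynomial (Fin 2) ℤ) (x y : ℂ) :
    MvPolynomial.aeval ![x, y] G = val (MvPolynomial.map (Int.castRingHom ℂ) G) x y := by
  unfold val
  rw [MvPolynomial.eval_map, MvPolynomial.aeval_def]
  rfl

lemma aeval_curve (a : full u v D → ℤ) (x y : ℂ) :
    MvPolynomial.aeval ![x, y] (curve a) = val (cpoly (toC a)) x y := by
  rw [aeval_eq_val, map_curve]

lemma aeval_pderiv_curve (a : full u v D → ℤ) (i : Fin 2) (x y : ℂ) :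
    MvPolynomial.aeval ![x, y] (MvPolynomial.pderiv i (curve a)) =
      val (MvPolynomial.pderiv i (cpoly (toC a))) x y := by
  rw [aeval_eq_val, ← MvPolynomial.pderiv_map, map_curve]

lemma map_edge (a : full u v D → ℤ) :
    (edge a).map (Int.castRingHom ℂ) = cedge (toC a) := by
  unfold edge cedge toC
  rw [Polynomial.map_sum]
  apply Finset.sum_congr rfl
  intro s _
  split_ifs
  · simp
  · simp

/-- The numerator of the kernel. -/
noncomputable def num (s t : ℕ × ℕ) (z : ℂ × ℂ) : ℂ :=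
  z.1 ^ s.1 * z.2 ^ s.2 * starRingEnd ℂ (z.1 ^ t.1 * z.2 ^ t.2)

lemma continuous_num (s t : ℕ × ℕ) : Continuous (num s t) := by
  unfold num
  fun_prop

lemma kernel_eq (hu : 0 < u) (hv : 0 < v) (hvD : v ∣ D) (a : full u v D → ℤ)
    (hA : toC a (topexp hv hvD) ≠ 0) (s t : ℕ × ℕ) (x : ℂ) :
    kernel (curve a) s t x = ksum (cpoly (toC a)) (num s t) x := by
  have hL := lead_cpoly hu hv hvD (toC a) hA
  unfold kernel ksum num
  have hset : {y : ℂ | MvPolynomial.aeval ![x, y] (curve a) = 0} =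
      ((rts (cpoly (toC a)) x : Finset ℂ) : Set ℂ) := by
    ext y
    rw [Set.mem_ofPred_eq, Finset.mem_coe, hL.mem_rts, aeval_curve]
  rw [hset, finsum_mem_coe_finset]
  apply Finset.sum_congr rfl
  intro y _
  rw [aeval_pderiv_curve]

/-- The hypotheses on the curve. -/
structure GoodCurve (hv : 0 < v) (hvD : v ∣ D) (a : full u v D → ℤ) : Prop where
  top : toC a (topexp hv hvD) ≠ 0
  sep : ∀ y, (cedge (toC a)).eval y = 0 → (Polynomial.derivative (cedge (toC a))).eval y ≠ 0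
  smooth : Smooth (cpoly (toC a))

lemma norm_num_le (s t : hol u v D) {lam K : ℝ} (hlam : 1 ≤ lam) (hK : 1 ≤ K) {x y : ℂ}
    (hx : ‖x‖ = lam ^ u) (hy : ‖y‖ ≤ K * lam ^ v) :
    ‖num s.1 t.1 (x, y)‖ * (lam ^ (u + 1)) ^ 2 ≤ (K ^ D) ^ 2 * (lam ^ (D - v)) ^ 2 := by
  have h1 : ∀ s : hol u v D, ‖x ^ s.1.1 * y ^ s.1.2‖ * lam ^ (u + 1) ≤ K ^ D * lam ^ (D - v) := by
    intro s
    have hs := hol_lt s
    have hs2 : s.1.2 ≤ D := by
      have h3 := (Finset.mem_filter.mp s.2).1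
      rw [Finset.mem_product, Finset.mem_range, Finset.mem_range] at h3
      omega
    rw [norm_mul, norm_pow, norm_pow, hx]
    calc (lam ^ u) ^ s.1.1 * ‖y‖ ^ s.1.2 * lam ^ (u + 1)
        ≤ (lam ^ u) ^ s.1.1 * (K * lam ^ v) ^ s.1.2 * lam ^ (u + 1) := by gcongr
      _ = K ^ s.1.2 * lam ^ (u * s.1.1 + v * s.1.2 + (u + 1)) := by
          rw [mul_pow, ← pow_mul, ← pow_mul, pow_add, pow_add]
          ring
      _ ≤ K ^ D * lam ^ (D - v) := by
          have e1 : K ^ s.1.2 ≤ K ^ D := pow_le_pow_right₀ hK hs2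
          have e2 : lam ^ (u * s.1.1 + v * s.1.2 + (u + 1)) ≤ lam ^ (D - v) := by
            apply pow_le_pow_right₀ hlam
            have e3 : u * (s.1.1 + 1) = u * s.1.1 + u := by ring
            have e4 : v * (s.1.2 + 1) = v * s.1.2 + v := by ring
            omega
          gcongr
  have h2 := h1 s
  have h3 := h1 t
  unfold num
  rw [norm_mul, RCLike.norm_conj]
  calc ‖x ^ s.1.1 * y ^ s.1.2‖ * ‖x ^ t.1.1 * y ^ t.1.2‖ * (lam ^ (u + 1)) ^ 2
      = (‖x ^ s.1.1 * y ^ s.1.2‖ * lam ^ (u + 1)) * (‖x ^ t.1.1 * y ^ t.1.2‖ * lam ^ (u + 1)) := by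
        ring
    _ ≤ (K ^ D * lam ^ (D - v)) * (K ^ D * lam ^ (D - v)) := by gcongr
    _ = _ := by ring

/-- The kernels are integrable. -/
theorem GoodCurve.integrable (hu : 0 < u) (hv : 0 < v) (hvD : v ∣ D) (hD : v < D)
    {a : full u v D → ℤ} (h : GoodCurve hv hvD a) (s t : hol u v D) :
    Integrable (ksum (cpoly (toC a)) (num s.1 t.1)) := by
  have hL := lead_cpoly hu hv hvD (toC a) h.top
  have he : 0 < D / v := Nat.div_pos (Nat.le_of_dvd (by omega) hvD) hv
  have hloc := hL.locallyIntegrable he h.smooth (continuous_num s.1 t.1)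
  obtain ⟨c, K, R, hc, hK, hR, hinf⟩ := infinity_bounds hu hv hvD hD (toC a) h.top h.sep
  have huR : (0 : ℝ) < u := by exact_mod_cast hu
  set r : ℝ := 2 * ((u : ℝ) + 1) / u with hr
  have hr2 : 2 < r := by
    rw [hr, lt_div_iff₀ huR]
    linarith
  have hO : (ksum (cpoly (toC a)) (num s.1 t.1)) =O[cocompact ℂ]
      (fun z : ℂ => (1 + ‖z‖) ^ (-r)) := by
    apply IsBigO.of_bound ((D / v : ℕ) * ((K ^ D) ^ 2 / c ^ 2 * 2 ^ r))
    have hev : ∀ᶠ z : ℂ in cocompact ℂ, R ^ u ≤ ‖z‖ :=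
      tendsto_norm_cocompact_atTop.eventually (eventually_ge_atTop (R ^ u))
    filter_upwards [hev] with x hx
    have hx1 : 1 ≤ ‖x‖ := (one_le_pow₀ hR).trans hx
    have hx0 : 0 < ‖x‖ := by linarith
    set lam : ℝ := ‖x‖ ^ (1 / (u : ℝ)) with hlam
    have hlam0 : 0 < lam := by positivity
    have hlamu : ‖x‖ = lam ^ u := by
      rw [hlam, ← Real.rpow_natCast, ← Real.rpow_mul hx0.le, one_div_mul_cancel huR.ne',
        Real.rpow_one]
    have hRlam : R ≤ lam := by
      by_contra hcon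
      push Not at hcon
      have : lam ^ u < R ^ u := pow_lt_pow_left₀ hcon hlam0.le hu.ne'
      rw [← hlamu] at this
      linarith
    have hlam1 : 1 ≤ lam := hR.trans hRlam
    have hlamr : (lam ^ (u + 1)) ^ 2 = ‖x‖ ^ r := by
      rw [hlamu, ← pow_mul, ← Real.rpow_natCast, ← Real.rpow_natCast lam u,
        ← Real.rpow_mul hlam0.le]
      congr 1
      rw [hr]
      push_cast
      field_simp
    have hterm : ∀ y ∈ rts (cpoly (toC a)) x, ‖num s.1 t.1 (x, y) /
        ((‖val (MvPolynomial.pderiv 1 (cpoly (toC a))) x y‖ ^ 2 : ℝ) : ℂ)‖ ≤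
        (K ^ D) ^ 2 / c ^ 2 * 2 ^ r * (1 + ‖x‖) ^ (-r) := by
      intro y hy
      obtain ⟨h1, h2⟩ := hinf lam hRlam x y hlamu (hL.mem_rts.mp hy)
      have h3 := norm_num_le s t hlam1 hK hlamu h1
      rw [norm_div, Complex.norm_real, Real.norm_eq_abs, abs_of_nonneg (by positivity)]
      have hp : 0 < c * lam ^ (D - v) := by positivity
      have h4 : ‖num s.1 t.1 (x, y)‖ ≤ (K ^ D) ^ 2 * (lam ^ (D - v)) ^ 2 / ‖x‖ ^ r := by
        rw [le_div_iff₀ (by positivity), ← hlamr]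
        exact h3
      have h5 : (1 + ‖x‖) ^ r ≤ 2 ^ r * ‖x‖ ^ r := by
        rw [← Real.mul_rpow (by norm_num) hx0.le]
        apply Real.rpow_le_rpow (by positivity) (by linarith) (by linarith)
      have h6 : 1 / ‖x‖ ^ r ≤ 2 ^ r * (1 + ‖x‖) ^ (-r) := by
        rw [Real.rpow_neg (by positivity), ← div_eq_mul_inv, div_le_div_iff₀ (by positivity)
          (by positivity)]
        linarith
      calc ‖num s.1 t.1 (x, y)‖ / ‖val (MvPolynomial.pderiv 1 (cpoly (toC a))) x y‖ ^ 2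
          ≤ ((K ^ D) ^ 2 * (lam ^ (D - v)) ^ 2 / ‖x‖ ^ r) / (c * lam ^ (D - v)) ^ 2 := by
            gcongr
        _ = (K ^ D) ^ 2 / c ^ 2 * (1 / ‖x‖ ^ r) := by
            field_simp
        _ ≤ (K ^ D) ^ 2 / c ^ 2 * (2 ^ r * (1 + ‖x‖) ^ (-r)) := by gcongr
        _ = _ := by ring
    unfold ksum
    refine (norm_sum_le _ _).trans ((Finset.sum_le_sum hterm).trans ?_)
    rw [Finset.sum_const, nsmul_eq_mul, Real.norm_eq_abs, abs_of_nonneg (by positivity)]
    have h7 : ((rts (cpoly (toC a)) x).card : ℝ) ≤ ((D / v : ℕ) : ℝ) := by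
      exact_mod_cast hL.card_rts_le x
    calc ((rts (cpoly (toC a)) x).card : ℝ) * ((K ^ D) ^ 2 / c ^ 2 * 2 ^ r * (1 + ‖x‖) ^ (-r))
        ≤ ((D / v : ℕ) : ℝ) * ((K ^ D) ^ 2 / c ^ 2 * 2 ^ r * (1 + ‖x‖) ^ (-r)) := by gcongr
      _ = _ := by ring
  apply hloc.integrable_of_isBigO_cocompact hO
  have := integrable_one_add_norm (E := ℂ) (μ := volume) (r := r) (by
    rw [Complex.finrank_real_complex]
    exact_mod_cast hr2)
  exact this.integrableAtFilter _

end Pool.Agent.Helper90Frey
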