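import Pool.Agent.Helper90_Frey.Deg
import Pool.Agent.Helper90_Frey.Integ

/-!
# The node primes of the members of the family
-/

namespace Pool.Agent.Helper90Frey

open Polynomial Helper5Frey

variable {u v D : ℕ}

/-- The edge polynomial over a commutative ring. -/
noncomputable def edgeA {A : Type*} [CommRing A] (α : tau u v D → A) : A[X] :=
  ∑ s : tau u v D, if u * s.1.1.1 + v * s.1.1.2 = D then C (α s) * X ^ s.1.1.2 else 0

lemma edgeA_map {A B : Type*} [CommRing A] [CommRing B] (φ : A →+* B) (α : tau u v D → A) :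
    (edgeA α).map φ = edgeA (fun s => φ (α s)) := by
  unfold edgeA
  rw [Polynomial.map_sum]
  apply Finset.sum_congr rfl
  intro s _
  split_ifs
  · simp
  · simp

lemma edge_eq (hD : 0 < D) (a : full u v D → ℤ) : edge a = edgeA (res a) := by
  unfold edge edgeA
  rw [Fintype.sum_eq_add_sum_subtype_ne _ (origin u v D)]
  have h1 : ¬ (u * (origin u v D).1.1 + v * (origin u v D).1.2 = D) := by
    unfold origin
    simp
    omega
  rw [if_neg h1, zero_add]
  rfl

lemma edgeA_natDegree_le {A : Type*} [CommRing A] (hv : 0 < v) (α : tau u v D → A) :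
    (edgeA α).natDegree ≤ D / v := by
  unfold edgeA
  apply natDegree_sum_le_of_forall_le
  intro s _
  split_ifs
  · exact (natDegree_C_mul_X_pow_le _ _).trans (snd_le hv s.1)
  · simp

/-- The exponent `(0, D / v)` in `tau`. -/
def topT (hv : 0 < v) (hvD : v ∣ D) (hD : v ≤ D) : tau u v D :=
  ⟨topexp hv hvD, by
    intro h
    have := congrArg (fun s : full u v D => s.1.2) h
    unfold topexp origin at this
    simp only at this
    have h2 : 0 < D / v := Nat.div_pos hD hv
    omega⟩

/-- The exponent `(D / u, 0)`. -/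
def rightexp (hu : 0 < u) (hv : 0 < v) (huD : u ∣ D) : full u v D :=
  ⟨(D / u, 0), (mem_full hu hv).mpr (by
    have := Nat.mul_div_cancel' huD
    simp only [mul_zero, add_zero]
    omega)⟩

/-- The exponent `(D / u, 0)` in `tau`. -/
def rightT (hu : 0 < u) (hv : 0 < v) (huD : u ∣ D) (hD : u ≤ D) : tau u v D :=
  ⟨rightexp hu hv huD, by
    intro h
    have := congrArg (fun s : full u v D => s.1.1) h
    unfold rightexp origin at this
    simp only at this
    have h2 : 0 < D / u := Nat.div_pos hD hu
    omega⟩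

lemma edgeA_coeff_top {A : Type*} [CommRing A] (hu : 0 < u) (hv : 0 < v) (hvD : v ∣ D)
    (hD : v ≤ D) (α : tau u v D → A) : (edgeA α).coeff (D / v) = α (topT hv hvD hD) := by
  unfold edgeA
  rw [finsetSum_coeff, Finset.sum_eq_single (topT hv hvD hD)]
  · have h1 : u * (topT hv hvD hD : tau u v D).1.1.1 + v * (topT hv hvD hD : tau u v D).1.1.2 = D := by
      show u * 0 + v * (D / v) = D
      rw [mul_zero, zero_add, Nat.mul_div_cancel' hvD]
    rw [if_pos h1]
    have h2 : (topT hv hvD hD : tau u v D).1.1.2 = D / v := rfl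
    rw [h2, coeff_C_mul_X_pow, if_pos rfl]
  · intro s _ hs
    split_ifs with h
    · rw [coeff_C_mul_X_pow, if_neg]
      intro h2
      exact hs (Subtype.ext (eq_topexp hu hv hvD s.1 h2.symm))
    · simp
  · intro h
    exact absurd (Finset.mem_univ _) h

lemma edgeA_coeff_zero {A : Type*} [CommRing A] (hu : 0 < u) (hv : 0 < v) (huD : u ∣ D)
    (hD : u ≤ D) (α : tau u v D → A) : (edgeA α).coeff 0 = α (rightT hu hv huD hD) := by
  unfold edgeA
  rw [finsetSum_coeff, Finset.sum_eq_single (rightT hu hv huD hD)]
  · have h1 : u * (rightT hu hv huD hD : tau u v D).1.1.1 +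
        v * (rightT hu hv huD hD : tau u v D).1.1.2 = D := by
      show u * (D / u) + v * 0 = D
      rw [mul_zero, add_zero, Nat.mul_div_cancel' huD]
    rw [if_pos h1]
    have h2 : (rightT hu hv huD hD : tau u v D).1.1.2 = 0 := rfl
    rw [h2, coeff_C_mul_X_pow, if_pos rfl]
  · intro s _ hs
    split_ifs with h
    · rw [coeff_C_mul_X_pow, if_neg]
      intro h2
      apply hs
      apply Subtype.ext
      apply Subtype.ext
      apply Prod.ext
      · show s.1.1.1 = D / u
        rw [← h2, mul_zero, add_zero] at h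
        exact (Nat.div_eq_of_eq_mul_right hu h.symm).symm
      · exact h2.symm
    · simp
  · intro h
    exact absurd (Finset.mem_univ _) h

/-- The discriminant of the edge polynomial. -/
noncomputable def edisc {A : Type*} [CommRing A] (α : tau u v D → A) : A :=
  resultant (edgeA α) (derivative (edgeA α)) (D / v) (D / v - 1)

lemma edisc_map {A B : Type*} [CommRing A] [CommRing B] (φ : A →+* B) (α : tau u v D → A) :
    φ (edisc α) = edisc (fun s => φ (α s)) := by
  unfold edisc
  rw [← resultant_map_map, ← edgeA_map, derivative_map]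

lemma edgeA_separable {K : Type*} [Field K] (hv : 0 < v) (hD : v ≤ D)
    (α : tau u v D → K) (h : edisc α ≠ 0) : (edgeA α).Separable := by
  have hpos : 0 < D / v := Nat.div_pos hD hv
  have hle := edgeA_natDegree_le (D := D) hv α
  have hder : (derivative (edgeA α)).natDegree ≤ D / v - 1 :=
    (natDegree_derivative_le _).trans (by omega)
  obtain ⟨p, q, _, _, hpq⟩ := exists_mul_add_mul_eq_C_resultant (m := D / v) (n := D / v - 1)
    (edgeA α) (derivative (edgeA α)) hle hder (Or.inl (by omega))
  change edgeA α * p + derivative (edgeA α) * q = C (edisc α) at hpq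
  refine ⟨C (edisc α)⁻¹ * p, C (edisc α)⁻¹ * q, ?_⟩
  calc C (edisc α)⁻¹ * p * edgeA α + C (edisc α)⁻¹ * q * derivative (edgeA α)
      = C (edisc α)⁻¹ * (edgeA α * p + derivative (edgeA α) * q) := by ring
    _ = 1 := by
        rw [hpq, ← C_mul, inv_mul_cancel₀ h, C_1]

lemma edisc_X_ne_zero (hu : 0 < u) (hv : 0 < v) (huD : u ∣ D) (hvD : v ∣ D) (hDu : u ≤ D)
    (hDv : v ≤ D) : edisc (MvPolynomial.X : tau u v D → MvPolynomial (tau u v D) ℤ) ≠ 0 := by
  classical
  intro h0
  set e := D / v with he
  have hpos : 0 < e := Nat.div_pos hDv hv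
  have hposu : 0 < D / u := Nat.div_pos hDu hu
  set t := topT (u := u) hv hvD hDv with ht
  set r := rightT hu hv huD hDu with hr
  have hne : t ≠ r := by
    intro h
    have := congrArg (fun s : tau u v D => s.1.1.1) h
    have h1 : t.1.1.1 = 0 := rfl
    have h2 : r.1.1.1 = D / u := rfl
    simp only [h1, h2] at this
    omega
  set α : tau u v D → ℚ := fun s => if s = t then 1 else if s = r then -1 else 0 with hα
  have h1 := congrArg (evA α) h0
  rw [edisc_map, map_zero] at h1
  have h2 : (fun s : tau u v D => evA α (MvPolynomial.X s)) = α := by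
    funext s
    exact evA_X α s
  rw [h2] at h1
  have h3 : edgeA α = X ^ e - C 1 := by
    unfold edgeA
    rw [Finset.sum_eq_add t r hne]
    · have e1 : u * t.1.1.1 + v * t.1.1.2 = D := by
        show u * 0 + v * (D / v) = D
        rw [mul_zero, zero_add, Nat.mul_div_cancel' hvD]
      have e2 : u * r.1.1.1 + v * r.1.1.2 = D := by
        show u * (D / u) + v * 0 = D
        rw [mul_zero, add_zero, Nat.mul_div_cancel' huD]
      rw [if_pos e1, if_pos e2]
      have e3 : α t = 1 := by simp [hα]
      have e4 : α r = -1 := by simp [hα, hne.symm]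
      have e5 : t.1.1.2 = e := rfl
      have e6 : r.1.1.2 = 0 := rfl
      rw [e3, e4, e5, e6]
      simp
      ring
    · intro s _ hs
      have : α s = 0 := by simp [hα, hs.1, hs.2]
      rw [this]
      simp
    · intro h
      exact absurd (Finset.mem_univ _) h
    · intro h
      exact absurd (Finset.mem_univ _) h
  have h4 : (X ^ e - C (1 : ℚ)).Separable :=
    separable_X_pow_sub_C 1 (by exact_mod_cast hpos.ne') one_ne_zero
  have h5 : (X ^ e - C (1 : ℚ)).natDegree = e := natDegree_X_pow_sub_C
  have h6 : (derivative (X ^ e - C (1 : ℚ))).natDegree = e - 1 := by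
    rw [derivative_sub, derivative_X_pow, derivative_C, sub_zero]
    exact natDegree_C_mul_X_pow _ _ (by exact_mod_cast hpos.ne')
  unfold edisc at h1
  rw [h3] at h1
  have h7 := resultant_ne_zero _ _ h4
  rw [h5, h6] at h7
  exact h7 h1

/-- The casts of the specialized polynomials. -/
lemma evA_redK (K : Type) [Field K] (a : full u v D → ℤ) (Q : MvPolynomial (tau u v D) ℤ) :
    evA (redK K a) Q = ((evA (res a) Q : ℤ) : K) := by
  have : evA (redK K a) = (Int.castRingHom K).comp (evA (res a)) := by
    apply MvPolynomial.ringHom_ext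
    · intro r
      simp [evA]
    · intro s
      rw [evA_X, RingHom.comp_apply, evA_X]
      rfl
  rw [this]
  rfl

lemma eval₂_redK (K : Type) [Field K] (a : full u v D → ℤ)
    (χ : (MvPolynomial (tau u v D) ℤ)[X]) (c : ℤ) :
    χ.eval₂ (evA (redK K a)) (c : K) = (((χ.map (evA (res a))).eval c : ℤ) : K) := by
  have : evA (redK K a) = (Int.castRingHom K).comp (evA (res a)) := by
    apply MvPolynomial.ringHom_ext
    · intro r
      simp [evA]
    · intro s
      rw [evA_X, RingHom.comp_apply, evA_X]
      rfl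
  rw [this, ← eq_intCast (Int.castRingHom K) ((χ.map (evA (res a))).eval c),
    ← eq_intCast (Int.castRingHom K) c, eval_map, hom_eval₂]

/-- Smoothness at infinity. -/
lemma smoothAtInfinity_of (K : Type) [Field K] (hu : 0 < u) (hv : 0 < v) (huD : u ∣ D)
    (hvD : v ∣ D) (hDu : u ≤ D) (hDv : v ≤ D) (a : full u v D → ℤ)
    (h1 : ((edisc (res a) : ℤ) : K) ≠ 0) (h2 : ((a (topexp hv hvD) : ℤ) : K) ≠ 0)
    (h3 : ((a (rightexp hu hv huD) : ℤ) : K) ≠ 0) : SmoothAtInfinity K a := by
  have hD0 : 0 < D := by omega
  have hmap : (edge a).map (Int.castRingHom K) = edgeA (redK K a) := by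
    rw [edge_eq hD0, edgeA_map]
    rfl
  have hdisc : edisc (redK K a) ≠ 0 := by
    have := edisc_map (Int.castRingHom K) (res a)
    rw [eq_intCast] at this
    change _ = edisc (redK K a) at this
    rwa [← this]
  unfold SmoothAtInfinity
  rw [hmap]
  refine ⟨?_, ?_, edgeA_separable hv hDv _ hdisc⟩
  · apply le_antisymm (edgeA_natDegree_le hv _)
    apply le_natDegree_of_ne_zero
    rw [edgeA_coeff_top hu hv hvD hDv]
    exact h2
  · rw [edgeA_coeff_zero hu hv huD hDu]
    exact h3

lemma three_le (huD : u ∣ D) (hvD : v ∣ D) (hu2 : 2 * u ≤ D) (hv2 : 2 * v ≤ D)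
    (hg : u + v < D) : (3 * u ≤ D ∧ 2 * v ≤ D) ∨ (2 * u ≤ D ∧ 3 * v ≤ D) := by
  obtain ⟨k, hk⟩ := huD
  obtain ⟨l, hl⟩ := hvD
  by_cases h3 : 3 * u ≤ D
  · exact Or.inl ⟨h3, hv2⟩
  · right
    refine ⟨hu2, ?_⟩
    have hk2 : k = 2 := by
      have h4 : k < 3 := by
        by_contra hcon
        apply h3
        rw [hk]
        nlinarith
      have h5 : 1 < k := by
        by_contra hcon
        have h6 : k = 0 ∨ k = 1 := by omega
        rcases h6 with h | h
        · rw [h] at hk
          omega
        · rw [h] at hk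
          omega
      omega
    have hl3 : 3 ≤ l := by
      by_contra hcon
      have h6 : l = 0 ∨ l = 1 ∨ l = 2 := by omega
      rcases h6 with h | h | h
      · rw [h] at hl
        omega
      · rw [h] at hl
        omega
      · rw [h] at hl
        rw [hk2] at hk
        omega
    rw [hl]
    nlinarith

lemma scale_bezout {A : Type*} [CommRing A] {χ U V : A[X]} {Δ : A}
    (h : U * χ + V * derivative χ = C Δ) (k l m : A) :
    ∃ U' V' : A[X], U' * χ + V' * derivative χ = C (Δ * k * l * m) := by
  refine ⟨C (k * l * m) * U, C (k * l * m) * V, ?_⟩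
  have h1 : C (Δ * k * l * m) = C (k * l * m) * C Δ := by
    rw [← C_mul]
    congr 1
    ring
  rw [h1, ← h]
  ring

/-- **The arithmetic of the family.** -/
theorem exists_family (hu : 0 < u) (hv : 0 < v) (huD : u ∣ D) (hvD : v ∣ D) (hg : u + v < D) :
    ∃ χ : (MvPolynomial (tau u v D) ℤ)[X], ∃ M : MvPolynomial (tau u v D) ℤ, M ≠ 0 ∧
      2 ≤ χ.natDegree ∧ χ.leadingCoeff ∣ M ∧
      (∃ U V : (MvPolynomial (tau u v D) ℤ)[X], U * χ + V * derivative χ = C M) ∧
      ∀ a : full u v D → ℤ, evA (res a) M ≠ 0 →
        (χ.map (evA (res a))).natDegree = χ.natDegree ∧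
        ((χ.map (evA (res a))).eval (-(a (origin u v D))) ≠ 0 →
          GoodCurve hv hvD a ∧ SmoothAtInfinity ℂ a ∧
          (∀ z : Fin 2 → ℂ, ¬ Singular (curve a) z) ∧ (nodePrimes a).Finite ∧
          partRad (evA (res a) M).natAbs
            ((χ.map (evA (res a))).eval (-(a (origin u v D)))).natAbs ≤ Nstar a) := by
  classical
  have hDu : u ≤ D := by omega
  have hDv : v ≤ D := by omega
  have hu2 : 2 * u ≤ D := by
    obtain ⟨k, hk⟩ := huD
    have : 2 ≤ k := by
      by_contra hcon
      have : k = 0 ∨ k = 1 := by omega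
      rcases this with h | h
      · rw [h] at hk
        omega
      · rw [h] at hk
        omega
    rw [hk]
    nlinarith
  have hv2 : 2 * v ≤ D := by
    obtain ⟨k, hk⟩ := hvD
    have : 2 ≤ k := by
      by_contra hcon
      have : k = 0 ∨ k = 1 := by omega
      rcases this with h | h
      · rw [h] at hk
        omega
      · rw [h] at hk
        omega
    rw [hk]
    nlinarith
  obtain ⟨χ, Δ, hΔ0, hdeg, hlcd, ⟨U, V, hUV⟩, hcrit, hspec⟩ :=
    exists_cert_point (lin hu hv hDu hDv)
    (mon : tau u v D → _) (lin_ne hu hv hDu hDv) (hess_ne_zero hu hv hDu hDv hu2 hv2)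
  have h23 := three_le huD hvD hu2 hv2 hg
  obtain ⟨p₁, p₂, hpne, hpeq, hp1, hp2⟩ := exists_two_crit' hu hv hDu hDv h23
  have hdeg2 : 2 ≤ χ.natDegree := two_le_natDegree _ _ (lin_ne hu hv hDu hDv) χ Δ hΔ0 hdeg
    (fun a p t h => hcrit ℝ a p t h)
    (fun a ha => ⟨(hspec ℝ a ha).1, (hspec ℝ a ha).2.2.1⟩) p₁ p₂ hpne hpeq hp1 hp2
  refine ⟨χ, Δ * edisc MvPolynomial.X * MvPolynomial.X (topT hv hvD hDv) *
    MvPolynomial.X (rightT hu hv huD hDu), ?_, hdeg2,
    ((hlcd.mul_right _).mul_right _).mul_right _,
    scale_bezout hUV _ _ _, ?_⟩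
  · exact mul_ne_zero (mul_ne_zero (mul_ne_zero hΔ0 (edisc_X_ne_zero hu hv huD hvD hDu hDv))
      (MvPolynomial.X_ne_zero _)) (MvPolynomial.X_ne_zero _)
  · intro a hM
    set Mv : ℤ := evA (res a) (Δ * edisc MvPolynomial.X * MvPolynomial.X (topT hv hvD hDv) *
      MvPolynomial.X (rightT hu hv huD hDu)) with hMv
    have hMeq : Mv = evA (res a) Δ * edisc (res a) * a (topexp hv hvD) *
        a (rightexp hu hv huD) := by
      rw [hMv, map_mul, map_mul, map_mul, edisc_map, evA_X, evA_X]
      have : (fun s : tau u v D => evA (res a) (MvPolynomial.X s)) = res a := by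
        funext s
        exact evA_X (res a) s
      rw [this]
      rfl
    set c : ℤ := a (origin u v D) with hc
    -- consequences over a field where `Mv` is not zero
    have hfield : ∀ (K : Type) [Field K], ((Mv : ℤ) : K) ≠ 0 →
        evA (redK K a) Δ ≠ 0 ∧ SmoothAtInfinity K a := by
      intro K _ hMK
      rw [hMeq] at hMK
      push_cast at hMK
      have g1 : ((evA (res a) Δ : ℤ) : K) ≠ 0 := fun h => hMK (by rw [h]; ring)
      have g2 : ((edisc (res a) : ℤ) : K) ≠ 0 := fun h => hMK (by rw [h]; ring)
      have g3 : ((a (topexp hv hvD) : ℤ) : K) ≠ 0 := fun h => hMK (by rw [h]; ring)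
      have g4 : ((a (rightexp hu hv huD) : ℤ) : K) ≠ 0 := fun h => hMK (by rw [h]; ring)
      refine ⟨?_, smoothAtInfinity_of K hu hv huD hvD hDu hDv a g2 g3 g4⟩
      rw [evA_redK]
      exact g1
    -- singular points give zeros
    have hsing : ∀ (K : Type) [Field K] (z : Fin 2 → K), Singular (curve a) z →
        (((χ.map (evA (res a))).eval (-c) : ℤ) : K) = 0 := by
      intro K _ z hz
      have h1 := hcrit K _ _ _ ((singular_iff hu hv hDu hDv z a).mp hz)
      have h2 := eval₂_redK K a χ (-c)
      push_cast at h2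
      rw [← h2]
      exact h1
    refine ⟨?_, ?_⟩
    · have hMℚ : ((Mv : ℤ) : ℚ) ≠ 0 := by exact_mod_cast hM
      obtain ⟨g1, _⟩ := hfield ℚ hMℚ
      obtain ⟨h1, _⟩ := hspec ℚ (redK ℚ a) g1
      have h2 : (χ.map (evA (redK ℚ a))) = ((χ.map (evA (res a))).map (Int.castRingHom ℚ)) := by
        rw [Polynomial.map_map]
        congr 1
        ext Q
        · simp [evA]
        · simp [evA, redK]
      rw [h2, natDegree_map_eq_of_injective (RingHom.injective_int _)] at h1
      exact h1
    · intro hχ
      have hMℂ : ((Mv : ℤ) : ℂ) ≠ 0 := by exact_mod_cast hM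
      obtain ⟨_, hsm⟩ := hfield ℂ hMℂ
      have hns : ∀ z : Fin 2 → ℂ, ¬ Singular (curve a) z := by
        intro z hz
        have := hsing ℂ z hz
        exact hχ (by exact_mod_cast this)
      have hgood : GoodCurve hv hvD a := by
        refine ⟨?_, ?_, ?_⟩
        · have h1 := hsm.1
          rw [map_edge] at h1
          intro h0
          rw [hMeq] at hM
          unfold toC at h0
          have h2 : a (topexp hv hvD) = 0 := by exact_mod_cast h0
          rw [h2] at hM
          simp at hM
        · intro y hy hdy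
          obtain ⟨p, q, hpq⟩ := hsm.2.2
          rw [map_edge] at hpq
          have := congrArg (eval y) hpq
          rw [eval_add, eval_mul, eval_mul, hy, hdy, mul_zero, mul_zero, add_zero, eval_one]
            at this
          exact zero_ne_one this
        · intro x y hxy
          by_contra hcon
          push Not at hcon
          apply hns ![x, y]
          refine ⟨?_, ?_, ?_⟩
          · rw [aeval_curve]
            exact hxy
          · rw [aeval_pderiv_curve]
            exact hcon.1
          · rw [aeval_pderiv_curve]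
            exact hcon.2
      have hdvd : ∀ p ∈ nodePrimes a, (p : ℤ) ∣ (χ.map (evA (res a))).eval (-c) := by
        intro p hp
        obtain ⟨hpp, _, z, hz, _, _⟩ := hp
        have : Fact p.Prime := ⟨hpp⟩
        have h1 := hsing (AlgebraicClosure (ZMod p)) z hz
        exact (CharP.intCast_eq_zero_iff (AlgebraicClosure (ZMod p)) p _).mp h1
      have hfin : (nodePrimes a).Finite := by
        apply Set.Finite.subset
          (((χ.map (evA (res a))).eval (-c)).natAbs.divisors : Finset ℕ).finite_toSet
        intro p hp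
        rw [Finset.mem_coe, Nat.mem_divisors]
        exact ⟨Int.natCast_dvd.mp (hdvd p hp), by simpa using hχ⟩
      refine ⟨hgood, hsm, hns, hfin, ?_⟩
      unfold Nstar partRad
      rw [finprod_mem_eq_finite_toFinset_prod _ hfin]
      apply Finset.prod_le_prod_of_subset_of_one_le'
      · intro p hp
        rw [Finset.mem_filter, Nat.mem_primeFactors] at hp
        rw [Set.Finite.mem_toFinset]
        have hpp : p.Prime := hp.1.1
        have : Fact p.Prime := ⟨hpp⟩
        have hMp : ((Mv : ℤ) : AlgebraicClosure (ZMod p)) ≠ 0 := by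
          intro h
          rw [CharP.intCast_eq_zero_iff (AlgebraicClosure (ZMod p)) p] at h
          exact hp.2 (Int.natCast_dvd.mp h)
        obtain ⟨g1, g2⟩ := hfield (AlgebraicClosure (ZMod p)) hMp
        obtain ⟨_, k1, k2, k3⟩ := hspec (AlgebraicClosure (ZMod p)) _ g1
        have hroot : χ.eval₂ (evA (redK (AlgebraicClosure (ZMod p)) a))
            (-(c : AlgebraicClosure (ZMod p))) = 0 := by
          have h2 := eval₂_redK (AlgebraicClosure (ZMod p)) a χ (-c)
          push_cast at h2
          rw [h2]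
          rw [CharP.intCast_eq_zero_iff (AlgebraicClosure (ZMod p)) p]
          exact Int.natCast_dvd.mpr hp.1.2.1
        obtain ⟨q, hq⟩ := k1 _ hroot
        have hq' := crit_eq_pt hu hv hDu hDv a hq
        set z : Fin 2 → AlgebraicClosure (ZMod p) := fun i => q (lin hu hv hDu hDv i) with hz
        rw [hq'] at hq
        refine ⟨hpp, g2, z, (singular_iff hu hv hDu hDv z a).mpr hq, ?_, ?_⟩
        · intro w hw
          have hw' := (singular_iff hu hv hDu hDv w a).mp hw
          have h5 := k2 _ _ _ hw' hq
          funext i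
          have h6 := congrFun h5 (lin hu hv hDu hDv i)
          rw [pt_lin, pt_lin] at h6
          exact h6
        · have h7 := k3 _ _ hq
          unfold Nondegenerate
          rw [map_sub, map_mul, map_pow, aeval_pderiv2_pt hu hv hDu hDv z a,
            aeval_pderiv2_pt hu hv hDu hDv z a, aeval_pderiv2_pt hu hv hDu hDv z a,
            Gdd_comm _ _ 1 0, sq, ← map_mul, ← map_mul, ← map_sub]
          exact h7
      · intro p hp _
        rw [Set.Finite.mem_toFinset] at hp
        obtain ⟨hpp, _⟩ := hp
        exact hpp.one_lt.le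

end Pool.Agent.Helper90Frey
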