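import Mathlib

/-!
# The universal critical point of a linear system, part 1: algebraic independence
-/

namespace Pool.Agent.Helper90Frey

open MvPolynomial

/-- Differentiation lowers the total degree. -/
lemma totalDegree_pderiv_lt {τ : Type*} {Q : MvPolynomial τ ℤ} {i : τ}
    (h : pderiv i Q ≠ 0) : (pderiv i Q).totalDegree < Q.totalDegree := by
  classical
  obtain ⟨m, hm, hmax⟩ := Finset.exists_max_image (pderiv i Q).support
    (fun m => m.sum fun _ e => e) (support_nonempty.mpr h)
  have h1 : (pderiv i Q).totalDegree = m.sum fun _ e => e := by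
    apply le_antisymm
    · exact Finset.sup_le hmax
    · exact le_totalDegree hm
  rw [h1]
  have h2 : m + Finsupp.single i 1 ∈ Q.support := by
    rw [mem_support_iff] at hm ⊢
    rw [coeff_pderiv] at hm
    exact left_ne_zero_of_mul hm
  have h3 := le_totalDegree h2
  rw [Finsupp.sum_add_index' (fun _ => rfl) (fun _ _ _ => rfl), Finsupp.sum_single_index rfl] at h3
  omega

/-- A polynomial over the integers all of whose derivatives vanish is constant. -/
lemma eq_C_of_pderiv_eq_zero {τ : Type*} {Q : MvPolynomial τ ℤ}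
    (h : ∀ i, pderiv i Q = 0) : Q = C (coeff 0 Q) := by
  classical
  ext m
  rw [coeff_C]
  split_ifs with h0
  · rw [h0]
  · have hm : m ≠ 0 := fun h1 => h0 h1.symm
    obtain ⟨i, hi⟩ := Finsupp.ne_iff.mp hm
    have h1 : m = (m - Finsupp.single i 1) + Finsupp.single i 1 := by
      ext j
      by_cases hj : i = j
      · subst hj
        simp only [Finsupp.coe_add, Finsupp.coe_tsub, Pi.add_apply, Pi.sub_apply,
          Finsupp.single_eq_same]
        simp only [Finsupp.coe_zero, Pi.zero_apply] at hi
        omega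
      · simp [Finsupp.single_eq_of_ne' hj]
    have h2 := congrArg (coeff (m - Finsupp.single i 1)) (h i)
    rw [coeff_pderiv, ← h1, coeff_zero] at h2
    rcases mul_eq_zero.mp h2 with h3 | h3
    · exact h3
    · exfalso
      have : (0 : ℤ) ≤ (((m - Finsupp.single i 1 : τ →₀ ℕ) i : ℕ) : ℤ) := by positivity
      push_cast at h3
      omega

/-- The chain rule for a derivation and a substitution. -/
lemma chain_rule {τ : Type*} [Fintype τ] (D : Derivation ℤ (MvPolynomial τ ℤ) (MvPolynomial τ ℤ))
    (g : τ → MvPolynomial τ ℤ) (Q : MvPolynomial τ ℤ) :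
    D (aeval g Q) = ∑ s, aeval g (pderiv s Q) * D (g s) := by
  classical
  induction Q using MvPolynomial.induction_on with
  | C a => simp
  | add p q hp hq =>
    simp only [map_add, add_mul, Finset.sum_add_distrib, hp, hq]
  | mul_X p i hp =>
    have h1 : ∀ s : τ, aeval g (pderiv s (p * X i)) * D (g s) =
        (if s = i then aeval g p * D (g i) else 0) +
          g i * ((aeval g) ((pderiv s) p) * D (g s)) := by
      intro s
      rw [Derivation.leibniz, smul_eq_mul, smul_eq_mul, map_add, map_mul, map_mul, aeval_X]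
      by_cases hs : s = i
      · subst hs
        rw [pderiv_X_self, map_one, if_pos rfl]
        ring
      · rw [pderiv_X_of_ne (Ne.symm hs), map_zero, if_neg hs]
        ring
    rw [Finset.sum_congr rfl (fun s _ => h1 s), Finset.sum_add_distrib,
      Finset.sum_ite_eq' Finset.univ i, if_pos (Finset.mem_univ i), ← Finset.mul_sum, ← hp,
      map_mul, aeval_X, Derivation.leibniz, smul_eq_mul, smul_eq_mul]

variable {τ : Type} [Fintype τ] [DecidableEq τ] (b : Fin 2 → τ)
  (m : τ → MvPolynomial (Fin 2) ℤ)

/-- The universal member of the linear system, without its linear terms; the coordinates `x`, `y`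
are the variables `X (b 0)`, `X (b 1)`. -/
noncomputable def G : MvPolynomial τ ℤ :=
  ∑ s : τ, if s = b 0 ∨ s = b 1 then 0 else X s * rename b (m s)

/-- Its gradient. -/
noncomputable def Gd (i : Fin 2) : MvPolynomial τ ℤ := pderiv (b i) (G b m)

/-- Its second derivatives. -/
noncomputable def Gdd (i j : Fin 2) : MvPolynomial τ ℤ := pderiv (b j) (Gd b m i)

/-- The substitution sending the linear coefficients to minus the gradient. -/
noncomputable def gsub (s : τ) : MvPolynomial τ ℤ :=
  if s = b 0 then -Gd b m 0 else if s = b 1 then -Gd b m 1 else X s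

/-- The critical value. -/
noncomputable def vcrit : MvPolynomial τ ℤ :=
  G b m - X (b 0) * Gd b m 0 - X (b 1) * Gd b m 1

/-- The substitution as a homomorphism. -/
noncomputable def psi : MvPolynomial τ ℤ →ₐ[ℤ] MvPolynomial τ ℤ := aeval (gsub b m)

lemma Gdd_comm (i j : Fin 2) : Gdd b m i j = Gdd b m j i := by
  have h : ∀ (s t : τ) (Q : MvPolynomial τ ℤ), pderiv s (pderiv t Q) = pderiv t (pderiv s Q) := by
    intro s t Q
    ext n
    simp only [coeff_pderiv]
    by_cases hst : s = t
    · subst hst
      rfl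
    · have h1 : n + Finsupp.single s 1 + Finsupp.single t 1 =
        n + Finsupp.single t 1 + Finsupp.single s 1 := by
        rw [add_assoc, add_assoc, add_comm (Finsupp.single s 1)]
      rw [h1]
      simp [hst, Ne.symm hst]
      ring
  unfold Gdd Gd
  exact h _ _ _

lemma gsub_zero : gsub b m (b 0) = -Gd b m 0 := by
  unfold gsub
  rw [if_pos rfl]

variable (hb : b 0 ≠ b 1)

include hb in
lemma gsub_one : gsub b m (b 1) = -Gd b m 1 := by
  unfold gsub
  rw [if_neg (Ne.symm hb), if_pos rfl]

lemma gsub_other {s : τ} (h0 : s ≠ b 0) (h1 : s ≠ b 1) : gsub b m s = X s := by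
  unfold gsub
  rw [if_neg h0, if_neg h1]

include hb in
/-- Derivative of a substituted polynomial in the direction of `x` or `y`. -/
lemma pderiv_psi (i : Fin 2) (Q : MvPolynomial τ ℤ) :
    pderiv (b i) (psi b m Q) = -(psi b m (pderiv (b 0) Q) * Gdd b m 0 i +
      psi b m (pderiv (b 1) Q) * Gdd b m 1 i) := by
  unfold psi
  rw [chain_rule (pderiv (b i)) (gsub b m) Q]
  rw [Finset.sum_eq_add (b 0) (b 1) hb]
  · rw [gsub_zero b m, gsub_one b m hb]
    simp only [map_neg]
    unfold Gdd
    ring
  · intro s _ hs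
    rw [gsub_other b m hs.1 hs.2, pderiv_X_of_ne, mul_zero]
    fin_cases i
    · exact hs.1
    · exact hs.2
  · intro h
    exact absurd (Finset.mem_univ _) h
  · intro h
    exact absurd (Finset.mem_univ _) h

/-- The Hessian of the universal member. -/
noncomputable def hess : MvPolynomial τ ℤ :=
  Gdd b m 0 0 * Gdd b m 1 1 - Gdd b m 0 1 * Gdd b m 0 1

omit hb in
/-- If a substituted polynomial has vanishing derivatives in `x` and `y`, the derivatives of the
polynomial along the linear coefficients vanish after substitution. -/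
lemma solve_two (hH : hess b m ≠ 0) {A B : MvPolynomial τ ℤ}
    (h0 : A * Gdd b m 0 0 + B * Gdd b m 1 0 = 0) (h1 : A * Gdd b m 0 1 + B * Gdd b m 1 1 = 0) :
    A = 0 ∧ B = 0 := by
  have hc := Gdd_comm b m 1 0
  rw [hc] at h0
  unfold hess at hH
  constructor
  · have : A * (Gdd b m 0 0 * Gdd b m 1 1 - Gdd b m 0 1 * Gdd b m 0 1) = 0 := by
      linear_combination Gdd b m 1 1 * h0 - Gdd b m 0 1 * h1
    exact (mul_eq_zero.mp this).resolve_right hH
  · have : B * (Gdd b m 0 0 * Gdd b m 1 1 - Gdd b m 0 1 * Gdd b m 0 1) = 0 := by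
      linear_combination Gdd b m 0 0 * h1 - Gdd b m 0 1 * h0
    exact (mul_eq_zero.mp this).resolve_right hH

include hb in
/-- The substitution is injective. -/
theorem psi_injective (hH : hess b m ≠ 0) : Function.Injective (psi b m) := by
  rw [injective_iff_map_eq_zero]
  by_contra hcon
  push Not at hcon
  have hne : {n : ℕ | ∃ Q : MvPolynomial τ ℤ, psi b m Q = 0 ∧ Q ≠ 0 ∧ Q.totalDegree = n}.Nonempty := by
    obtain ⟨Q, hQ, hQ0⟩ := hcon
    exact ⟨_, Q, hQ, hQ0, rfl⟩
  obtain ⟨Q, hQ, hQ0, hn⟩ := Nat.sInf_mem hne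
  have hmin : ∀ R : MvPolynomial τ ℤ, psi b m R = 0 → R.totalDegree < Q.totalDegree → R = 0 := by
    intro R hR hlt
    by_contra hR0
    have := Nat.sInf_le (show R.totalDegree ∈ {n : ℕ | ∃ Q : MvPolynomial τ ℤ, psi b m Q = 0 ∧
      Q ≠ 0 ∧ Q.totalDegree = n} from ⟨R, hR, hR0, rfl⟩)
    omega
  have hd : ∀ i : Fin 2, psi b m (pderiv (b 0) Q) * Gdd b m 0 i +
      psi b m (pderiv (b 1) Q) * Gdd b m 1 i = 0 := by
    intro i
    have h := pderiv_psi b m hb i Q
    rw [hQ, map_zero] at h
    exact neg_eq_zero.mp h.symm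
  obtain ⟨hA, hB⟩ := solve_two b m hH (hd 0) (hd 1)
  have hall : ∀ s, psi b m (pderiv s Q) = 0 := by
    intro s
    by_cases h0 : s = b 0
    · rw [h0]
      exact hA
    by_cases h1 : s = b 1
    · rw [h1]
      exact hB
    have h := chain_rule (pderiv s) (gsub b m) Q
    change pderiv s (psi b m Q) = ∑ t, psi b m (pderiv t Q) * pderiv s (gsub b m t) at h
    rw [hQ, map_zero, Finset.sum_eq_single s] at h
    · rw [gsub_other b m h0 h1, pderiv_X_self, mul_one] at h
      exact h.symm
    · intro t _ ht
      by_cases h0' : t = b 0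
      · rw [h0', hA, zero_mul]
      by_cases h1' : t = b 1
      · rw [h1', hB, zero_mul]
      rw [gsub_other b m h0' h1', pderiv_X_of_ne ht, mul_zero]
    · intro h
      exact absurd (Finset.mem_univ _) h
  have hz : ∀ s, pderiv s Q = 0 := by
    intro s
    by_contra hs
    exact hs (hmin _ (hall s) (totalDegree_pderiv_lt hs))
  have hC := eq_C_of_pderiv_eq_zero hz
  rw [hC] at hQ
  unfold psi at hQ
  rw [aeval_C] at hQ
  have h0 : coeff 0 Q = 0 := by
    rw [algebraMap_eq] at hQ
    exact C_eq_zero.mp hQ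
  rw [h0, C_0] at hC
  exact hQ0 hC

end Pool.Agent.Helper90Frey
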