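import Pool.Agent.Helper90_Frey.Cert1

/-!
# The universal critical point of a linear system, part 2: the minimal polynomial
-/

namespace Pool.Agent.Helper90Frey

open Polynomial

section general

variable {P S : Type*} [CommRing P] [IsDomain P] [CharZero P] [CommRing S] [IsDomain S]

omit [CharZero P] in
/-- Clearing denominators. -/
lemma clear_denominators (p : (FractionRing P)[X]) : ∃ d : P, d ≠ 0 ∧ ∃ q : P[X],
    q.map (algebraMap P (FractionRing P)) = C (algebraMap P (FractionRing P) d) * p := by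
  obtain ⟨b, hb, h⟩ := IsLocalization.integerNormalization_spec (nonZeroDivisors P) p
  refine ⟨b, nonZeroDivisors.ne_zero hb, _, h.trans ?_⟩
  rw [Algebra.smul_def]
  rfl

/-- A polynomial of minimal degree with a given root, and its basic properties. -/
theorem exists_minimal (ψ : P →+* S) (hψ : Function.Injective ψ) (v : S)
    (hv : ∃ Q : P[X], Q ≠ 0 ∧ Q.eval₂ ψ v = 0) :
    ∃ χ : P[X], χ ≠ 0 ∧ χ.eval₂ ψ v = 0 ∧
      (∀ h : P[X], h.eval₂ ψ v = 0 → ∃ d : P, d ≠ 0 ∧ ∃ q : P[X], C d * h = χ * q) ∧
      ∃ U V : P[X], ∃ d : P, d ≠ 0 ∧ U * χ + V * derivative χ = C d := by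
  classical
  set K := FractionRing P with hK
  set L := FractionRing S with hL
  set ι := algebraMap P K with hι
  have hιi : Function.Injective ι := IsFractionRing.injective P K
  have hLi : Function.Injective (algebraMap S L) := IsFractionRing.injective S L
  have : CharZero K := charZero_of_injective_algebraMap hιi
  have hg : Function.Injective ((algebraMap S L).comp ψ) := hLi.comp hψ
  set φ : K →+* L := IsFractionRing.lift hg with hφ
  set ev : K[X] →+* L := eval₂RingHom φ (algebraMap S L v) with hev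
  have hevmap : ∀ h : P[X], ev (h.map ι) = algebraMap S L (h.eval₂ ψ v) := by
    intro h
    rw [hev, coe_eval₂RingHom, eval₂_map]
    have h1 : φ.comp ι = (algebraMap S L).comp ψ := by
      ext x
      rw [RingHom.comp_apply, hφ, hι, IsFractionRing.lift_algebraMap]
    rw [h1, hom_eval₂]
  set I := RingHom.ker ev with hI
  have hprime : I.IsPrime := RingHom.ker_isPrime ev
  obtain ⟨Q, hQ0, hQ⟩ := hv
  have hIne : I ≠ ⊥ := by
    intro h
    have h1 : Q.map ι ∈ I := by
      rw [hI, RingHom.mem_ker, hevmap, hQ, map_zero]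
    rw [h, Ideal.mem_bot] at h1
    exact hQ0 ((Polynomial.map_eq_zero_iff hιi).mp h1)
  set μ := Submodule.IsPrincipal.generator I with hμ
  have hirr : Irreducible μ :=
    (Submodule.IsPrincipal.prime_generator_of_isPrime I hIne).irreducible
  have hμI : ev μ = 0 := by
    have : μ ∈ I := Submodule.IsPrincipal.generator_mem I
    rwa [hI, RingHom.mem_ker] at this
  obtain ⟨d0, hd0, χ, hχ⟩ := clear_denominators μ
  have hid0 : ι d0 ≠ 0 := fun h => hd0 (hιi (by rw [h, map_zero]))
  have hχev : χ.eval₂ ψ v = 0 := by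
    apply hLi
    rw [← hevmap, hχ, map_mul, hμI, mul_zero, map_zero]
  refine ⟨χ, ?_, hχev, ?_, ?_⟩
  · intro h
    rw [h, Polynomial.map_zero] at hχ
    rcases mul_eq_zero.mp hχ.symm with h1 | h1
    · exact hid0 (C_eq_zero.mp h1)
    · exact hirr.ne_zero h1
  · intro h hh
    have h1 : h.map ι ∈ I := by
      rw [hI, RingHom.mem_ker, hevmap, hh, map_zero]
    rw [Submodule.IsPrincipal.mem_iff_eq_smul_generator I] at h1
    obtain ⟨q, hq⟩ := h1
    obtain ⟨d1, hd1, r, hr⟩ := clear_denominators q
    refine ⟨d0 * d1, mul_ne_zero hd0 hd1, r, ?_⟩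
    apply Polynomial.map_injective ι hιi
    rw [Polynomial.map_mul, Polynomial.map_mul, hχ, hr, hq, map_C, map_mul, C_mul, smul_eq_mul]
    ring
  · obtain ⟨A, B, hAB⟩ := hirr.separable
    obtain ⟨d1, hd1, A', hA'⟩ := clear_denominators A
    obtain ⟨d2, hd2, B', hB'⟩ := clear_denominators B
    refine ⟨C d2 * A', C d1 * B', d0 * d1 * d2, mul_ne_zero (mul_ne_zero hd0 hd1) hd2, ?_⟩
    apply Polynomial.map_injective ι hιi
    have hder : (derivative χ).map ι = C (ι d0) * derivative μ := by
      rw [← derivative_map, hχ, derivative_C_mul]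
    rw [Polynomial.map_add, Polynomial.map_mul, Polynomial.map_mul, Polynomial.map_mul,
      Polynomial.map_mul, hder, hχ, hA', hB', map_C, map_C, map_C]
    have h2 : C (ι d2) * (C (ι d1) * A) * (C (ι d0) * μ) +
        C (ι d1) * (C (ι d2) * B) * (C (ι d0) * derivative μ) =
        C (ι d0) * C (ι d1) * C (ι d2) * (A * μ + B * derivative μ) := by ring
    rw [h2, hAB, mul_one]
    simp only [map_mul]

end general

open MvPolynomial in
/-- The critical value is algebraic over the image of the substitution. -/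
theorem vcrit_algebraic {τ : Type} [Fintype τ] [DecidableEq τ] (b : Fin 2 → τ)
    (m : τ → MvPolynomial (Fin 2) ℤ) (hb : b 0 ≠ b 1) (hH : hess b m ≠ 0)
    (v : MvPolynomial τ ℤ) :
    ∃ Q : (MvPolynomial τ ℤ)[X], Q ≠ 0 ∧ Q.eval₂ (psi b m : MvPolynomial τ ℤ →+* _) v = 0 := by
  have hinj := psi_injective b m hb hH
  have hind : AlgebraicIndependent ℤ (gsub b m) := hinj
  have htr : Algebra.trdeg ℤ (MvPolynomial τ ℤ) ≤ Cardinal.mk τ := by
    rw [MvPolynomial.trdeg_of_isDomain]
    simp
  have hbasis := hind.isTranscendenceBasis_of_trdeg_le_of_finite htr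
  have halg := hbasis.isAlgebraic
  obtain ⟨q, hq0, hq⟩ := halg.isAlgebraic v
  refine ⟨q.map (hind.aevalEquiv.symm : _ →+* MvPolynomial τ ℤ), ?_, ?_⟩
  · rw [Ne, Polynomial.map_eq_zero_iff]
    · exact hq0
    · exact hind.aevalEquiv.symm.injective
  · rw [Polynomial.eval₂_map]
    rw [Polynomial.aeval_def] at hq
    rw [← hq]
    congr 1
    ext x
    rw [RingHom.comp_apply]
    have h1 := hind.algebraMap_aevalEquiv (hind.aevalEquiv.symm x)
    rw [AlgEquiv.apply_symm_apply] at h1
    rw [h1]
    rfl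

end Pool.Agent.Helper90Frey
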