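import Pool.Agent.Helper90_Frey.Cert2

/-!
# The universal critical point of a linear system, part 3: the certificate
-/

namespace Pool.Agent.Helper90Frey

open Polynomial

variable {τ : Type} [Fintype τ] [DecidableEq τ] (b : Fin 2 → τ)
  (m : τ → MvPolynomial (Fin 2) ℤ)

/-- Evaluation of a polynomial over the coefficient ring at the critical value. -/
noncomputable def ev : (MvPolynomial τ ℤ)[X] →+* MvPolynomial τ ℤ :=
  eval₂RingHom (psi b m : MvPolynomial τ ℤ →+* MvPolynomial τ ℤ) (vcrit b m)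

lemma ev_apply (h : (MvPolynomial τ ℤ)[X]) :
    ev b m h = h.eval₂ (psi b m : MvPolynomial τ ℤ →+* MvPolynomial τ ℤ) (vcrit b m) := rfl

lemma ev_C (c : MvPolynomial τ ℤ) : ev b m (C c) = psi b m c := by
  rw [ev_apply, eval₂_C]
  rfl

lemma ev_X : ev b m X = vcrit b m := by
  rw [ev_apply, eval₂_X]

/-- The coordinate functions `x`, `y`. -/
noncomputable def xy (i : Fin 2) : MvPolynomial τ ℤ := MvPolynomial.X (b i)

omit [Fintype τ] [DecidableEq τ] in
lemma pderiv_xy (hb : b 0 ≠ b 1) (i j : Fin 2) :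
    MvPolynomial.pderiv (b j) (xy b i) = if i = j then 1 else 0 := by
  unfold xy
  split_ifs with h
  · rw [h, MvPolynomial.pderiv_X_self]
  · apply MvPolynomial.pderiv_X_of_ne
    intro h1
    apply h
    fin_cases i <;> fin_cases j
    · rfl
    · exact absurd h1 hb
    · exact absurd h1 (Ne.symm hb)
    · rfl

lemma pderiv_vcrit (hb : b 0 ≠ b 1) (i : Fin 2) : MvPolynomial.pderiv (b i) (vcrit b m) =
    -(xy b 0 * Gdd b m 0 i + xy b 1 * Gdd b m 1 i) := by
  have h0 := pderiv_xy b hb 0 i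
  have h1 := pderiv_xy b hb 1 i
  unfold vcrit
  unfold xy at h0 h1 ⊢
  rw [map_sub, map_sub, Derivation.leibniz, Derivation.leibniz, smul_eq_mul, smul_eq_mul,
    smul_eq_mul, smul_eq_mul, h0, h1]
  change Gd b m i - (MvPolynomial.X (b 0) * Gdd b m 0 i + _) -
    (MvPolynomial.X (b 1) * Gdd b m 1 i + _) = _
  fin_cases i
  · simp
    ring
  · simp
    ring

/-- The chain rule for polynomials over the coefficient ring. -/
lemma chain_ev (hb : b 0 ≠ b 1) (h : (MvPolynomial τ ℤ)[X]) :
    ∃ α β : (MvPolynomial τ ℤ)[X], ∀ i : Fin 2, MvPolynomial.pderiv (b i) (ev b m h) =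
      -((ev b m α + xy b 0 * ev b m (derivative h)) * Gdd b m 0 i +
        (ev b m β + xy b 1 * ev b m (derivative h)) * Gdd b m 1 i) := by
  induction h using Polynomial.induction_on' with
  | add p q hp hq =>
    obtain ⟨α, β, h1⟩ := hp
    obtain ⟨α', β', h2⟩ := hq
    refine ⟨α + α', β + β', ?_⟩
    intro i
    simp only [map_add, h1, h2]
    ring
  | monomial n c =>
    refine ⟨monomial n (MvPolynomial.pderiv (b 0) c), monomial n (MvPolynomial.pderiv (b 1) c), ?_⟩
    intro i
    have hm : ∀ (k : ℕ) (c : MvPolynomial τ ℤ), ev b m (monomial k c) =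
        psi b m c * vcrit b m ^ k := by
      intro k c
      rw [ev_apply, eval₂_monomial]
      rfl
    rw [hm, hm, hm, derivative_monomial, hm, Derivation.leibniz, smul_eq_mul, smul_eq_mul,
      Derivation.leibniz_pow, pderiv_psi b m hb i c, pderiv_vcrit b m hb i, smul_eq_mul,
      nsmul_eq_mul, map_mul, map_natCast]
    ring

/-- **The certificate.** -/
theorem exists_cert (hb : b 0 ≠ b 1) (hH : hess b m ≠ 0) :
    ∃ χ X1 Y1 : (MvPolynomial τ ℤ)[X], ∃ d W : MvPolynomial τ ℤ, χ ≠ 0 ∧ d ≠ 0 ∧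
      ev b m χ = 0 ∧
      (∀ h : (MvPolynomial τ ℤ)[X], ev b m h = 0 →
        ∃ d' : MvPolynomial τ ℤ, d' ≠ 0 ∧ ∃ q : (MvPolynomial τ ℤ)[X], C d' * h = χ * q) ∧
      ev b m X1 = psi b m d * xy b 0 ∧ ev b m Y1 = psi b m d * xy b 1 ∧
      W * hess b m = psi b m d ^ 2 ∧
      ∃ U V : (MvPolynomial τ ℤ)[X], U * χ + V * derivative χ = C d := by
  have hinj := psi_injective b m hb hH
  obtain ⟨χ, hχ0, hχ, hmin, U, V, d, hd0, hUV⟩ := exists_minimal
    (psi b m : MvPolynomial τ ℤ →+* MvPolynomial τ ℤ) hinj (vcrit b m)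
    (vcrit_algebraic b m hb hH (vcrit b m))
  change ev b m χ = 0 at hχ
  obtain ⟨α, β, hαβ⟩ := chain_ev b m hb χ
  have hs := solve_two b m hH (A := ev b m α + xy b 0 * ev b m (derivative χ))
    (B := ev b m β + xy b 1 * ev b m (derivative χ)) (by
      have := hαβ 0
      rw [hχ, map_zero] at this
      exact neg_eq_zero.mp this.symm) (by
      have := hαβ 1
      rw [hχ, map_zero] at this
      exact neg_eq_zero.mp this.symm)
  have hdev : ev b m V * ev b m (derivative χ) = psi b m d := by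
    have := congrArg (ev b m) hUV
    rw [map_add, map_mul, map_mul, hχ, mul_zero, zero_add, ev_C] at this
    exact this
  have hX1 : ev b m (-(α * V)) = psi b m d * xy b 0 := by
    rw [map_neg, map_mul, ← hdev]
    linear_combination -(ev b m V) * hs.1
  have hY1 : ev b m (-(β * V)) = psi b m d * xy b 1 := by
    rw [map_neg, map_mul, ← hdev]
    linear_combination -(ev b m V) * hs.2
  obtain ⟨α1, β1, h1⟩ := chain_ev b m hb (-(α * V))
  obtain ⟨α2, β2, h2⟩ := chain_ev b m hb (-(β * V))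
  rw [hX1] at h1
  rw [hY1] at h2
  have hd : ∀ i : Fin 2, MvPolynomial.pderiv (b i) (psi b m d) =
      -(psi b m (MvPolynomial.pderiv (b 0) d) * Gdd b m 0 i +
        psi b m (MvPolynomial.pderiv (b 1) d) * Gdd b m 1 i) := fun i => pderiv_psi b m hb i d
  have e1 : ∀ i : Fin 2, psi b m d * (if (0 : Fin 2) = i then 1 else 0) =
      -((ev b m α1 + xy b 0 * ev b m (derivative (-(α * V))) -
          xy b 0 * psi b m (MvPolynomial.pderiv (b 0) d)) * Gdd b m 0 i +
        (ev b m β1 + xy b 1 * ev b m (derivative (-(α * V))) -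
          xy b 0 * psi b m (MvPolynomial.pderiv (b 1) d)) * Gdd b m 1 i) := by
    intro i
    have h3 := h1 i
    rw [Derivation.leibniz, smul_eq_mul, smul_eq_mul, hd, pderiv_xy b hb] at h3
    linear_combination h3
  have e2 : ∀ i : Fin 2, psi b m d * (if (1 : Fin 2) = i then 1 else 0) =
      -((ev b m α2 + xy b 0 * ev b m (derivative (-(β * V))) -
          xy b 1 * psi b m (MvPolynomial.pderiv (b 0) d)) * Gdd b m 0 i +
        (ev b m β2 + xy b 1 * ev b m (derivative (-(β * V))) -
          xy b 1 * psi b m (MvPolynomial.pderiv (b 1) d)) * Gdd b m 1 i) := by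
    intro i
    have h3 := h2 i
    rw [Derivation.leibniz, smul_eq_mul, smul_eq_mul, hd, pderiv_xy b hb] at h3
    linear_combination h3
  set A := ev b m α1 + xy b 0 * ev b m (derivative (-(α * V))) -
          xy b 0 * psi b m (MvPolynomial.pderiv (b 0) d)
  set B := ev b m β1 + xy b 1 * ev b m (derivative (-(α * V))) -
          xy b 0 * psi b m (MvPolynomial.pderiv (b 1) d)
  set A' := ev b m α2 + xy b 0 * ev b m (derivative (-(β * V))) -
          xy b 1 * psi b m (MvPolynomial.pderiv (b 0) d)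
  set B' := ev b m β2 + xy b 1 * ev b m (derivative (-(β * V))) -
          xy b 1 * psi b m (MvPolynomial.pderiv (b 1) d)
  have e10 := e1 0
  have e11 := e1 1
  have e20 := e2 0
  have e21 := e2 1
  simp only [if_true, if_false, mul_one, mul_zero, zero_ne_one, one_ne_zero] at e10 e11 e20 e21
  have hc := Gdd_comm b m 1 0
  rw [hc] at e10 e20
  refine ⟨χ, -(α * V), -(β * V), d, A * B' - A' * B, hχ0, hd0, hχ, hmin, hX1, hY1, ?_,
    U, V, hUV⟩
  unfold hess
  have h4 : psi b m d ^ 2 = psi b m d * psi b m d - 0 * 0 := by ring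
  rw [h4]
  nth_rewrite 1 [e10]
  nth_rewrite 1 [e21]
  nth_rewrite 1 [e11]
  nth_rewrite 1 [e20]
  ring

end Pool.Agent.Helper90Frey
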