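import Pool.Agent.Helper90_Frey.Cert3

/-!
# The universal critical point of a linear system, part 4: specialization
-/

namespace Pool.Agent.Helper90Frey

open Polynomial

variable {τ : Type} [Fintype τ] [DecidableEq τ] (b : Fin 2 → τ)
  (m : τ → MvPolynomial (Fin 2) ℤ)

/-- Evaluation at a vector, as a ring homomorphism. -/
noncomputable def evA {A : Type*} [CommRing A] (a : τ → A) : MvPolynomial τ ℤ →+* A :=
  MvPolynomial.eval₂Hom (Int.castRingHom A) a

omit [Fintype τ] [DecidableEq τ] in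
lemma evA_X {A : Type*} [CommRing A] (a : τ → A) (s : τ) : evA a (MvPolynomial.X s) = a s := by
  simp [evA]

omit [Fintype τ] [DecidableEq τ] in
lemma evA_C {A : Type*} [CommRing A] (a : τ → A) (c : ℤ) : evA a (MvPolynomial.C c) = c := by
  simp [evA]

lemma evA_psi {A : Type*} [CommRing A] (p a : τ → A) (h : ∀ s, evA p (gsub b m s) = a s)
    (Q : MvPolynomial τ ℤ) : evA p (psi b m Q) = evA a Q := by
  have h1 : (evA p).comp (psi b m : MvPolynomial τ ℤ →+* MvPolynomial τ ℤ) = evA a := by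
    apply MvPolynomial.ringHom_ext
    · intro r
      simp [psi, evA]
    · intro s
      rw [evA_X, ← h s, RingHom.comp_apply]
      congr 1
      exact MvPolynomial.aeval_X _ _
  rw [← h1]
  rfl

lemma evA_ev {A : Type*} [CommRing A] (p a : τ → A) (h : ∀ s, evA p (gsub b m s) = a s)
    (Q : (MvPolynomial τ ℤ)[X]) :
    evA p (ev b m Q) = Q.eval₂ (evA a) (evA p (vcrit b m)) := by
  rw [ev_apply, hom_eval₂]
  congr 1
  ext s
  · simp
  · exact evA_psi b m p a h _

/-- The point `p` of the universal family lies over the coefficient vector `a` and the critical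
value `t`. -/
def IsCrit {A : Type*} [CommRing A] (a p : τ → A) (t : A) : Prop :=
  (∀ s, s ≠ b 0 → s ≠ b 1 → p s = a s) ∧ evA p (Gd b m 0) = -a (b 0) ∧
    evA p (Gd b m 1) = -a (b 1) ∧ evA p (vcrit b m) = t

lemma IsCrit.gsub {A : Type*} [CommRing A] {a p : τ → A} {t : A} (h : IsCrit b m a p t) (s : τ) :
    evA p (gsub b m s) = a s := by
  unfold Helper90Frey.gsub
  split_ifs with h0 h1
  · rw [map_neg, h.2.1, neg_neg, h0]
  · rw [map_neg, h.2.2.1, neg_neg, h1]
  · rw [evA_X, h.1 s h0 h1]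

/-- Homogenized composition. -/
lemma homog_comp (X1 Y1 : (MvPolynomial τ ℤ)[X]) (d : MvPolynomial τ ℤ) (H : MvPolynomial τ ℤ) :
    ∃ M : ℕ, ∃ h : (MvPolynomial τ ℤ)[X], ∀ (A : Type) [CommRing A] (a p : τ → A) (t : A),
      (∀ s, s ≠ b 0 → s ≠ b 1 → p s = a s) → evA a d * p (b 0) = X1.eval₂ (evA a) t →
      evA a d * p (b 1) = Y1.eval₂ (evA a) t → h.eval₂ (evA a) t = evA a d ^ M * evA p H := by
  induction H using MvPolynomial.induction_on with
  | C c =>
    refine ⟨0, C (MvPolynomial.C c), ?_⟩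
    intro A _ a p t _ _ _
    rw [eval₂_C, evA_C, evA_C, pow_zero, one_mul]
  | add H1 H2 h1 h2 =>
    obtain ⟨M1, k1, h1⟩ := h1
    obtain ⟨M2, k2, h2⟩ := h2
    refine ⟨M1 + M2, C (d ^ M2) * k1 + C (d ^ M1) * k2, ?_⟩
    intro A _ a p t hs hx hy
    rw [eval₂_add, eval₂_mul, eval₂_mul, eval₂_C, eval₂_C, h1 A a p t hs hx hy,
      h2 A a p t hs hx hy, map_pow, map_pow, map_add]
    ring
  | mul_X H s h =>
    obtain ⟨M, k, h⟩ := h
    by_cases h0 : s = b 0
    · refine ⟨M + 1, k * X1, ?_⟩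
      intro A _ a p t hs hx hy
      rw [eval₂_mul, h A a p t hs hx hy, ← hx, map_mul, evA_X, h0]
      ring
    by_cases h1 : s = b 1
    · refine ⟨M + 1, k * Y1, ?_⟩
      intro A _ a p t hs hx hy
      rw [eval₂_mul, h A a p t hs hx hy, ← hy, map_mul, evA_X, h1]
      ring
    refine ⟨M, k * C (MvPolynomial.X s), ?_⟩
    intro A _ a p t hs hx hy
    rw [eval₂_mul, h A a p t hs hx hy, eval₂_C, map_mul, evA_X, evA_X, hs s h0 h1]
    ring

/-- **The specialized certificate.** -/
theorem exists_cert_point (hb : b 0 ≠ b 1) (hH : hess b m ≠ 0) :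
    ∃ χ : (MvPolynomial τ ℤ)[X], ∃ Δ : MvPolynomial τ ℤ, Δ ≠ 0 ∧ 0 < χ.natDegree ∧
      χ.leadingCoeff ∣ Δ ∧
      (∃ U V : (MvPolynomial τ ℤ)[X], U * χ + V * derivative χ = C Δ) ∧
      (∀ (k : Type) [Field k] (a p : τ → k) (t : k), IsCrit b m a p t →
        χ.eval₂ (evA a) t = 0) ∧
      ∀ (k : Type) [Field k] (a : τ → k), evA a Δ ≠ 0 →
        (χ.map (evA a)).natDegree = χ.natDegree ∧
        (∀ t, χ.eval₂ (evA a) t = 0 → ∃ p, IsCrit b m a p t) ∧
        (∀ t p p', IsCrit b m a p t → IsCrit b m a p' t → p = p') ∧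
        (∀ t p, IsCrit b m a p t → evA p (hess b m) ≠ 0) := by
  obtain ⟨χ, X1, Y1, d, W, hχ0, hd0, hχ, hmin, hX1, hY1, hW, U, V, hUV⟩ :=
    exists_cert b m hb hH
  have hinj := psi_injective b m hb hH
  obtain ⟨M0, k0, hk0⟩ := homog_comp b X1 Y1 d (Gd b m 0)
  obtain ⟨M1, k1, hk1⟩ := homog_comp b X1 Y1 d (Gd b m 1)
  obtain ⟨M2, k2, hk2⟩ := homog_comp b X1 Y1 d (vcrit b m)
  -- the universal point
  have hid : ∀ Q : MvPolynomial τ ℤ, evA (MvPolynomial.X : τ → MvPolynomial τ ℤ) Q = Q := by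
    intro Q
    have : (evA (MvPolynomial.X : τ → MvPolynomial τ ℤ)) = RingHom.id _ := by
      apply MvPolynomial.ringHom_ext
      · intro r
        simp [evA]
      · intro s
        rw [evA_X]
        rfl
    rw [this]
    rfl
  have hgs : ∀ Q : MvPolynomial τ ℤ, evA (gsub b m) Q = psi b m Q := by
    intro Q
    rw [← evA_psi b m MvPolynomial.X (gsub b m) (fun s => hid _) Q, hid]
  have hevu : ∀ Q : (MvPolynomial τ ℤ)[X], Q.eval₂ (evA (gsub b m)) (vcrit b m) = ev b m Q := by
    intro Q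
    have := evA_ev b m MvPolynomial.X (gsub b m) (fun s => hid _) Q
    rw [hid, hid] at this
    exact this.symm
  have hsu : ∀ s, s ≠ b 0 → s ≠ b 1 →
      (MvPolynomial.X s : MvPolynomial τ ℤ) = gsub b m s := by
    intro s h0 h1
    rw [gsub_other b m h0 h1]
  have hxu : evA (gsub b m) d * MvPolynomial.X (b 0) =
      X1.eval₂ (evA (gsub b m)) (vcrit b m) := by
    rw [hgs, hevu, hX1]
    rfl
  have hyu : evA (gsub b m) d * MvPolynomial.X (b 1) =
      Y1.eval₂ (evA (gsub b m)) (vcrit b m) := by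
    rw [hgs, hevu, hY1]
    rfl
  have u0 := hk0 _ (gsub b m) MvPolynomial.X (vcrit b m) hsu hxu hyu
  have u1 := hk1 _ (gsub b m) MvPolynomial.X (vcrit b m) hsu hxu hyu
  have u2 := hk2 _ (gsub b m) MvPolynomial.X (vcrit b m) hsu hxu hyu
  rw [hevu, hgs, hid] at u0 u1 u2
  have z0 : ev b m (k0 + C (d ^ M0 * MvPolynomial.X (b 0))) = 0 := by
    rw [map_add, u0, ev_C, map_mul, map_pow]
    have : psi b m (MvPolynomial.X (b 0)) = -Gd b m 0 := by
      unfold psi
      rw [MvPolynomial.aeval_X, gsub_zero]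
    rw [this]
    ring
  have z1 : ev b m (k1 + C (d ^ M1 * MvPolynomial.X (b 1))) = 0 := by
    rw [map_add, u1, ev_C, map_mul, map_pow]
    have : psi b m (MvPolynomial.X (b 1)) = -Gd b m 1 := by
      unfold psi
      rw [MvPolynomial.aeval_X, gsub_one b m hb]
    rw [this]
    ring
  have z2 : ev b m (k2 - C (d ^ M2) * X) = 0 := by
    rw [map_sub, map_mul, u2, ev_C, ev_X, map_pow]
    ring
  obtain ⟨d0, hd0', q0, hq0⟩ := hmin _ z0
  obtain ⟨d1, hd1', q1, hq1⟩ := hmin _ z1
  obtain ⟨d2, hd2', q2, hq2⟩ := hmin _ z2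
  have hdeg : 0 < χ.natDegree := by
    rw [Nat.pos_iff_ne_zero]
    intro h0
    obtain ⟨c, hc⟩ := natDegree_eq_zero.mp h0
    rw [← hc, ev_C] at hχ
    have : c = 0 := hinj (by rw [hχ, map_zero])
    rw [this, C_0] at hc
    exact hχ0 hc.symm
  have hvan : ∀ (k : Type) [Field k] (a p : τ → k) (t : k), IsCrit b m a p t →
      ∀ Q : (MvPolynomial τ ℤ)[X], evA p (ev b m Q) = Q.eval₂ (evA a) t := by
    intro k _ a p t h Q
    rw [evA_ev b m p a (h.gsub b m) Q, h.2.2.2]
  have hpsi : ∀ (k : Type) [Field k] (a p : τ → k) (t : k), IsCrit b m a p t →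
      ∀ Q : MvPolynomial τ ℤ, evA p (psi b m Q) = evA a Q := by
    intro k _ a p t h Q
    exact evA_psi b m p a (h.gsub b m) Q
  refine ⟨χ, d * d0 * d1 * d2 * χ.leadingCoeff,
    mul_ne_zero (mul_ne_zero (mul_ne_zero (mul_ne_zero hd0 hd0') hd1') hd2')
      (leadingCoeff_ne_zero.mpr hχ0), hdeg, ⟨d * d0 * d1 * d2, by ring⟩,
    ⟨C (d0 * d1 * d2 * χ.leadingCoeff) * U, C (d0 * d1 * d2 * χ.leadingCoeff) * V, ?_⟩, ?_, ?_⟩
  · have h1 : C (d0 * d1 * d2 * χ.leadingCoeff) * U * χ +
        C (d0 * d1 * d2 * χ.leadingCoeff) * V * derivative χ =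
        C (d0 * d1 * d2 * χ.leadingCoeff) * (U * χ + V * derivative χ) := by ring
    rw [h1, hUV, ← C_mul]
    congr 1
    ring
  · intro k _ a p t h
    rw [← hvan k a p t h, hχ, map_zero]
  · intro k _ a hΔ
    simp only [map_mul] at hΔ
    have g0 : evA a d ≠ 0 := fun h => hΔ (by rw [h]; ring)
    have g1 : evA a d0 ≠ 0 := fun h => hΔ (by rw [h]; ring)
    have g2 : evA a d1 ≠ 0 := fun h => hΔ (by rw [h]; ring)
    have g3 : evA a d2 ≠ 0 := fun h => hΔ (by rw [h]; ring)
    have g4 : evA a χ.leadingCoeff ≠ 0 := fun h => hΔ (by rw [h]; ring)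
    refine ⟨natDegree_map_of_leadingCoeff_ne_zero _ g4, ?_, ?_, ?_⟩
    · intro t ht
      set p : τ → k := fun s => if s = b 0 then X1.eval₂ (evA a) t / evA a d else
        if s = b 1 then Y1.eval₂ (evA a) t / evA a d else a s with hp
      have hs : ∀ s, s ≠ b 0 → s ≠ b 1 → p s = a s := by
        intro s h0 h1
        simp only [hp, if_neg h0, if_neg h1]
      have hx : evA a d * p (b 0) = X1.eval₂ (evA a) t := by
        simp only [hp, if_true]
        field_simp
      have hy : evA a d * p (b 1) = Y1.eval₂ (evA a) t := by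
        simp only [hp, if_neg (Ne.symm hb), if_true]
        field_simp
      have r0 := hk0 k a p t hs hx hy
      have r1 := hk1 k a p t hs hx hy
      have r2 := hk2 k a p t hs hx hy
      have s0 := congrArg (eval₂ (evA a) t) hq0
      have s1 := congrArg (eval₂ (evA a) t) hq1
      have s2 := congrArg (eval₂ (evA a) t) hq2
      rw [eval₂_mul, eval₂_mul, ht, zero_mul, eval₂_C, mul_eq_zero] at s0 s1 s2
      have s0 := s0.resolve_left g1
      have s1 := s1.resolve_left g2
      have s2 := s2.resolve_left g3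
      rw [eval₂_add, r0, eval₂_C, map_mul, map_pow, evA_X] at s0
      rw [eval₂_add, r1, eval₂_C, map_mul, map_pow, evA_X] at s1
      rw [eval₂_sub, r2, eval₂_mul, eval₂_C, map_pow, eval₂_X] at s2
      refine ⟨p, hs, ?_, ?_, ?_⟩
      · have : evA a d ^ M0 * (evA p (Gd b m 0) + a (b 0)) = 0 := by linear_combination s0
        have := (mul_eq_zero.mp this).resolve_left (pow_ne_zero _ g0)
        linear_combination this
      · have : evA a d ^ M1 * (evA p (Gd b m 1) + a (b 1)) = 0 := by linear_combination s1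
        have := (mul_eq_zero.mp this).resolve_left (pow_ne_zero _ g0)
        linear_combination this
      · have : evA a d ^ M2 * (evA p (vcrit b m) - t) = 0 := by linear_combination s2
        have := (mul_eq_zero.mp this).resolve_left (pow_ne_zero _ g0)
        linear_combination this
    · intro t p p' hp hp'
      have e1 := hvan k a p t hp X1
      have e2 := hvan k a p' t hp' X1
      have e3 := hvan k a p t hp Y1
      have e4 := hvan k a p' t hp' Y1
      rw [hX1, map_mul, hpsi k a p t hp] at e1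
      rw [hX1, map_mul, hpsi k a p' t hp'] at e2
      rw [hY1, map_mul, hpsi k a p t hp] at e3
      rw [hY1, map_mul, hpsi k a p' t hp'] at e4
      unfold xy at e1 e2 e3 e4
      rw [evA_X] at e1 e2 e3 e4
      have h0 : p (b 0) = p' (b 0) := mul_left_cancel₀ g0 (by rw [e1, e2])
      have h1 : p (b 1) = p' (b 1) := mul_left_cancel₀ g0 (by rw [e3, e4])
      funext s
      by_cases hs0 : s = b 0
      · rw [hs0, h0]
      by_cases hs1 : s = b 1
      · rw [hs1, h1]
      rw [hp.1 s hs0 hs1, hp'.1 s hs0 hs1]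
    · intro t p hp h0
      have h1 := congrArg (evA p) hW
      rw [map_mul, h0, mul_zero, map_pow, hpsi k a p t hp] at h1
      exact g0 (pow_eq_zero_iff (two_ne_zero) |>.mp h1.symm)

end Pool.Agent.Helper90Frey
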