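import Pool.Agent.Helper90_Frey.Cert4
import Pool.Agent.Helper5_Frey.Gen
import Pool.Agent.Helper5_Frey.Rankin

/-!
# Counting on a line and in a box
-/

namespace Pool.Agent.Helper90Frey

open Polynomial Helper5Frey

lemma evA_int {σ : Type} (b : σ → ℤ) : evA b = MvPolynomial.eval b := by
  apply MvPolynomial.ringHom_ext
  · intro r
    simp [evA]
  · intro s
    simp [evA]

lemma card_fiber_gen {q : ℤ[X]} {n : ℕ} (hn : 0 < n) (hq : q.natDegree = n) (w : ℤ)
    (s : Finset ℤ) : (s.filter (fun c => q.eval (-c) = w)).card ≤ n := by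
  classical
  have hne : q - C w ≠ 0 := by
    intro h
    have h1 : q = C w := by linear_combination h
    rw [h1, natDegree_C] at hq
    omega
  calc (s.filter (fun c => q.eval (-c) = w)).card
      = ((s.filter (fun c => q.eval (-c) = w)).image (fun c => -c)).card := by
        rw [Finset.card_image_of_injective _ neg_injective]
    _ ≤ (q - C w).roots.toFinset.card := by
        apply Finset.card_le_card
        intro c hc
        rw [Finset.mem_image] at hc
        obtain ⟨c', hc', rfl⟩ := hc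
        rw [Finset.mem_filter] at hc'
        rw [Multiset.mem_toFinset, mem_roots hne]
        simp [hc'.2]
    _ ≤ (q - C w).roots.card := Multiset.toFinset_card_le _
    _ ≤ (q - C w).natDegree := card_roots' _
    _ ≤ n := natDegree_sub_C.le.trans hq.le

/-- **Counting on a line**: few constant terms give a small radical. -/
theorem line_count_gen {σ : Type} (Q : (MvPolynomial σ ℤ)[X]) (M : MvPolynomial σ ℤ) {n : ℕ}
    (hn : 0 < n) {η : ℝ} (hη : 0 < η) :
    ∃ C : ℝ, 0 < C ∧ ∀ H : ℕ, 1 ≤ H → ∀ b : σ → ℤ, (∀ i, (b i).natAbs ≤ H) →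
      evA b M ≠ 0 → (Q.map (evA b)).natDegree = n → ∀ Ns : ℤ → ℕ,
      (∀ c, (Q.map (evA b)).eval (-c) ≠ 0 →
        partRad (evA b M).natAbs ((Q.map (evA b)).eval (-c)).natAbs ≤ Ns c) →
      ∀ Y : ℝ, 1 ≤ Y →
      (((Finset.Icc (-(H : ℤ)) H).filter (fun c => (Q.map (evA b)).eval (-c) = 0 ∨
        (Ns c : ℝ) ≤ Y)).card : ℝ) ≤ C * Y * (Y * H) ^ η := by
  classical
  obtain ⟨C1, B1, hR⟩ := poly_bound Q
  obtain ⟨C2, B2, hM⟩ := mv_bound M
  set η' : ℝ := η / (B1 + B2 + 1) with hη'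
  have hden : (0 : ℝ) < B1 + B2 + 1 := by positivity
  have hη'0 : 0 < η' := by positivity
  obtain ⟨C3, hC3, hrank⟩ := rankin_count hη'0
  refine ⟨n + 1 + 2 * n * (C3 * ((C1 + 1 : ℝ) * (C2 + 1)) ^ η'), by positivity, ?_⟩
  intro H hH b hb hMb hdeg Ns hNs Y hY1
  have hH1 : (1 : ℝ) ≤ H := by exact_mod_cast hH
  have hH0 : (0 : ℝ) < H := by linarith
  have hY0 : 0 < Y := by linarith
  set q : ℤ[X] := Q.map (evA b) with hq
  set K : ℕ := (evA b M).natAbs with hK
  have hK1 : 1 ≤ K := Int.natAbs_pos.mpr hMb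
  set X' : ℕ := C1 * H ^ B1 with hX
  have hKle : K ≤ C2 * H ^ B2 := by
    rw [hK, evA_int]
    exact hM H b hH hb
  have hXle : ∀ c ∈ Finset.Icc (-(H : ℤ)) H, (q.eval (-c)).natAbs ≤ X' := by
    intro c hc
    rw [Finset.mem_Icc] at hc
    rw [hq, evA_int]
    apply hR H b (-c) hH hb
    omega
  set V := (Finset.Icc 1 X').filter (fun v => (partRad K v : ℝ) ≤ Y) with hV
  have hsub : (Finset.Icc (-(H : ℤ)) H).filter (fun c => q.eval (-c) = 0 ∨
        (Ns c : ℝ) ≤ Y) ⊆
      (Finset.Icc (-(H : ℤ)) H).filter (fun c => q.eval (-c) = 0) ∪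
      V.biUnion (fun v => (Finset.Icc (-(H : ℤ)) H).filter (fun c => q.eval (-c) = v) ∪
        (Finset.Icc (-(H : ℤ)) H).filter (fun c => q.eval (-c) = -v)) := by
    intro c hc
    rw [Finset.mem_filter] at hc
    obtain ⟨hc1, hc2⟩ := hc
    rw [Finset.mem_union]
    by_cases h0 : q.eval (-c) = 0
    · left
      exact Finset.mem_filter.mpr ⟨hc1, h0⟩
    · right
      rw [Finset.mem_biUnion]
      refine ⟨(q.eval (-c)).natAbs, ?_, ?_⟩
      · rw [hV, Finset.mem_filter, Finset.mem_Icc]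
        refine ⟨⟨Int.natAbs_pos.mpr h0, hXle c hc1⟩, ?_⟩
        have h1 := hNs c h0
        have h2 := hc2.resolve_left h0
        calc ((partRad K (q.eval (-c)).natAbs : ℕ) : ℝ) ≤ Ns c := by
              exact_mod_cast h1
          _ ≤ Y := h2
      · rw [Finset.mem_union, Finset.mem_filter, Finset.mem_filter]
        rcases Int.natAbs_eq (q.eval (-c)) with h | h
        · left
          exact ⟨hc1, h⟩
        · right
          exact ⟨hc1, h⟩
  have hcard : ((Finset.Icc (-(H : ℤ)) H).filter (fun c => q.eval (-c) = 0 ∨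
        (Ns c : ℝ) ≤ Y)).card ≤ n + V.card * (2 * n) := by
    refine (Finset.card_le_card hsub).trans ((Finset.card_union_le _ _).trans ?_)
    apply add_le_add (card_fiber_gen hn hdeg 0 _)
    apply Finset.card_biUnion_le_card_mul
    intro v _
    refine (Finset.card_union_le _ _).trans ?_
    have h1 := card_fiber_gen hn hdeg (v : ℤ) (Finset.Icc (-(H : ℤ)) H)
    have h2 := card_fiber_gen hn hdeg (-(v : ℤ)) (Finset.Icc (-(H : ℤ)) H)
    omega
  have hVc : (V.card : ℝ) ≤ C3 * Y * ((X' : ℝ) * Y * K) ^ η' := hrank X' K hK1 Y hY1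
  have hη'le : η' ≤ η := by
    rw [hη', div_le_iff₀ hden]
    have : (0 : ℝ) ≤ B1 + B2 := by positivity
    nlinarith
  have hXYK : ((X' : ℝ) * Y * K) ^ η' ≤ ((C1 + 1 : ℝ) * (C2 + 1)) ^ η' * (Y * H) ^ η := by
    have h1 : (X' : ℝ) * Y * K ≤ ((C1 + 1 : ℝ) * (C2 + 1)) * (Y * (H : ℝ) ^ ((B1 : ℝ) + B2)) := by
      have hx : (X' : ℝ) ≤ (C1 + 1 : ℝ) * (H : ℝ) ^ (B1 : ℝ) := by
        rw [hX, Real.rpow_natCast]
        push_cast
        gcongr
        linarith
      have hk : (K : ℝ) ≤ (C2 + 1 : ℝ) * (H : ℝ) ^ (B2 : ℝ) := by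
        rw [Real.rpow_natCast]
        calc (K : ℝ) ≤ ((C2 * H ^ B2 : ℕ) : ℝ) := by exact_mod_cast hKle
          _ = C2 * (H : ℝ) ^ B2 := by push_cast; ring
          _ ≤ _ := by
            gcongr
            linarith
      calc (X' : ℝ) * Y * K ≤ ((C1 + 1 : ℝ) * (H : ℝ) ^ (B1 : ℝ)) * Y *
            ((C2 + 1 : ℝ) * (H : ℝ) ^ (B2 : ℝ)) := by gcongr
        _ = ((C1 + 1 : ℝ) * (C2 + 1)) * (Y * ((H : ℝ) ^ (B1 : ℝ) * (H : ℝ) ^ (B2 : ℝ))) := by
            ring
        _ = _ := by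
            rw [← Real.rpow_add hH0]
    calc ((X' : ℝ) * Y * K) ^ η' ≤
          (((C1 + 1 : ℝ) * (C2 + 1)) * (Y * (H : ℝ) ^ ((B1 : ℝ) + B2))) ^ η' := by
          apply Real.rpow_le_rpow (by positivity) h1 hη'0.le
      _ = ((C1 + 1 : ℝ) * (C2 + 1)) ^ η' * (Y ^ η' * (H : ℝ) ^ (((B1 : ℝ) + B2) * η')) := by
          rw [Real.mul_rpow (by positivity : (0 : ℝ) ≤ (C1 + 1 : ℝ) * (C2 + 1)) (by positivity),
            Real.mul_rpow hY0.le (by positivity), ← Real.rpow_mul hH0.le]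
      _ ≤ ((C1 + 1 : ℝ) * (C2 + 1)) ^ η' * (Y ^ η * (H : ℝ) ^ η) := by
          apply mul_le_mul_of_nonneg_left _ (by positivity)
          apply mul_le_mul
          · exact Real.rpow_le_rpow_of_exponent_le hY1 hη'le
          · apply Real.rpow_le_rpow_of_exponent_le hH1
            rw [hη', mul_div_assoc', div_le_iff₀ hden]
            nlinarith
          · positivity
          · positivity
      _ = _ := by rw [Real.mul_rpow hY0.le hH0.le]
  set E : ℝ := ((C1 + 1 : ℝ) * (C2 + 1)) ^ η' with hE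
  have hE0 : 0 ≤ E := by positivity
  have hYH : 1 ≤ Y * H := one_le_mul_of_one_le_of_one_le hY1 hH1
  have hone : (1 : ℝ) ≤ Y * (Y * H) ^ η :=
    one_le_mul_of_one_le_of_one_le hY1 (Real.one_le_rpow hYH hη.le)
  calc _ ≤ ((n + V.card * (2 * n) : ℕ) : ℝ) := by exact_mod_cast hcard
    _ = n + V.card * (2 * n) := by push_cast; ring
    _ ≤ n + (C3 * Y * (E * (Y * H) ^ η)) * (2 * n) := by
        gcongr
        exact hVc.trans (by gcongr)
    _ = n * 1 + 2 * n * (C3 * E) * (Y * (Y * H) ^ η) := by ring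
    _ ≤ (n + 1) * (Y * (Y * H) ^ η) + 2 * n * (C3 * E) * (Y * (Y * H) ^ η) := by
        gcongr
        linarith
    _ = _ := by ring

/-- Zeros of a nonzero polynomial in a box (Schwartz and Zippel). -/
theorem zeros_count {σ : Type} [Fintype σ] [DecidableEq σ] (M : MvPolynomial σ ℤ) (hM : M ≠ 0)
    (w : σ → ℕ) (hw : ∀ i, 1 ≤ w i) : ∃ C : ℝ, 0 < C ∧ ∀ B : ℕ, 1 ≤ B →
    (((Fintype.piFinset (fun i : σ => Finset.Icc (-((B ^ w i : ℕ) : ℤ)) ((B ^ w i : ℕ) : ℤ))).filter
      (fun b => evA b M = 0)).card : ℝ) * B ≤ C * (B : ℝ) ^ (∑ i, w i) := by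
  classical
  set n := Fintype.card σ with hn
  set eq := Fintype.equivFin σ with heq
  set M' : MvPolynomial (Fin n) ℤ := MvPolynomial.rename eq M with hM'
  have hM'0 : M' ≠ 0 := by
    intro h
    exact hM (MvPolynomial.rename_injective eq eq.injective (by rw [map_zero]; exact h))
  refine ⟨(∑ i, ((M'.degreeOf i : ℕ) : ℝ) + 1) * 3 ^ n, by positivity, ?_⟩
  intro B hB
  have hB1 : (1 : ℝ) ≤ B := by exact_mod_cast hB
  have hB0 : (0 : ℝ) < B := by linarith
  set S : Fin n → Finset ℤ := fun i =>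
    Finset.Icc (-((B ^ w (eq.symm i) : ℕ) : ℤ)) ((B ^ w (eq.symm i) : ℕ) : ℤ) with hS
  have hcS : ∀ i, (S i).card = 2 * B ^ w (eq.symm i) + 1 := by
    intro i
    rw [hS]
    simp only
    rw [Int.card_Icc]
    omega
  have hSZ := MvPolynomial.schwartz_zippel_sum_degreeOf hM'0 S
  set N := ((Fintype.piFinset S).filter (fun x => MvPolynomial.eval x M' = 0)).card with hN
  have hcard : ((Fintype.piFinset (fun i : σ => Finset.Icc (-((B ^ w i : ℕ) : ℤ))
      ((B ^ w i : ℕ) : ℤ))).filter (fun b => evA b M = 0)).card ≤ N := by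
    rw [hN]
    apply Finset.card_le_card_of_injOn (fun b => b ∘ eq.symm)
    · intro b hb
      rw [Finset.mem_coe, Finset.mem_filter, Fintype.mem_piFinset] at hb
      rw [Finset.mem_coe, Finset.mem_filter, Fintype.mem_piFinset]
      refine ⟨fun i => hb.1 (eq.symm i), ?_⟩
      rw [hM', MvPolynomial.eval_rename]
      have : (b ∘ eq.symm) ∘ eq = b := by
        funext i
        simp
      rw [this, ← evA_int]
      exact hb.2
    · intro b _ b' _ h
      funext i
      have := congrFun h (eq i)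
      simpa using this
  have h2 : (N : ℝ) / ∏ i, (((S i).card : ℕ) : ℝ) ≤
      ∑ i, ((M'.degreeOf i : ℕ) : ℝ) / (((S i).card : ℕ) : ℝ) := by
    have h3 := (NNRat.cast_le (K := ℝ)).mpr hSZ
    push_cast at h3
    exact h3
  have hP : 0 < ∏ i, (((S i).card : ℕ) : ℝ) := by
    apply Finset.prod_pos
    intro i _
    rw [hcS]
    positivity
  rw [div_le_iff₀ hP] at h2
  have h4 : ∑ i, ((M'.degreeOf i : ℕ) : ℝ) / (((S i).card : ℕ) : ℝ) ≤
      (∑ i, ((M'.degreeOf i : ℕ) : ℝ)) / B := by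
    rw [Finset.sum_div]
    apply Finset.sum_le_sum
    intro i _
    apply div_le_div_of_nonneg_left (by positivity) hB0
    rw [hcS]
    have h5 : B ≤ B ^ w (eq.symm i) := Nat.le_self_pow (by have := hw (eq.symm i); omega) B
    have h6 : B ≤ 2 * B ^ w (eq.symm i) + 1 := by omega
    exact_mod_cast h6
  have h7 : ∏ i, (((S i).card : ℕ) : ℝ) ≤ 3 ^ n * (B : ℝ) ^ (∑ i, w i) := by
    calc ∏ i, (((S i).card : ℕ) : ℝ) ≤ ∏ i : Fin n, (3 * (B : ℝ) ^ w (eq.symm i)) := by
          apply Finset.prod_le_prod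
          · intro i _
            positivity
          · intro i _
            rw [hcS]
            push_cast
            have : (1 : ℝ) ≤ (B : ℝ) ^ w (eq.symm i) := one_le_pow₀ hB1
            linarith
      _ = 3 ^ n * (B : ℝ) ^ (∑ i, w i) := by
          rw [Finset.prod_mul_distrib, Finset.prod_const, Finset.card_univ, Fintype.card_fin,
            Finset.prod_pow_eq_pow_sum, Equiv.sum_comp eq.symm w]
  have h8 : (((Fintype.piFinset (fun i : σ => Finset.Icc (-((B ^ w i : ℕ) : ℤ))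
      ((B ^ w i : ℕ) : ℤ))).filter (fun b => evA b M = 0)).card : ℝ) ≤ N := by exact_mod_cast hcard
  refine le_trans (mul_le_mul_of_nonneg_right h8 hB0.le) ?_
  set d : ℝ := ∑ i, ((M'.degreeOf i : ℕ) : ℝ) with hd
  have hd0 : 0 ≤ d := Finset.sum_nonneg fun i _ => Nat.cast_nonneg _
  set Pr : ℝ := ∏ i, (((S i).card : ℕ) : ℝ) with hPr
  have h9 : (N : ℝ) ≤ d / B * Pr := h2.trans (mul_le_mul_of_nonneg_right h4 hP.le)
  calc (N : ℝ) * B ≤ (d / B * Pr) * B := mul_le_mul_of_nonneg_right h9 hB0.le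
    _ = d * Pr := by
        field_simp
    _ ≤ (d + 1) * (3 ^ n * (B : ℝ) ^ (∑ i, w i)) :=
        mul_le_mul (by linarith) h7 hP.le (by linarith)
    _ = _ := by ring

end Pool.Agent.Helper90Frey
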