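import Pool.Agent.Helper90_Frey.Arith

/-!
# At least two critical values
-/

namespace Pool.Agent.Helper90Frey

open Polynomial Filter Topology

section general

variable {τ : Type} [Fintype τ] [DecidableEq τ] (b : Fin 2 → τ)
  (m : τ → MvPolynomial (Fin 2) ℤ)

/-- The differential of a polynomial function. -/
noncomputable def dif (Q : MvPolynomial τ ℤ) (p : τ → ℝ) : (τ → ℝ) →L[ℝ] ℝ :=
  ∑ s, (evA p (MvPolynomial.pderiv s Q)) • (ContinuousLinearMap.proj s : (τ → ℝ) →L[ℝ] ℝ)

omit [DecidableEq τ] in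
lemma dif_apply (Q : MvPolynomial τ ℤ) (p δ : τ → ℝ) :
    dif Q p δ = ∑ s, evA p (MvPolynomial.pderiv s Q) * δ s := by
  unfold dif
  rw [sum_apply]
  rfl

lemma dif_X (r : τ) (p : τ → ℝ) :
    dif (MvPolynomial.X r) p = (ContinuousLinearMap.proj r : (τ → ℝ) →L[ℝ] ℝ) := by
  ext δ
  rw [dif_apply, Finset.sum_eq_single r]
  · rw [MvPolynomial.pderiv_X_self, map_one, one_mul]
    rfl
  · intro s _ hs
    rw [MvPolynomial.pderiv_X_of_ne (Ne.symm hs), map_zero, zero_mul]
  · intro h
    exact absurd (Finset.mem_univ _) h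

/-- The derivative of the evaluation. -/
lemma evA_hasStrictFDerivAt (Q : MvPolynomial τ ℤ) (p : τ → ℝ) :
    HasStrictFDerivAt (fun p : τ → ℝ => evA p Q) (dif Q p) p := by
  induction Q using MvPolynomial.induction_on with
  | C c =>
    have h1 : dif (MvPolynomial.C c : MvPolynomial τ ℤ) p = 0 := by
      ext δ
      rw [dif_apply]
      simp
    rw [h1]
    simp only [evA_C]
    exact hasStrictFDerivAt_const _ _
  | add f g hf hg =>
    have h1 : dif (f + g) p = dif f p + dif g p := by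
      ext δ
      rw [add_apply, dif_apply, dif_apply, dif_apply,
        ← Finset.sum_add_distrib]
      apply Finset.sum_congr rfl
      intro s _
      rw [map_add, map_add]
      ring
    rw [h1]
    simp only [map_add]
    exact hf.add hg
  | mul_X f r hf =>
    have h1 : dif (f * MvPolynomial.X r) p =
        evA p f • (ContinuousLinearMap.proj r : (τ → ℝ) →L[ℝ] ℝ) + p r • dif f p := by
      ext δ
      rw [← dif_X r p, add_apply, smul_apply,
        smul_apply, dif_apply, dif_apply, dif_apply, smul_eq_mul, smul_eq_mul,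
        Finset.mul_sum, Finset.mul_sum, ← Finset.sum_add_distrib]
      apply Finset.sum_congr rfl
      intro s _
      rw [Derivation.leibniz, smul_eq_mul, smul_eq_mul, map_add, map_mul, map_mul, evA_X]
      ring
    rw [h1]
    simp only [map_mul, evA_X]
    exact hf.mul (ContinuousLinearMap.hasStrictFDerivAt
      (ContinuousLinearMap.proj r : (τ → ℝ) →L[ℝ] ℝ))

/-- The real map attached to the substitution. -/
noncomputable def psiR (p : τ → ℝ) (s : τ) : ℝ := evA p (gsub b m s)

lemma psiR_hasStrictFDerivAt (p : τ → ℝ) :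
    HasStrictFDerivAt (psiR b m) (ContinuousLinearMap.pi fun s => dif (gsub b m s) p) p :=
  hasStrictFDerivAt_pi.mpr fun s => evA_hasStrictFDerivAt (gsub b m s) p

lemma psiR_surj (hb : b 0 ≠ b 1) (p : τ → ℝ) (hp : evA p (hess b m) ≠ 0) :
    (ContinuousLinearMap.pi fun s => dif (gsub b m s) p : (τ → ℝ) →L[ℝ] (τ → ℝ)).range = ⊤ := by
  rw [LinearMap.range_eq_top]
  intro w
  set E : Fin 2 → ℝ := fun i => -w (b i) - ∑ s, if s = b 0 ∨ s = b 1 then 0 else
    evA p (MvPolynomial.pderiv s (Gd b m i)) * w s with hE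
  set A := evA p (Gdd b m 0 0) with hA
  set B := evA p (Gdd b m 0 1) with hB
  set D := evA p (Gdd b m 1 1) with hD
  have hdet : A * D - B * B ≠ 0 := by
    have : evA p (hess b m) = A * D - B * B := by
      unfold hess
      rw [map_sub, map_mul, map_mul]
    rwa [this] at hp
  set δ : τ → ℝ := fun s => if s = b 0 then (D * E 0 - B * E 1) / (A * D - B * B) else
    if s = b 1 then (A * E 1 - B * E 0) / (A * D - B * B) else w s with hδ
  have hδ0 : δ (b 0) = (D * E 0 - B * E 1) / (A * D - B * B) := by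
    simp only [hδ, if_true]
  have hδ1 : δ (b 1) = (A * E 1 - B * E 0) / (A * D - B * B) := by
    simp only [hδ, if_neg (Ne.symm hb), if_true]
  have hsplit : ∀ φ : τ → ℝ, ∑ s, φ s * δ s = φ (b 0) * δ (b 0) + φ (b 1) * δ (b 1) +
      ∑ s, if s = b 0 ∨ s = b 1 then 0 else φ s * w s := by
    intro φ
    have h1 : ∀ s, φ s * δ s = (if s = b 0 then φ (b 0) * δ (b 0) else 0) +
        (if s = b 1 then φ (b 1) * δ (b 1) else 0) +
        (if s = b 0 ∨ s = b 1 then 0 else φ s * w s) := by
      intro s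
      by_cases h0 : s = b 0
      · subst h0
        simp [hb]
      · by_cases h1 : s = b 1
        · subst h1
          simp [Ne.symm hb]
        · simp [h0, h1, hδ]
    rw [Finset.sum_congr rfl (fun s _ => h1 s), Finset.sum_add_distrib, Finset.sum_add_distrib,
      Finset.sum_ite_eq' Finset.univ (b 0), Finset.sum_ite_eq' Finset.univ (b 1),
      if_pos (Finset.mem_univ _), if_pos (Finset.mem_univ _)]
  have hs0 : A * δ (b 0) + B * δ (b 1) = E 0 := by
    rw [hδ0, hδ1, ← mul_div_assoc, ← mul_div_assoc, ← add_div, div_eq_iff hdet]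
    ring
  have hs1 : B * δ (b 0) + D * δ (b 1) = E 1 := by
    rw [hδ0, hδ1, ← mul_div_assoc, ← mul_div_assoc, ← add_div, div_eq_iff hdet]
    ring
  have hneg : ∀ i : Fin 2, (∑ s, if s = b 0 ∨ s = b 1 then 0 else
      -(evA p (MvPolynomial.pderiv s (Gd b m i)) * w s)) = E i + w (b i) := by
    intro i
    have h3 : E i + w (b i) = -∑ s, if s = b 0 ∨ s = b 1 then 0 else
        evA p (MvPolynomial.pderiv s (Gd b m i)) * w s := by
      simp only [hE]
      ring
    rw [h3, ← Finset.sum_neg_distrib]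
    apply Finset.sum_congr rfl
    intro s _
    split_ifs
    · ring
    · ring
  refine ⟨δ, ?_⟩
  funext s
  change dif (gsub b m s) p δ = w s
  by_cases h0 : s = b 0
  · subst h0
    rw [gsub_zero, dif_apply, hsplit]
    simp only [map_neg, neg_mul]
    change -(A * δ (b 0)) + -(B * δ (b 1)) + _ = _
    rw [hneg]
    linarith
  by_cases h1 : s = b 1
  · subst h1
    rw [gsub_one b m hb, dif_apply, hsplit]
    simp only [map_neg, neg_mul]
    change -(evA p (Gdd b m 1 0) * δ (b 0)) + -(D * δ (b 1)) + _ = _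
    rw [hneg, Gdd_comm b m 1 0]
    change -(B * _) + _ + _ = _
    linarith
  · rw [gsub_other b m h0 h1, dif_X]
    change δ s = w s
    simp only [hδ, if_neg h0, if_neg h1]

/-- A nonzero polynomial does not vanish on a neighbourhood. -/
lemma exists_evA_ne_zero {Q : MvPolynomial τ ℤ} (hQ : Q ≠ 0) {a : τ → ℝ} {W : Set (τ → ℝ)}
    (hW : W ∈ 𝓝 a) : ∃ a' ∈ W, evA a' Q ≠ 0 := by
  by_contra hcon
  push Not at hcon
  obtain ⟨ε, hε, hball⟩ := Metric.mem_nhds_iff.mp hW
  have hinf : ∀ s : τ, (Metric.ball (a s) ε).Infinite := by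
    intro s
    rw [Real.ball_eq_Ioo]
    exact Set.Ioo_infinite (by linarith)
  have h0 : MvPolynomial.map (Int.castRingHom ℝ) Q = 0 := by
    apply MvPolynomial.funext_set (fun s => Metric.ball (a s) ε) hinf
    intro x hx
    rw [map_zero, MvPolynomial.eval_map]
    apply hcon x
    apply hball
    rw [ball_pi a hε]
    exact hx
  apply hQ
  apply MvPolynomial.map_injective (Int.castRingHom ℝ) (RingHom.injective_int _)
  rw [h0, map_zero]

/-- **Two critical points give two critical values.** -/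
theorem two_le_natDegree (hb : b 0 ≠ b 1) (χ : (MvPolynomial τ ℤ)[X]) (Δ : MvPolynomial τ ℤ)
    (hΔ : Δ ≠ 0) (hdeg : 0 < χ.natDegree)
    (hcrit : ∀ (a p : τ → ℝ) (t : ℝ), IsCrit b m a p t → χ.eval₂ (evA a) t = 0)
    (hspec : ∀ (a : τ → ℝ), evA a Δ ≠ 0 →
        (χ.map (evA a)).natDegree = χ.natDegree ∧
        (∀ t p p', IsCrit b m a p t → IsCrit b m a p' t → p = p'))
    (p₁ p₂ : τ → ℝ) (hne : p₁ ≠ p₂) (heq : psiR b m p₁ = psiR b m p₂)
    (h1 : evA p₁ (hess b m) ≠ 0) (h2 : evA p₂ (hess b m) ≠ 0) : 2 ≤ χ.natDegree := by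
  by_contra hcon
  have hone : χ.natDegree = 1 := by omega
  obtain ⟨U₁, U₂, hU₁, hU₂, hm₁, hm₂, hdisj⟩ := t2_separation hne
  have n1 := (psiR_hasStrictFDerivAt b m p₁).map_nhds_eq_of_surj (psiR_surj b m hb p₁ h1)
  have n2 := (psiR_hasStrictFDerivAt b m p₂).map_nhds_eq_of_surj (psiR_surj b m hb p₂ h2)
  have w1 : psiR b m '' U₁ ∈ 𝓝 (psiR b m p₁) := by
    rw [← n1]
    exact image_mem_map (hU₁.mem_nhds hm₁)
  have w2 : psiR b m '' U₂ ∈ 𝓝 (psiR b m p₁) := by
    rw [heq, ← n2]
    exact image_mem_map (hU₂.mem_nhds hm₂)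
  obtain ⟨a, ⟨⟨q₁, hq₁, e1⟩, ⟨q₂, hq₂, e2⟩⟩, ha⟩ := exists_evA_ne_zero hΔ (inter_mem w1 w2)
  have hcr : ∀ q, psiR b m q = a → IsCrit b m a q (evA q (vcrit b m)) := by
    intro q hq
    have hq' : ∀ s, evA q (gsub b m s) = a s := fun s => congrFun hq s
    refine ⟨?_, ?_, ?_, rfl⟩
    · intro s h0 h1
      rw [← hq' s, gsub_other b m h0 h1, evA_X]
    · rw [← hq' (b 0), gsub_zero, map_neg, neg_neg]
    · rw [← hq' (b 1), gsub_one b m hb, map_neg, neg_neg]
  have c1 := hcr q₁ e1
  have c2 := hcr q₂ e2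
  obtain ⟨hd, huniq⟩ := hspec a ha
  have r1 := hcrit _ _ _ c1
  have r2 := hcrit _ _ _ c2
  rw [← eval_map] at r1 r2
  have hd1 : (χ.map (evA a)).natDegree = 1 := hd.trans hone
  have hteq : evA q₁ (vcrit b m) = evA q₂ (vcrit b m) := by
    rw [eval_eq_sum_range, hd1, Finset.sum_range_succ, Finset.sum_range_one] at r1 r2
    have hlc : (χ.map (evA a)).coeff 1 ≠ 0 := by
      rw [← hd1]
      intro h
      have := leadingCoeff_eq_zero.mp h
      rw [this, natDegree_zero] at hd1
      omega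
    apply mul_left_cancel₀ hlc
    linear_combination r1 - r2
  rw [← hteq] at c2
  have := huniq _ _ _ c1 c2
  rw [this] at hq₁
  exact Set.disjoint_left.mp hdisj hq₁ hq₂

end general

section example_

variable {u v D : ℕ} (hu : 0 < u) (hv : 0 < v) (huD : u ≤ D) (hvD : v ≤ D)

open MvPolynomial in
/-- Two critical points of the curve `mon s₁ + mon s₂ + linear`. -/
lemma exists_two_crit (s₁ s₂ : tau u v D) (h12 : s₁ ≠ s₂)
    (h1 : ∀ i, lin hu hv huD hvD i ≠ s₁) (h2 : ∀ i, lin hu hv huD hvD i ≠ s₂)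
    (z z' : Fin 2 → ℝ) (hz : z ≠ z')
    (hg : ∀ i : Fin 2, aeval z (pderiv i (mon s₁)) + aeval z (pderiv i (mon s₂)) =
      aeval z' (pderiv i (mon s₁)) + aeval z' (pderiv i (mon s₂)))
    (hh : ∀ w ∈ ({z, z'} : Set (Fin 2 → ℝ)),
      (aeval w (pderiv 0 (pderiv 0 (mon s₁))) + aeval w (pderiv 0 (pderiv 0 (mon s₂)))) *
      (aeval w (pderiv 1 (pderiv 1 (mon s₁))) + aeval w (pderiv 1 (pderiv 1 (mon s₂)))) -
      (aeval w (pderiv 1 (pderiv 0 (mon s₁))) + aeval w (pderiv 1 (pderiv 0 (mon s₂)))) *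
      (aeval w (pderiv 1 (pderiv 0 (mon s₁))) + aeval w (pderiv 1 (pderiv 0 (mon s₂)))) ≠ 0) :
    ∃ p₁ p₂ : tau u v D → ℝ, p₁ ≠ p₂ ∧
      psiR (lin hu hv huD hvD) (mon : tau u v D → _) p₁ = psiR (lin hu hv huD hvD) mon p₂ ∧
      evA p₁ (hess (lin hu hv huD hvD) (mon : tau u v D → _)) ≠ 0 ∧
      evA p₂ (hess (lin hu hv huD hvD) (mon : tau u v D → _)) ≠ 0 := by
  classical
  set α : tau u v D → ℝ := fun s => if s = s₁ ∨ s = s₂ then 1 else 0 with hα
  have hsum : ∀ φ : tau u v D → ℝ, ∑ s : tau u v D, α s * φ s = φ s₁ + φ s₂ := by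
    intro φ
    rw [Finset.sum_eq_add s₁ s₂ h12]
    · simp [hα]
    · intro s _ hs
      simp [hα, hs.1, hs.2]
    · intro h
      exact absurd (Finset.mem_univ _) h
    · intro h
      exact absurd (Finset.mem_univ _) h
  have hl : ∀ i, α (lin hu hv huD hvD i) = 0 := by
    intro i
    simp only [hα]
    rw [if_neg]
    rintro (h | h)
    · exact h1 i h
    · exact h2 i h
  have hT : ∀ (T : MvPolynomial (Fin 2) ℤ → MvPolynomial (Fin 2) ℤ) (w : Fin 2 → ℝ),
      evA (pt hu hv huD hvD α w) (∑ s : tau u v D, if s = lin hu hv huD hvD 0 ∨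
        s = lin hu hv huD hvD 1 then 0 else X s * rename (lin hu hv huD hvD) (T (mon s))) =
      aeval w (T (mon s₁)) + aeval w (T (mon s₂)) := by
    intro T w
    have h3 := evA_sum hu hv huD hvD α w T
    rw [hl, hl, zero_mul, zero_mul, add_zero, add_zero, hsum] at h3
    exact h3
  have hGd : ∀ (i : Fin 2) (w : Fin 2 → ℝ), evA (pt hu hv huD hvD α w)
      (Gd (lin hu hv huD hvD) mon i) =
      aeval w (pderiv i (mon s₁)) + aeval w (pderiv i (mon s₂)) := by
    intro i w
    rw [Gd_eq]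
    exact hT (fun Q => pderiv i Q) w
  have hGdd : ∀ (i j : Fin 2) (w : Fin 2 → ℝ), evA (pt hu hv huD hvD α w)
      (Gdd (lin hu hv huD hvD) mon i j) =
      aeval w (pderiv j (pderiv i (mon s₁))) + aeval w (pderiv j (pderiv i (mon s₂))) := by
    intro i j w
    rw [Gdd_eq]
    exact hT (fun Q => pderiv j (pderiv i Q)) w
  have hH : ∀ w ∈ ({z, z'} : Set (Fin 2 → ℝ)), evA (pt hu hv huD hvD α w)
      (hess (lin hu hv huD hvD) (mon : tau u v D → _)) ≠ 0 := by
    intro w hw
    unfold hess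
    rw [map_sub, map_mul, map_mul, hGdd, hGdd, hGdd]
    exact hh w hw
  refine ⟨pt hu hv huD hvD α z, pt hu hv huD hvD α z', ?_, ?_, hH z (by simp), hH z' (by simp)⟩
  · intro h
    apply hz
    funext i
    have h3 := congrFun h (lin hu hv huD hvD i)
    rwa [pt_lin, pt_lin] at h3
  · funext s
    unfold psiR
    by_cases h0 : s = lin hu hv huD hvD 0
    · rw [h0, gsub_zero, map_neg, map_neg, hGd, hGd, hg]
    by_cases h3 : s = lin hu hv huD hvD 1
    · rw [h3, gsub_one _ _ (lin_ne hu hv huD hvD), map_neg, map_neg, hGd, hGd, hg]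
    · rw [gsub_other _ _ h0 h3, evA_X, evA_X]
      unfold pt
      rw [if_neg h0, if_neg h3, if_neg h0, if_neg h3]

/-- An exponent as an element of `tau`. -/
def mk (i j : ℕ) (hij : u * i + v * j ≤ D) (h0 : 0 < i + j) : tau u v D :=
  ⟨⟨(i, j), (mem_full hu hv).mpr hij⟩, by
    unfold origin
    intro h
    have h1 := congrArg (fun s : full u v D => s.1.1 + s.1.2) h
    simp only at h1
    omega⟩

/-- The two critical points for the triangles of the family. -/
lemma exists_two_crit' (h : (3 * u ≤ D ∧ 2 * v ≤ D) ∨ (2 * u ≤ D ∧ 3 * v ≤ D)) :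
    ∃ p₁ p₂ : tau u v D → ℝ, p₁ ≠ p₂ ∧
      psiR (lin hu hv huD hvD) (mon : tau u v D → _) p₁ = psiR (lin hu hv huD hvD) mon p₂ ∧
      evA p₁ (hess (lin hu hv huD hvD) (mon : tau u v D → _)) ≠ 0 ∧
      evA p₂ (hess (lin hu hv huD hvD) (mon : tau u v D → _)) ≠ 0 := by
  have hn : ∀ i : Fin 2, MvPolynomial.pderiv i (3 : MvPolynomial (Fin 2) ℤ) = 0 := by
    intro i
    have h1 : (3 : MvPolynomial (Fin 2) ℤ) = MvPolynomial.C 3 := (map_ofNat MvPolynomial.C 3).symm
    rw [h1, MvPolynomial.pderiv_C]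
  have hlin : ∀ (i : Fin 2), (lin hu hv huD hvD i).1.1.1 + (lin hu hv huD hvD i).1.1.2 = 1 := by
    intro i
    fin_cases i
    · rfl
    · rfl
  rcases h with ⟨h3, h2⟩ | ⟨h2, h3⟩
  · have m1 : (mon (mk hu hv 3 0 (by omega) (by omega) : tau u v D)) =
        (MvPolynomial.X 0 : MvPolynomial (Fin 2) ℤ) ^ 3 := by
      simp [mon, mk]
    have m2 : (mon (mk hu hv 0 2 (by omega) (by omega) : tau u v D)) =
        (MvPolynomial.X 1 : MvPolynomial (Fin 2) ℤ) ^ 2 := by
      simp [mon, mk]
    apply exists_two_crit hu hv huD hvD (mk hu hv 3 0 (by omega) (by omega))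
      (mk hu hv 0 2 (by omega) (by omega)) ?_ ?_ ?_ ![1, 0] ![-1, 0] ?_ ?_ ?_
    · intro h
      have := congrArg (fun s : tau u v D => s.1.1.1) h
      simp [mk] at this
    · intro i h
      have h4 := hlin i
      rw [h] at h4
      simp [mk] at h4
    · intro i h
      have h4 := hlin i
      rw [h] at h4
      simp [mk] at h4
    · intro h
      have := congrFun h 0
      simp at this
      norm_num at this
    · intro i
      rw [m1, m2]
      fin_cases i
      · simp [Derivation.leibniz_pow]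
      · simp [Derivation.leibniz_pow]
    · intro w hw
      rw [m1, m2]
      rcases hw with rfl | rfl
      · simp [Derivation.leibniz_pow, hn]
      · simp [Derivation.leibniz_pow, hn]
  · have m1 : (mon (mk hu hv 2 0 (by omega) (by omega) : tau u v D)) =
        (MvPolynomial.X 0 : MvPolynomial (Fin 2) ℤ) ^ 2 := by
      simp [mon, mk]
    have m2 : (mon (mk hu hv 0 3 (by omega) (by omega) : tau u v D)) =
        (MvPolynomial.X 1 : MvPolynomial (Fin 2) ℤ) ^ 3 := by
      simp [mon, mk]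
    apply exists_two_crit hu hv huD hvD (mk hu hv 2 0 (by omega) (by omega))
      (mk hu hv 0 3 (by omega) (by omega)) ?_ ?_ ?_ ![0, 1] ![0, -1] ?_ ?_ ?_
    · intro h
      have := congrArg (fun s : tau u v D => s.1.1.1) h
      simp [mk] at this
    · intro i h
      have h4 := hlin i
      rw [h] at h4
      simp [mk] at h4
    · intro i h
      have h4 := hlin i
      rw [h] at h4
      simp [mk] at h4
    · intro h
      have := congrFun h 1
      simp at this
      norm_num at this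
    · intro i
      rw [m1, m2]
      fin_cases i
      · simp [Derivation.leibniz_pow]
      · simp [Derivation.leibniz_pow]
    · intro w hw
      rw [m1, m2]
      rcases hw with rfl | rfl
      · simp [Derivation.leibniz_pow, hn]
      · simp [Derivation.leibniz_pow, hn]

end example_

end Pool.Agent.Helper90Frey
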