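import Pool.Agent.Helper90_Frey.Final

/-!
# Frey's inequality for a set of density one
-/

namespace Pool.Agent.Helper90Frey

open Polynomial Helper5Frey

variable {u v D : ℕ}

/-- **Main theorem, density one.** -/
theorem main_density (hu : 0 < u) (hv : 0 < v) (huD : u ∣ D) (hvD : v ∣ D) (hg : u + v < D)
    (α β ω : ℕ) (hω : ∀ s ∈ full u v D, α * s.1 + β * s.2 < ω) (κ : ℝ)
    (hκ : (∑ s : hol u v D, ((ω : ℝ) - (α * (s.1.1 + 1) + β * (s.1.2 + 1)))) / (2 * ω) < κ)
    (δ : ℝ) (hδ : 0 < δ) :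
    ∃ B₁ : ℕ, ∀ B : ℕ, B₁ ≤ B → ∀ T : Finset (full u v D → ℤ),
      (∀ a ∈ T, (∀ s, (a s).natAbs ≤ B ^ (ω - (α * s.1.1 + β * s.1.2))) ∧ ¬ FreyHolds κ a) →
      (T.card : ℝ) ≤ δ * (B : ℝ) ^ (∑ s : full u v D, (ω - (α * s.1.1 + β * s.1.2))) := by
  classical
  set w : full u v D → ℕ := fun s => ω - (α * s.1.1 + β * s.1.2) with hw
  have hw1 : ∀ s : full u v D, 1 ≤ w s := by
    intro s
    have := hω s.1 s.2
    simp only [hw]
    omega
  have hwadd : ∀ s : full u v D, w s + (α * s.1.1 + β * s.1.2) = ω := by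
    intro s
    have := hω s.1 s.2
    simp only [hw]
    omega
  have hwo : w (origin u v D) = ω := by
    have := hwadd (origin u v D)
    have h1 : (origin u v D).1.1 = 0 := rfl
    have h2 : (origin u v D).1.2 = 0 := rfl
    rw [h1, h2] at this
    simpa using this
  have hω0 : 0 < ω := by
    rw [← hwo]
    exact hw1 _
  have hωR : (0 : ℝ) < ω := by exact_mod_cast hω0
  set S : ℝ := ∑ s : hol u v D, ((ω : ℝ) - (α * (s.1.1 + 1) + β * (s.1.2 + 1))) with hS
  have hS0 : 0 ≤ S := sum_nonneg' hu hv α β ω hω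
  have hκ0 : 0 < κ := lt_of_le_of_lt (by positivity) hκ
  set e : ℕ := D / v with he
  set g : ℝ := (Fintype.card (hol u v D) : ℝ) with hgd
  have hg0 : 0 ≤ g := Nat.cast_nonneg _
  set θ : ℝ := 2 * κ * ω - S with hθ
  have hθ0 : 0 < θ := by
    rw [div_lt_iff₀ (by positivity)] at hκ
    linarith
  -- the parameters
  set ε : ℝ := min (1 / 2) (θ / (4 * (g * e + 1))) with hε
  have hge : 0 ≤ g * e := by positivity
  have hε0 : 0 < ε := by positivity
  have hε2 : ε ≤ 1 / 2 := min_le_left _ _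
  have hεθ : g * e * ε ≤ θ / 4 := by
    have h1 : ε ≤ θ / (4 * (g * e + 1)) := min_le_right _ _
    rw [le_div_iff₀ (by positivity)] at h1
    nlinarith
  set ε' : ℝ := min (1 / 2) (θ / (4 * (κ * ω))) with hε'
  have hε'0 : 0 < ε' := by positivity
  have hε'2 : ε' ≤ 1 / 2 := min_le_left _ _
  have hε'θ : κ * ω * ε' ≤ θ / 4 := by
    have h1 : ε' ≤ θ / (4 * (κ * ω)) := min_le_right _ _
    rw [le_div_iff₀ (by positivity)] at h1
    linarith
  obtain ⟨χ, M, hM0, hdeg, hlead, hbez, hfam⟩ :=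
    exists_family (u := u) (v := v) (D := D) hu hv huD hvD hg
  set F3 : ℝ := 3 ^ Fintype.card (full u v D) with hF3
  have hF30 : 0 < F3 := by positivity
  set T3 : ℝ := 3 ^ Fintype.card (tau u v D) with hT3
  have hT30 : 0 < T3 := by positivity
  set δ' : ℝ := δ / (4 * T3) with hδ'
  have hδ'0 : 0 < δ' := by positivity
  obtain ⟨H₀, hline⟩ := line_count_rad χ M hdeg hlead hbez hε'0 hδ'0
  obtain ⟨C2, hC2, hzero⟩ := zeros_count M hM0 (fun s : tau u v D => w s.1) (fun s => hw1 s.1)
  obtain ⟨C3, hheight⟩ := height_box (u := u) hu hv hvD (by omega) α β ω hω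
  -- the thresholds
  set B0 : ℝ := Real.exp (4 * |C3| / θ) with hB0
  set B3 : ℝ := (4 * F3 / δ) ^ (1 / ε) with hB3
  set B4 : ℝ := 12 * C2 / δ with hB4
  set N : ℕ := ∑ s : full u v D, w s with hN
  set N' : ℕ := ∑ s : tau u v D, w s.1 with hN'
  have hNN : N = ω + N' := by
    rw [hN, hN', Fintype.sum_eq_add_sum_subtype_ne _ (origin u v D), hwo]
  refine ⟨max (max H₀ 1) (max ⌈B0⌉₊ (max ⌈B3⌉₊ ⌈B4⌉₊)), ?_⟩
  intro B hBB T hT
  have hBH : H₀ ≤ B := le_trans (le_trans (le_max_left _ _) (le_max_left _ _)) hBB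
  have hB : 1 ≤ B := le_trans (le_trans (le_max_right _ _) (le_max_left _ _)) hBB
  have hBB0 : B0 ≤ B := (Nat.le_ceil _).trans (by
    exact_mod_cast le_trans (le_trans (le_max_left _ _) (le_max_right _ _)) hBB)
  have hBB3 : B3 ≤ B := (Nat.le_ceil _).trans (by
    exact_mod_cast le_trans (le_trans (le_trans (le_max_left _ _) (le_max_right _ _))
      (le_max_right _ _)) hBB)
  have hBB4 : B4 ≤ B := (Nat.le_ceil _).trans (by
    exact_mod_cast le_trans (le_trans (le_trans (le_max_right _ _) (le_max_right _ _))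
      (le_max_right _ _)) hBB)
  have hB1 : (1 : ℝ) ≤ B := by exact_mod_cast hB
  have hBpos : (0 : ℝ) < B := by linarith
  have hTbox : T ⊆ box w B := by
    intro a ha
    unfold box
    rw [Fintype.mem_piFinset]
    intro s
    have := (hT a ha).1 s
    rw [Finset.mem_Icc]
    simp only [hw]
    omega
  have hpow : 0 < (B : ℝ) ^ N := by positivity
  have hlogB : 4 * |C3| / θ ≤ Real.log B := by
    rw [Real.le_log_iff_exp_le hBpos]
    exact hBB0
  have hlogB0 : 0 ≤ Real.log B := Real.log_nonneg hB1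
  set t := topexp (u := u) hv hvD with ht
  set H : ℕ := B ^ ω with hH
  have hHR : (H : ℝ) = (B : ℝ) ^ ω := by
    rw [hH]
    push_cast
    rfl
  have hHpos : (0 : ℝ) < H := by
    rw [hHR]
    positivity
  set Y : ℝ := (H : ℝ) ^ (2 - ε') with hY
  have hY0 : 0 < Y := by positivity
  -- the good vectors
  have hgood : ∀ a : full u v D → ℤ, a ∈ box w B → (B : ℝ) ^ ((w t : ℝ) - ε) ≤ |(a t : ℝ)| →
      evA (res a) M ≠ 0 → (χ.map (evA (res a))).eval (-(a (origin u v D))) ≠ 0 →
      Y < Nstar a → FreyHolds κ a := by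
    intro a ha hat hMa hχa hYa
    obtain ⟨_, hfa⟩ := hfam a hMa
    obtain ⟨hgc, hsm, hns, hfin, _⟩ := hfa hχa
    have hbox : ∀ s : full u v D, |(a s : ℝ)| ≤ (B : ℝ) ^ w s := by
      intro s
      unfold box at ha
      rw [Fintype.mem_piFinset] at ha
      have h1 := ha s
      rw [Finset.mem_Icc] at h1
      rw [abs_le]
      constructor
      · exact_mod_cast h1.1
      · exact_mod_cast h1.2
    obtain ⟨hint, hpd, h6⟩ := hheight B ε hB a hbox hat hgc
    refine ⟨hsm, hns, hint, hpd, hfin, ?_⟩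
    change hW a ≤ (S + g * e * ε) * Real.log B + C3 at h6
    have h7 : (2 - ε') * (ω * Real.log B) ≤ Real.log (Nstar a) := by
      have := Real.log_le_log hY0 hYa.le
      rwa [hY, Real.log_rpow hHpos, hHR, Real.log_pow] at this
    have h8 : κ * ((2 - ε') * (ω * Real.log B)) ≤ κ * Real.log (Nstar a) := by gcongr
    have h9 : |C3| ≤ θ / 4 * Real.log B := by
      rw [div_le_iff₀ hθ0] at hlogB
      linarith
    have h10 : C3 ≤ |C3| := le_abs_self _
    have h11 : (S + g * e * ε) * Real.log B + θ / 4 * Real.log B ≤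
        κ * ((2 - ε') * (ω * Real.log B)) := by
      have h12 : S + g * e * ε + θ / 4 ≤ κ * (2 - ε') * ω := by
        have : κ * (2 - ε') * ω = S + θ - κ * ω * ε' := by
          rw [hθ]
          ring
        rw [this]
        linarith
      calc _ = (S + g * e * ε + θ / 4) * Real.log B := by ring
        _ ≤ (κ * (2 - ε') * ω) * Real.log B := by gcongr
        _ = _ := by ring
    linarith
  -- split the bad vectors
  set T1 := T.filter (fun a => |(a t : ℝ)| < (B : ℝ) ^ ((w t : ℝ) - ε)) with hT1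
  set P : (full u v D → ℤ) → Prop := fun a => evA (res a) M = 0 ∨
    (χ.map (evA (res a))).eval (-(a (origin u v D))) = 0 ∨ (Nstar a : ℝ) ≤ Y with hP
  have hcover : T ⊆ T1 ∪ (box w B).filter P := by
    intro a ha
    rw [Finset.mem_union]
    by_cases h1 : |(a t : ℝ)| < (B : ℝ) ^ ((w t : ℝ) - ε)
    · left
      rw [hT1, Finset.mem_filter]
      exact ⟨ha, h1⟩
    · right
      rw [Finset.mem_filter]
      refine ⟨hTbox ha, ?_⟩
      push Not at h1
      by_contra hcon
      rw [hP] at hcon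
      push Not at hcon
      exact (hT a ha).2 (hgood a (hTbox ha) h1 hcon.1 hcon.2.1 hcon.2.2)
  have hwt1 : ε < w t := by
    have : (1 : ℝ) ≤ w t := by exact_mod_cast hw1 t
    linarith
  have hc1 : (T1.card : ℝ) ≤ δ / 4 * (B : ℝ) ^ N := by
    have h1 : (T1.card : ℝ) ≤ F3 * (B : ℝ) ^ ((N : ℝ) - ε) :=
      card_small_le w t hwt1 B hB T1 ((Finset.filter_subset _ _).trans hTbox)
        (fun a ha => (Finset.mem_filter.mp ha).2)
    refine h1.trans ?_
    have h2 : 4 * F3 / δ ≤ (B : ℝ) ^ ε := by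
      have h3 : B3 ^ ε ≤ (B : ℝ) ^ ε := Real.rpow_le_rpow (by positivity) hBB3 hε0.le
      rw [hB3, ← Real.rpow_mul (by positivity), one_div, inv_mul_cancel₀ hε0.ne',
        Real.rpow_one] at h3
      exact h3
    have h4 : (B : ℝ) ^ N = (B : ℝ) ^ ε * (B : ℝ) ^ ((N : ℝ) - ε) := by
      rw [← Real.rpow_add hBpos, ← Real.rpow_natCast]
      congr 1
      ring
    rw [h4, ← mul_assoc]
    apply mul_le_mul_of_nonneg_right _ (by positivity)
    rw [div_le_iff₀ hδ] at h2
    linarith
  have hc2 : (((box w B).filter P).card : ℝ) ≤ (δ / 4 + δ / 4) * (B : ℝ) ^ N := by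
    have h1 := card_box_le (fun s : full u v D =>
      Finset.Icc (-((B ^ w s : ℕ) : ℤ)) ((B ^ w s : ℕ) : ℤ)) P
    set Bt := Fintype.piFinset (fun i : tau u v D =>
      Finset.Icc (-((B ^ w i.1 : ℕ) : ℤ)) ((B ^ w i.1 : ℕ) : ℤ)) with hBt
    have hBtc : (Bt.card : ℝ) ≤ T3 * (B : ℝ) ^ N' :=
      card_pi_le (fun i : tau u v D => w i.1) B hB
    rw [hwo] at h1
    set I := Finset.Icc (-((B ^ ω : ℕ) : ℤ)) ((B ^ ω : ℕ) : ℤ) with hI
    have hIc : (I.card : ℝ) ≤ 3 * (B : ℝ) ^ ω := card_Icc_le B ω hB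
    have hfib : ∀ b ∈ Bt, ((I.filter (fun c => P (ext b c))).card : ℝ) ≤
        δ' * (B : ℝ) ^ ω + if evA b M = 0 then (I.card : ℝ) else 0 := by
      intro b hb
      have hpos : 0 ≤ δ' * (B : ℝ) ^ ω := by positivity
      split_ifs with h0
      · have : ((I.filter (fun c => P (ext b c))).card : ℝ) ≤ I.card := by
          exact_mod_cast Finset.card_filter_le _ _
        linarith
      · rw [add_zero]
        rw [hBt, Fintype.mem_piFinset] at hb
        have hbH : ∀ i, (b i).natAbs ≤ B ^ ω := by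
          intro i
          have h2 := hb i
          rw [Finset.mem_Icc] at h2
          have h3 : B ^ w i.1 ≤ B ^ ω := by
            apply Nat.pow_le_pow_right hB
            have := hwadd i.1
            omega
          omega
        have hHH : H₀ ≤ H := hBH.trans (Nat.le_self_pow hω0.ne' B)
        have h4 := hline H hHH b hbH h0 (fun c => Nstar (ext b c)) (by
          intro c hc
          obtain ⟨_, h5⟩ := hfam (ext b c) (by rw [res_ext]; exact h0)
          rw [res_ext, ext_origin] at h5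
          exact (h5 hc).2.2.2.2)
        have h5 : I.filter (fun c => P (ext b c)) ⊆ (Finset.Icc (-(H : ℤ))
            (H : ℤ)).filter (fun c => (χ.map (evA b)).eval (-c) = 0 ∨
              ((Nstar (ext b c) : ℕ) : ℝ) ≤ Y) := by
          intro c hc
          rw [Finset.mem_filter] at hc ⊢
          refine ⟨hc.1, ?_⟩
          have h6 := hc.2
          rw [hP] at h6
          simp only [res_ext, ext_origin] at h6
          exact h6.resolve_left h0
        rw [← hHR]
        refine le_trans ?_ h4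
        exact_mod_cast Finset.card_le_card h5
    have hz : ((Bt.filter (fun b => evA b M = 0)).card : ℝ) * B ≤ C2 * (B : ℝ) ^ N' := hzero B hB
    have hz2 : ((Bt.filter (fun b => evA b M = 0)).card : ℝ) * I.card ≤
        δ / 4 * (B : ℝ) ^ N := by
      have k1 : ((Bt.filter (fun b => evA b M = 0)).card : ℝ) ≤ C2 * (B : ℝ) ^ N' / B := by
        rw [le_div_iff₀ hBpos]
        exact hz
      calc ((Bt.filter (fun b => evA b M = 0)).card : ℝ) * I.card
          ≤ (C2 * (B : ℝ) ^ N' / B) * (3 * (B : ℝ) ^ ω) := by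
            apply mul_le_mul k1 hIc (Nat.cast_nonneg _) (by positivity)
        _ = (3 * C2 / B) * (B : ℝ) ^ N := by
            rw [hNN, pow_add]
            ring
        _ ≤ δ / 4 * (B : ℝ) ^ N := by
            apply mul_le_mul_of_nonneg_right _ hpow.le
            rw [div_le_iff₀ hBpos]
            rw [hB4, div_le_iff₀ hδ] at hBB4
            linarith
    have hm2 : (Bt.card : ℝ) * (δ' * (B : ℝ) ^ ω) ≤ δ / 4 * (B : ℝ) ^ N := by
      calc (Bt.card : ℝ) * (δ' * (B : ℝ) ^ ω)
          ≤ (T3 * (B : ℝ) ^ N') * (δ' * (B : ℝ) ^ ω) := by gcongr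
        _ = δ / 4 * (B : ℝ) ^ N := by
            rw [hNN, pow_add, hδ']
            field_simp
    have h1r : (((box w B).filter P).card : ℝ) ≤
        ∑ b ∈ Bt, ((I.filter (fun c => P (ext b c))).card : ℝ) := by exact_mod_cast h1
    calc (((box w B).filter P).card : ℝ)
        ≤ ∑ b ∈ Bt, ((I.filter (fun c => P (ext b c))).card : ℝ) := h1r
      _ ≤ ∑ b ∈ Bt, (δ' * (B : ℝ) ^ ω +
            if evA b M = 0 then (I.card : ℝ) else 0) := Finset.sum_le_sum hfib
      _ = (Bt.card : ℝ) * (δ' * (B : ℝ) ^ ω) +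
            ((Bt.filter (fun b => evA b M = 0)).card : ℝ) * I.card := by
          rw [Finset.sum_add_distrib, Finset.sum_const, nsmul_eq_mul, ← Finset.sum_filter,
            Finset.sum_const, nsmul_eq_mul]
      _ ≤ δ / 4 * (B : ℝ) ^ N + δ / 4 * (B : ℝ) ^ N := add_le_add hm2 hz2
      _ = _ := by ring
  have hc3 : (T.card : ℝ) ≤ (T1.card : ℝ) + (((box w B).filter P).card : ℝ) := by
    have := (Finset.card_le_card hcover).trans (Finset.card_union_le _ _)
    exact_mod_cast this
  have hc5 : 0 ≤ δ / 4 * (B : ℝ) ^ N := by positivity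
  calc (T.card : ℝ) ≤ δ / 4 * (B : ℝ) ^ N + (δ / 4 + δ / 4) * (B : ℝ) ^ N := by linarith
    _ ≤ δ * (B : ℝ) ^ N := by nlinarith

end Pool.Agent.Helper90Frey
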