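import Pool.Agent.Helper90_Frey.Form

/-!
# Lower bound for the quadratic form and the upper bound for the height
-/

namespace Pool.Agent.Helper90Frey

open Filter Topology MeasureTheory ComplexConjugate Matrix Metric
open scoped ComplexOrder

variable {u v D : ℕ}

/-- The polynomial in `Y` with coefficient vector `w`. -/
noncomputable def hslice (w : hol u v D → ℂ) (x : ℂ) : Polynomial ℂ :=
  ∑ s : hol u v D, Polynomial.C (w s * x ^ s.1.1) * Polynomial.X ^ s.1.2

lemma hslice_eval (w : hol u v D → ℂ) (x y : ℂ) : (hslice w x).eval y = hpoly w x y := by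
  unfold hslice hpoly
  rw [Polynomial.eval_finsetSum]
  apply Finset.sum_congr rfl
  intro s _
  simp
  ring

lemma hslice_coeff (w : hol u v D → ℂ) (x : ℂ) (k : ℕ) : (hslice w x).coeff k =
    ∑ s ∈ Finset.univ.filter (fun s : hol u v D => s.1.2 = k), w s * x ^ s.1.1 := by
  unfold hslice
  rw [Polynomial.finsetSum_coeff, Finset.sum_filter]
  apply Finset.sum_congr rfl
  intro s _
  rw [Polynomial.coeff_C_mul_X_pow]
  by_cases h : s.1.2 = k
  · rw [if_pos h.symm, if_pos h]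
  · rw [if_neg (Ne.symm h), if_neg h]

lemma hol_snd_lt (hvD : v ∣ D) (s : hol u v D) : s.1.2 + 1 < D / v := by
  have h1 := hol_lt s
  have h2 := Nat.mul_div_cancel' hvD
  have h3 : v * (s.1.2 + 1) < v * (D / v) := by
    rw [h2]
    omega
  exact lt_of_mul_lt_mul_left h3 (Nat.zero_le v)

lemma hslice_natDegree (hvD : v ∣ D) (he : 0 < D / v) (w : hol u v D → ℂ) (x : ℂ) :
    (hslice w x).natDegree < D / v := by
  have h1 : (hslice w x).natDegree ≤ D / v - 1 := by
    unfold hslice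
    apply Polynomial.natDegree_sum_le_of_forall_le
    intro s _
    refine (Polynomial.natDegree_C_mul_X_pow_le _ _).trans ?_
    have := hol_snd_lt hvD s
    omega
  omega

/-- The slice of the coefficient vector. -/
noncomputable def wk (w : hol u v D → ℂ) (k : ℕ) (i : Fin (D + 1)) : ℂ :=
  if h : ((i : ℕ), k) ∈ hol u v D then w ⟨((i : ℕ), k), h⟩ else 0

lemma fst_lt (s : hol u v D) : s.1.1 < D + 1 := by
  have h3 := (Finset.mem_filter.mp s.2).1
  rw [Finset.mem_product, Finset.mem_range] at h3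
  exact h3.1

lemma wk_apply (w : hol u v D → ℂ) (k : ℕ) (s : hol u v D) (hs : s.1.2 = k) :
    wk w k ⟨s.1.1, fst_lt s⟩ = w s := by
  unfold wk
  have h : ((⟨s.1.1, fst_lt s⟩ : Fin (D + 1)) : ℕ) = s.1.1 := rfl
  rw [dif_pos (by rw [h, ← hs]; exact s.2)]
  congr 1
  apply Subtype.ext
  exact Prod.ext rfl hs.symm

/-- Reindexing a sum over the exponents with second entry `k`. -/
lemma sum_filter_eq {M : Type*} [AddCommMonoid M] (k : ℕ) (φ : Fin (D + 1) → M)
    (h0 : ∀ i : Fin (D + 1), ((i : ℕ), k) ∉ hol u v D → φ i = 0) :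
    ∑ s ∈ Finset.univ.filter (fun s : hol u v D => s.1.2 = k), φ ⟨s.1.1, fst_lt s⟩ =
      ∑ i, φ i := by
  classical
  have hinj : Set.InjOn (fun s : hol u v D => (⟨s.1.1, fst_lt s⟩ : Fin (D + 1)))
      ((Finset.univ.filter (fun s : hol u v D => s.1.2 = k) : Finset (hol u v D)) :
        Set (hol u v D)) := by
    intro s hs t ht hst
    rw [Finset.mem_coe, Finset.mem_filter] at hs ht
    apply Subtype.ext
    apply Prod.ext
    · exact congrArg Fin.val hst
    · rw [hs.2, ht.2]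
  rw [← Finset.sum_image (f := φ) hinj]
  apply Finset.sum_subset (Finset.subset_univ _)
  intro i _ hi
  apply h0
  intro hmem
  apply hi
  rw [Finset.mem_image]
  exact ⟨⟨((i : ℕ), k), hmem⟩, Finset.mem_filter.mpr ⟨Finset.mem_univ _, rfl⟩, rfl⟩

lemma hslice_coeff_eq (w : hol u v D → ℂ) (x : ℂ) (k : ℕ) :
    (hslice w x).coeff k = ∑ i : Fin (D + 1), wk w k i * x ^ (i : ℕ) := by
  rw [hslice_coeff, ← sum_filter_eq k (fun i : Fin (D + 1) => wk w k i * x ^ (i : ℕ))]
  · apply Finset.sum_congr rfl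
    intro s hs
    rw [Finset.mem_filter] at hs
    rw [wk_apply w k s hs.2]
  · intro i hi
    unfold wk
    rw [dif_neg hi, zero_mul]

/-- **Lower bound for the quadratic form.** -/
theorem form_lower (u v D : ℕ) (hu : 0 < u) (hv : 0 < v) (hvD : v ∣ D) (hD : v < D) :
    ∃ c : ℝ, 0 < c ∧ ∀ a : full u v D → ℤ, GoodCurve hv hvD a → ∀ ρ R Q₀ : ℝ, 0 < ρ → 0 < R →
      (∀ s : full u v D, |(a s : ℝ)| * ρ ^ s.1.1 * R ^ s.1.2 ≤ Q₀) →
      ∀ w : hol u v D → ℂ,
        c / (Q₀ * (Q₀ / (‖toC a (topexp hv hvD)‖ * R ^ (D / v))) ^ (D / v)) ^ 2 *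
          ∑ s : hol u v D, ‖w s‖ ^ 2 * (ρ ^ (s.1.1 + 1) * R ^ (s.1.2 + 1)) ^ 2 ≤
          ∫ x : ℂ, qint (cpoly (toC a)) w x := by
  obtain ⟨c, hc, hdisc⟩ := disc_lower_scaled (D + 1)
  set e := D / v with he
  have he0 : 0 < e := Nat.div_pos (Nat.le_of_dvd (by omega) hvD) hv
  have heR : (0 : ℝ) < e := by exact_mod_cast he0
  set N : ℝ := (Fintype.card (full u v D) : ℝ) with hN
  have hN1 : 1 ≤ N := by
    rw [hN]
    have : 0 < Fintype.card (full u v D) := Fintype.card_pos_iff.mpr ⟨topexp hv hvD⟩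
    exact_mod_cast this
  set C : ℝ := e * (e * (e * N * (1 + e * N) ^ e) ^ 2) with hC
  have hC0 : 0 < C := by positivity
  refine ⟨c / C, by positivity, ?_⟩
  intro a h ρ R Q₀ hρ hR hQ w
  have hL := lead_cpoly hu hv hvD (toC a) h.top
  set l := toC a (topexp hv hvD) with hl
  have hl0 : 0 < ‖l‖ := norm_pos_iff.mpr h.top
  have hlQ : ‖l‖ * R ^ e ≤ Q₀ := by
    have h1 := hQ (topexp hv hvD)
    have h2 : ‖l‖ = |(a (topexp hv hvD) : ℝ)| := by
      rw [hl]
      unfold toC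
      rw [Complex.norm_intCast]
    have h3 : (topexp hv hvD : full u v D).1.1 = 0 := rfl
    have h4 : (topexp hv hvD : full u v D).1.2 = e := rfl
    rw [h3, h4, pow_zero, mul_one, ← h2] at h1
    exact h1
  have hQ0 : 0 < Q₀ := lt_of_lt_of_le (by positivity) hlQ
  set L : ℝ := Q₀ / (‖l‖ * R ^ e) with hLd
  have hL1 : 1 ≤ L := by
    rw [hLd, one_le_div (by positivity)]
    exact hlQ
  have hL0 : 0 < L := by linarith
  set T : ℝ := 1 + e * (N * L) with hT
  have hT1 : 1 ≤ T := by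
    have : 0 ≤ (e : ℝ) * (N * L) := by positivity
    linarith
  have hTle : T ≤ (1 + e * N) * L := by
    rw [hT]
    nlinarith
  -- coefficient bound
  have hcoef : ∀ x : ℂ, ‖x‖ ≤ ρ → ∀ j, ‖(slice (cpoly (toC a)) x).coeff j‖ * R ^ j ≤ N * Q₀ := by
    intro x hx j
    rw [slice_coeff]
    calc ‖∑ s : full u v D, if j = s.1.2 then toC a s * x ^ s.1.1 else 0‖ * R ^ j
        ≤ (∑ s : full u v D, if j = s.1.2 then |(a s : ℝ)| * ρ ^ s.1.1 else 0) * R ^ j := by
          gcongr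
          refine (norm_sum_le _ _).trans (Finset.sum_le_sum ?_)
          intro s _
          split_ifs
          · rw [norm_mul, norm_pow]
            unfold toC
            rw [Complex.norm_intCast]
            gcongr
          · rw [norm_zero]
      _ = ∑ s : full u v D, (if j = s.1.2 then |(a s : ℝ)| * ρ ^ s.1.1 else 0) * R ^ j := by
          rw [Finset.sum_mul]
      _ ≤ ∑ _s : full u v D, Q₀ := by
          apply Finset.sum_le_sum
          intro s _
          split_ifs with hj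
          · rw [hj]
            exact hQ s
          · rw [zero_mul]
            exact hQ0.le
      _ = N * Q₀ := by
          rw [Finset.sum_const, nsmul_eq_mul, hN]
          rfl
  -- root bound
  have hroot : ∀ x : ℂ, ‖x‖ ≤ ρ → ∀ y ∈ rts (cpoly (toC a)) x, ‖y‖ ≤ T * R := by
    intro x hx y hy
    apply hL.root_bound hR (M := N * L) (by positivity) _ (hL.mem_rts.mp hy)
    intro j _
    refine (hcoef x hx j).trans (le_of_eq ?_)
    rw [hLd, he]
    field_simp
  -- pointwise lower bound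
  have hpt : ∀ x : ℂ, ‖x‖ ≤ ρ → (rts (cpoly (toC a)) x).card = e →
      ∑ k ∈ Finset.range e, ‖∑ i : Fin (D + 1), wk w k i * x ^ (i : ℕ)‖ ^ 2 *
        (R ^ (k + 1)) ^ 2 ≤ C * (Q₀ * L ^ e) ^ 2 * qint (cpoly (toC a)) w x := by
    intro x hx hcard
    have hq : (slice (cpoly (toC a)) x).natDegree = (rts (cpoly (toC a)) x).card := by
      rw [hcard]
      exact (hL.2 x).1
    have hk : ∀ k ∈ Finset.range e, ‖∑ i : Fin (D + 1), wk w k i * x ^ (i : ℕ)‖ ^ 2 *
        (R ^ (k + 1)) ^ 2 ≤ qint (cpoly (toC a)) w x * (e * (e * (N * Q₀) * T ^ e) ^ 2) := by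
      intro k _
      have h1 := coeff_sq_le (q := slice (cpoly (toC a)) x) (P := hslice w x)
        (s := rts (cpoly (toC a)) x) (fun y hy => by
          rw [slice_eval]
          exact hL.mem_rts.mp hy) (fun y hy => by
          rw [slice_derivative, slice_eval]
          exact (hL.card_eq_iff x).mp hcard y (hL.mem_rts.mp hy)) hq
        (by rw [hcard]; exact he0) (by rw [hcard]; exact hslice_natDegree hvD he0 w x)
        hR hT1 (Q := N * Q₀) (by positivity) (fun j _ => hcoef x hx j) (hroot x hx) k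
      rw [hslice_coeff_eq, hcard] at h1
      refine h1.trans (le_of_eq ?_)
      congr 1
      unfold qint
      apply Finset.sum_congr rfl
      intro y _
      rw [hslice_eval, slice_derivative, slice_eval]
    calc _ ≤ ∑ _k ∈ Finset.range e, qint (cpoly (toC a)) w x *
          (e * (e * (N * Q₀) * T ^ e) ^ 2) := Finset.sum_le_sum hk
      _ = e * (e * (e * (N * Q₀) * T ^ e) ^ 2) * qint (cpoly (toC a)) w x := by
          rw [Finset.sum_const, Finset.card_range, nsmul_eq_mul]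
          ring
      _ ≤ e * (e * (e * (N * Q₀) * ((1 + e * N) * L) ^ e) ^ 2) * qint (cpoly (toC a)) w x := by
          have := qint_nonneg (cpoly (toC a)) w x
          gcongr
      _ = _ := by
          rw [hC, mul_pow (1 + (e : ℝ) * N) L e]
          ring
  have hint := h.integrable_qint hu hv hvD hD w
  -- integrate over the disc
  have h1 : ∫ x in ball (0 : ℂ) ρ, ∑ k ∈ Finset.range e,
      ‖∑ i : Fin (D + 1), wk w k i * x ^ (i : ℕ)‖ ^ 2 * (R ^ (k + 1)) ^ 2 ≤
      C * (Q₀ * L ^ e) ^ 2 * ∫ x : ℂ, qint (cpoly (toC a)) w x := by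
    have hball : ∫ x in ball (0 : ℂ) ρ, qint (cpoly (toC a)) w x ≤
        ∫ x : ℂ, qint (cpoly (toC a)) w x :=
      setIntegral_le_integral hint (Eventually.of_forall fun x => qint_nonneg _ w x)
    calc ∫ x in ball (0 : ℂ) ρ, ∑ k ∈ Finset.range e,
          ‖∑ i : Fin (D + 1), wk w k i * x ^ (i : ℕ)‖ ^ 2 * (R ^ (k + 1)) ^ 2
        ≤ ∫ x in ball (0 : ℂ) ρ, C * (Q₀ * L ^ e) ^ 2 * qint (cpoly (toC a)) w x := by
          apply integral_mono_ae
          · have hcont : Continuous (fun x : ℂ => ∑ k ∈ Finset.range e,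
                ‖∑ i : Fin (D + 1), wk w k i * x ^ (i : ℕ)‖ ^ 2 * (R ^ (k + 1)) ^ 2) := by
              fun_prop
            exact (hcont.continuousOn.integrableOn_compact
              (isCompact_closedBall (0 : ℂ) ρ)).mono_set ball_subset_closedBall
          · exact (hint.const_mul _).integrableOn
          · have hae := hL.ae_card he0 h.smooth
            filter_upwards [ae_restrict_of_ae hae, ae_restrict_mem measurableSet_ball] with x hx hxb
            apply hpt x _ hx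
            rw [mem_ball_zero_iff] at hxb
            exact hxb.le
      _ = C * (Q₀ * L ^ e) ^ 2 * ∫ x in ball (0 : ℂ) ρ, qint (cpoly (toC a)) w x :=
          integral_const_mul _ _
      _ ≤ _ := by gcongr
  have h2 : ∫ x in ball (0 : ℂ) ρ, ∑ k ∈ Finset.range e,
      ‖∑ i : Fin (D + 1), wk w k i * x ^ (i : ℕ)‖ ^ 2 * (R ^ (k + 1)) ^ 2 =
      ∑ k ∈ Finset.range e, (∫ x in ball (0 : ℂ) ρ,
        ‖∑ i : Fin (D + 1), wk w k i * x ^ (i : ℕ)‖ ^ 2) * (R ^ (k + 1)) ^ 2 := by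
    rw [integral_finsetSum]
    · apply Finset.sum_congr rfl
      intro k _
      rw [integral_mul_const]
    · intro k _
      have hcont : Continuous (fun x : ℂ =>
          ‖∑ i : Fin (D + 1), wk w k i * x ^ (i : ℕ)‖ ^ 2 * (R ^ (k + 1)) ^ 2) := by
        fun_prop
      exact (hcont.continuousOn.integrableOn_compact
        (isCompact_closedBall (0 : ℂ) ρ)).mono_set ball_subset_closedBall
  have h3 : c * ∑ s : hol u v D, ‖w s‖ ^ 2 * (ρ ^ (s.1.1 + 1) * R ^ (s.1.2 + 1)) ^ 2 ≤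
      ∑ k ∈ Finset.range e, (∫ x in ball (0 : ℂ) ρ,
        ‖∑ i : Fin (D + 1), wk w k i * x ^ (i : ℕ)‖ ^ 2) * (R ^ (k + 1)) ^ 2 := by
    have hfib : ∑ s : hol u v D, ‖w s‖ ^ 2 * (ρ ^ (s.1.1 + 1) * R ^ (s.1.2 + 1)) ^ 2 =
        ∑ k ∈ Finset.range e, ∑ s ∈ Finset.univ.filter (fun s : hol u v D => s.1.2 = k),
          ‖w s‖ ^ 2 * (ρ ^ (s.1.1 + 1) * R ^ (s.1.2 + 1)) ^ 2 := by
      symm
      apply Finset.sum_fiberwise_of_maps_to
      intro s _
      rw [Finset.mem_range]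
      have := hol_snd_lt hvD s
      omega
    rw [hfib, Finset.mul_sum]
    apply Finset.sum_le_sum
    intro k _
    have h4 : ∑ s ∈ Finset.univ.filter (fun s : hol u v D => s.1.2 = k),
          ‖w s‖ ^ 2 * (ρ ^ (s.1.1 + 1) * R ^ (s.1.2 + 1)) ^ 2 =
        (∑ i : Fin (D + 1), ‖wk w k i‖ ^ 2 * (ρ ^ ((i : ℕ) + 1)) ^ 2) * (R ^ (k + 1)) ^ 2 := by
      rw [← sum_filter_eq k (fun i : Fin (D + 1) => ‖wk w k i‖ ^ 2 * (ρ ^ ((i : ℕ) + 1)) ^ 2),
        Finset.sum_mul]
      · apply Finset.sum_congr rfl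
        intro s hs
        rw [Finset.mem_filter] at hs
        rw [wk_apply w k s hs.2, hs.2]
        ring
      · intro i hi
        unfold wk
        rw [dif_neg hi]
        simp
    rw [h4, ← mul_assoc]
    exact mul_le_mul_of_nonneg_right (hdisc (wk w k) ρ hρ) (by positivity)
  have h5 : c * ∑ s : hol u v D, ‖w s‖ ^ 2 * (ρ ^ (s.1.1 + 1) * R ^ (s.1.2 + 1)) ^ 2 ≤
      C * (Q₀ * L ^ e) ^ 2 * ∫ x : ℂ, qint (cpoly (toC a)) w x := by
    rw [← h2] at h3
    exact h3.trans h1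
  have hden : 0 < C * (Q₀ * L ^ e) ^ 2 := by positivity
  calc c / C / (Q₀ * L ^ e) ^ 2 *
        ∑ s : hol u v D, ‖w s‖ ^ 2 * (ρ ^ (s.1.1 + 1) * R ^ (s.1.2 + 1)) ^ 2
      = (c * ∑ s : hol u v D, ‖w s‖ ^ 2 * (ρ ^ (s.1.1 + 1) * R ^ (s.1.2 + 1)) ^ 2) /
          (C * (Q₀ * L ^ e) ^ 2) := by
        field_simp
    _ ≤ ∫ x : ℂ, qint (cpoly (toC a)) w x := by
        rw [div_le_iff₀ hden]
        linarith

/-- **The Gram matrix is positive definite and the height is bounded.** -/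
theorem height_upper (u v D : ℕ) (hu : 0 < u) (hv : 0 < v) (hvD : v ∣ D) (hD : v < D) :
    ∃ C : ℝ, ∀ a : full u v D → ℤ, GoodCurve hv hvD a →
      (∀ s t : hol u v D, Integrable (kernel (curve a) s t)) ∧ (gram a).PosDef ∧
      ∀ ρ R Q₀ : ℝ, 0 < ρ → 0 < R →
      (∀ s : full u v D, |(a s : ℝ)| * ρ ^ s.1.1 * R ^ s.1.2 ≤ Q₀) →
      hW a ≤ (Fintype.card (hol u v D)) * (Real.log Q₀ + (D / v : ℕ) *
        Real.log (Q₀ / (‖toC a (topexp hv hvD)‖ * R ^ (D / v)))) -
        ∑ s : hol u v D, (((s.1.1 : ℝ) + 1) * Real.log ρ + ((s.1.2 : ℝ) + 1) * Real.log R) + C := by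
  obtain ⟨c, hc, hform⟩ := form_lower u v D hu hv hvD hD
  refine ⟨-(1 / 2) * ((Fintype.card (hol u v D)) * Real.log c), ?_⟩
  intro a h
  have hherm := gram_isHermitian hu hv hvD a h.top
  have hf : ∀ ρ R Q₀ : ℝ, 0 < ρ → 0 < R →
      (∀ s : full u v D, |(a s : ℝ)| * ρ ^ s.1.1 * R ^ s.1.2 ≤ Q₀) → ∀ w : hol u v D → ℂ,
      c / (Q₀ * (Q₀ / (‖toC a (topexp hv hvD)‖ * R ^ (D / v))) ^ (D / v)) ^ 2 *
          ∑ s : hol u v D, ‖w s‖ ^ 2 * (ρ ^ (s.1.1 + 1) * R ^ (s.1.2 + 1)) ^ 2 ≤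
          (star w ⬝ᵥ (gram a *ᵥ w)).re := by
    intro ρ R Q₀ hρ hR hQ w
    rw [h.gram_form hu hv hvD hD w, Complex.ofReal_re]
    have h1 := hform a h ρ R Q₀ hρ hR hQ (fun s => conj (w s))
    simp only [RCLike.norm_conj] at h1
    exact h1
  have hl0 : 0 < ‖toC a (topexp hv hvD)‖ := norm_pos_iff.mpr h.top
  have hQpos : ∀ ρ R Q₀ : ℝ, 0 < ρ → 0 < R →
      (∀ s : full u v D, |(a s : ℝ)| * ρ ^ s.1.1 * R ^ s.1.2 ≤ Q₀) → 0 < Q₀ := by
    intro ρ R Q₀ hρ hR hQ
    refine lt_of_lt_of_le ?_ (hQ (topexp hv hvD))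
    have h2 : ‖toC a (topexp hv hvD)‖ = |(a (topexp hv hvD) : ℝ)| := by
      unfold toC
      rw [Complex.norm_intCast]
    rw [← h2]
    positivity
  refine ⟨?_, ?_, ?_⟩
  · intro s t
    have h1 := h.integrable hu hv hvD hD s t
    refine h1.congr (Eventually.of_forall fun x => ?_)
    exact (kernel_eq hu hv hvD a h.top s.1 t.1 x).symm
  · apply PosDef.of_dotProduct_mulVec_pos hherm
    intro w hw
    set Q₀ : ℝ := ∑ s : full u v D, |(a s : ℝ)| with hQd
    have hQ : ∀ s : full u v D, |(a s : ℝ)| * (1 : ℝ) ^ s.1.1 * (1 : ℝ) ^ s.1.2 ≤ Q₀ := by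
      intro s
      rw [one_pow, one_pow, mul_one, mul_one]
      exact Finset.single_le_sum (f := fun s : full u v D => |(a s : ℝ)|)
        (fun _ _ => abs_nonneg _) (Finset.mem_univ s)
    have hQ0 := hQpos 1 1 Q₀ one_pos one_pos hQ
    have h1 := hf 1 1 Q₀ one_pos one_pos hQ w
    have h2 : 0 < ∑ s : hol u v D, ‖w s‖ ^ 2 * ((1 : ℝ) ^ (s.1.1 + 1) * 1 ^ (s.1.2 + 1)) ^ 2 := by
      obtain ⟨i, hi⟩ := Function.ne_iff.mp hw
      apply Finset.sum_pos' (fun i _ => by positivity)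
      exact ⟨i, Finset.mem_univ i, by
        have : 0 < ‖w i‖ := norm_pos_iff.mpr hi
        positivity⟩
    have h3 : 0 < (star w ⬝ᵥ (gram a *ᵥ w)).re := lt_of_lt_of_le (by positivity) h1
    rw [h.gram_form hu hv hvD hD w] at h3 ⊢
    rw [Complex.ofReal_re] at h3
    exact_mod_cast h3
  · intro ρ R Q₀ hρ hR hQ
    have hQ0 := hQpos ρ R Q₀ hρ hR hQ
    set L : ℝ := Q₀ / (‖toC a (topexp hv hvD)‖ * R ^ (D / v)) with hL
    have hL0 : 0 < L := by positivity
    have h1 := det_lower_scaled _ hherm (c / (Q₀ * L ^ (D / v)) ^ 2) (by positivity)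
      (fun s : hol u v D => ρ ^ (s.1.1 + 1) * R ^ (s.1.2 + 1)) (fun i => by positivity)
      (hf ρ R Q₀ hρ hR hQ)
    have hP : 0 < ∏ s : hol u v D, (ρ ^ (s.1.1 + 1) * R ^ (s.1.2 + 1)) ^ 2 :=
      Finset.prod_pos fun i _ => by positivity
    have h2 := Real.log_le_log (by positivity) h1
    rw [Real.log_mul (by positivity) hP.ne', Real.log_pow, Real.log_div hc.ne' (by positivity),
      Real.log_pow, Real.log_mul hQ0.ne' (by positivity), Real.log_pow, Real.log_prod] at h2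
    · have h3 : ∑ s : hol u v D, Real.log ((ρ ^ (s.1.1 + 1) * R ^ (s.1.2 + 1)) ^ 2) =
          2 * ∑ s : hol u v D, (((s.1.1 : ℝ) + 1) * Real.log ρ +
            ((s.1.2 : ℝ) + 1) * Real.log R) := by
        rw [Finset.mul_sum]
        apply Finset.sum_congr rfl
        intro s _
        rw [Real.log_pow, Real.log_mul (by positivity) (by positivity), Real.log_pow,
          Real.log_pow]
        push_cast
        ring
      rw [h3] at h2
      unfold hW
      push_cast at h2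
      linarith
    · intro s _
      positivity

end Pool.Agent.Helper90Frey
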