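import Pool.Agent.Helper90_Frey.Count
import Pool.Agent.Helper94_Rad.Final

/-!
# Counting on a line with the radical lemma

The radical lemma (`Pool.Agent.RAD.radical_lemma`) is due to helper94 and the modules of
helper17, 18, 23, 41, 51, 79, 81; the two preparatory lemmas below are taken from
`Pool.Agent.Helper5_Plane.Box` (helper5).
-/

namespace Pool.Agent.Helper90Frey

open Polynomial Helper5Frey

/-- Polynomial bound for the coefficients of the specialisations. -/
lemma coef_bound {ι : Type} (R : (MvPolynomial ι ℤ)[X]) (M : MvPolynomial ι ℤ) :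
    ∃ B H₁ : ℕ, ∀ H : ℕ, H₁ ≤ H → ∀ b : ι → ℤ, (∀ p, (b p).natAbs ≤ H) →
      (∀ i, |(R.map (evA b)).coeff i| ≤ (H : ℤ) ^ B) ∧
        (evA b M).natAbs ≤ H ^ B := by
  choose C B h using fun i => mv_bound (R.coeff i)
  obtain ⟨C', B', h'⟩ := mv_bound M
  set Ct := ∑ i ∈ Finset.range (R.natDegree + 1), C i + C' with hCt
  set Bt := ∑ i ∈ Finset.range (R.natDegree + 1), B i + B' with hBt
  refine ⟨Bt + 1, Ct + 1, ?_⟩
  intro H hH b hb
  have hH1 : 1 ≤ H := by omega
  have key : ∀ c e : ℕ, c ≤ Ct → e ≤ Bt → c * H ^ e ≤ H ^ (Bt + 1) := by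
    intro c e hc he
    calc c * H ^ e ≤ H * H ^ Bt :=
          Nat.mul_le_mul (by omega) (Nat.pow_le_pow_right hH1 he)
      _ = H ^ (Bt + 1) := by ring
  rw [evA_int]
  constructor
  · intro i
    rw [coeff_map]
    by_cases hi : i ≤ R.natDegree
    · have h1 := h i H b hH1 hb
      have h2 : C i ≤ Ct := by
        have := Finset.single_le_sum (f := C) (fun _ _ => Nat.zero_le _)
          (Finset.mem_range.mpr (show i < R.natDegree + 1 by omega))
        omega
      have h3 : B i ≤ Bt := by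
        have := Finset.single_le_sum (f := B) (fun _ _ => Nat.zero_le _)
          (Finset.mem_range.mpr (show i < R.natDegree + 1 by omega))
        omega
      have h4 := h1.trans (key _ _ h2 h3)
      rw [← Int.natCast_natAbs]
      exact_mod_cast h4
    · rw [coeff_eq_zero_of_natDegree_lt (by omega), map_zero, abs_zero]
      positivity
  · exact (h' H b hH1 hb).trans (key _ _ (by omega) (by omega))

/-- Standing hypotheses of the radical lemma for the specialisations. -/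
lemma good_of_bezout {A : Type*} [CommRing A] (M : A) (R U V : A[X])
    (hUV : U * R + V * derivative R = C M) (hlead : R.leadingCoeff ∣ M)
    (φ : A →+* ℤ) (hM : φ M ≠ 0) (B H : ℕ)
    (hc : ∀ i, |(R.map φ).coeff i| ≤ (H : ℤ) ^ B) (hMb : (φ M).natAbs ≤ H ^ B) :
    RAD.Good R.natDegree B H (R.map φ) (φ M).natAbs := by
  have hUV' : U.map φ * R.map φ + V.map φ * derivative (R.map φ) = C (φ M) := by
    rw [derivative_map, ← Polynomial.map_mul, ← Polynomial.map_mul, ← Polynomial.map_add, hUV,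
      Polynomial.map_C]
  have hdvd : φ R.leadingCoeff ∣ φ M := map_dvd φ hlead
  have hlc : φ R.leadingCoeff ≠ 0 := by
    intro h0
    rw [h0, zero_dvd_iff] at hdvd
    exact hM hdvd
  have hdeg : (R.map φ).natDegree = R.natDegree := natDegree_map_of_leadingCoeff_ne_zero φ hlc
  refine ⟨hdeg, hc, ?_, hMb, ?_, ?_⟩
  · exact Int.natAbs_pos.mpr hM
  · have h1 : (φ M : ℚ) ≠ 0 := by exact_mod_cast hM
    refine ⟨C ((φ M : ℚ)⁻¹) * (U.map φ).map (Int.castRingHom ℚ),
      C ((φ M : ℚ)⁻¹) * (V.map φ).map (Int.castRingHom ℚ), ?_⟩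
    have h2 := congrArg (Polynomial.map (Int.castRingHom ℚ)) hUV'
    rw [Polynomial.map_add, Polynomial.map_mul, Polynomial.map_mul, Polynomial.map_C,
      ← derivative_map] at h2
    have h3 : (C ((φ M : ℚ)⁻¹) : ℚ[X]) * C ((Int.castRingHom ℚ) (φ M)) = 1 := by
      rw [← C_mul]
      simp [h1]
    linear_combination (C ((φ M : ℚ)⁻¹) : ℚ[X]) * h2 + h3
  · intro p hp hpM
    constructor
    · intro h0
      have h4 : (R.map φ).leadingCoeff = φ R.leadingCoeff := by
        rw [leadingCoeff, hdeg, coeff_map, leadingCoeff]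
      rw [h4] at h0
      exact hpM (Int.natCast_dvd.mp (h0.trans hdvd))
    · intro c h1 h2
      apply hpM
      have h3 := congrArg (eval c) hUV'
      rw [eval_add, eval_mul, eval_mul, eval_C] at h3
      rw [← Int.natCast_dvd, ← h3]
      exact dvd_add (h1.mul_left _) (h2.mul_left _)

/-- **Counting on a line with the radical lemma.** -/
theorem line_count_rad {σ : Type} (Q : (MvPolynomial σ ℤ)[X]) (M : MvPolynomial σ ℤ)
    (hn : 2 ≤ Q.natDegree) (hlead : Q.leadingCoeff ∣ M)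
    (hUV : ∃ U V : (MvPolynomial σ ℤ)[X], U * Q + V * derivative Q = C M)
    {ε δ : ℝ} (hε : 0 < ε) (hδ : 0 < δ) :
    ∃ H₀ : ℕ, ∀ H : ℕ, H₀ ≤ H → ∀ b : σ → ℤ, (∀ i, (b i).natAbs ≤ H) →
      evA b M ≠ 0 → ∀ Ns : ℤ → ℕ,
      (∀ c, (Q.map (evA b)).eval (-c) ≠ 0 →
        partRad (evA b M).natAbs ((Q.map (evA b)).eval (-c)).natAbs ≤ Ns c) →
      (((Finset.Icc (-(H : ℤ)) H).filter (fun c => (Q.map (evA b)).eval (-c) = 0 ∨
        (Ns c : ℝ) ≤ (H : ℝ) ^ (2 - ε))).card : ℝ) ≤ δ * H := by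
  classical
  obtain ⟨U, V, hUV⟩ := hUV
  obtain ⟨B, H1, hB⟩ := coef_bound Q M
  obtain ⟨H2, hH2⟩ := RAD.radical_lemma Q.natDegree B ε δ hn hε hδ
  refine ⟨max H1 H2, ?_⟩
  intro H hH b hb hbM Ns hNs
  obtain ⟨hc1, hc2⟩ := hB H (by omega) b hb
  have hgood := good_of_bezout M Q U V hUV hlead (evA b) hbM B H hc1 hc2
  refine le_trans ?_ (hH2 H (by omega) _ _ hgood)
  have hset : {c : ℤ | |c| ≤ (H : ℤ) ∧ ((Q.map (evA b)).eval c = 0 ∨
      (partRad (evA b M).natAbs ((Q.map (evA b)).eval c).natAbs : ℝ) ≤ (H : ℝ) ^ (2 - ε))} =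
      (((Finset.Icc (-(H : ℤ)) H).filter (fun c => (Q.map (evA b)).eval c = 0 ∨
        (partRad (evA b M).natAbs ((Q.map (evA b)).eval c).natAbs : ℝ) ≤
          (H : ℝ) ^ (2 - ε)) : Finset ℤ) : Set ℤ) := by
    ext c
    simp only [Set.mem_ofPred_eq, Finset.coe_filter, Finset.mem_Icc, abs_le]
  rw [hset, Set.ncard_coe_finset]
  norm_cast
  apply Finset.card_le_card_of_injOn (fun c => -c)
  · intro c hc
    rw [Finset.mem_coe, Finset.mem_filter, Finset.mem_Icc] at hc ⊢
    obtain ⟨⟨k1, k2⟩, k3⟩ := hc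
    refine ⟨⟨by show -(H : ℤ) ≤ -c; omega, by show -c ≤ (H : ℤ); omega⟩, ?_⟩
    by_cases h0 : (Q.map (evA b)).eval (-c) = 0
    · exact Or.inl h0
    · right
      have h1 := k3.resolve_left h0
      refine le_trans ?_ h1
      exact_mod_cast hNs c h0
  · intro x _ y _ hxy
    exact neg_injective hxy

end Pool.Agent.Helper90Frey
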