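import Pool.Agent.Helper90_Frey.ArithMain
import Pool.Agent.Helper90_Frey.Lower
import Pool.Agent.Helper90_Frey.Rad

/-!
# Frey's inequality for almost all curves of the family
-/

namespace Pool.Agent.Helper90Frey

open Polynomial Helper5Frey
open scoped ComplexOrder

variable {u v D : ℕ}

/-- The coefficient vector with constant term `c`. -/
def ext (b : tau u v D → ℤ) (c : ℤ) (s : full u v D) : ℤ :=
  if h : s = origin u v D then c else b ⟨s, h⟩

lemma ext_origin (b : tau u v D → ℤ) (c : ℤ) : ext b c (origin u v D) = c := by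
  unfold ext
  rw [dif_pos rfl]

lemma res_ext (b : tau u v D → ℤ) (c : ℤ) : res (ext b c) = b := by
  funext s
  unfold res ext
  rw [dif_neg s.2]

lemma ext_res (a : full u v D → ℤ) : ext (res a) (a (origin u v D)) = a := by
  funext s
  unfold ext res
  split_ifs with h
  · rw [h]
  · rfl

/-- Slicing a box along the constant coefficient. -/
lemma card_box_le (S : full u v D → Finset ℤ) (P : (full u v D → ℤ) → Prop)
    [DecidablePred P] :
    ((Fintype.piFinset S).filter P).card ≤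
      ∑ b ∈ Fintype.piFinset (fun i : tau u v D => S i.1),
        ((S (origin u v D)).filter (fun c => P (ext b c))).card := by
  classical
  have hmaps : ((Fintype.piFinset S).filter P : Set (full u v D → ℤ)).MapsTo
      (fun a => res a) (Fintype.piFinset (fun i : tau u v D => S i.1)) := by
    intro a ha
    rw [Finset.mem_coe, Finset.mem_filter, Fintype.mem_piFinset] at ha
    rw [Finset.mem_coe, Fintype.mem_piFinset]
    intro i
    exact ha.1 i.1
  rw [Finset.card_eq_sum_card_fiberwise hmaps]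
  apply Finset.sum_le_sum
  intro b _
  apply Finset.card_le_card_of_injOn (fun a => a (origin u v D))
  · intro a ha
    rw [Finset.mem_coe, Finset.mem_filter, Finset.mem_filter, Fintype.mem_piFinset] at ha
    obtain ⟨⟨h1, h2⟩, h3⟩ := ha
    rw [Finset.mem_coe, Finset.mem_filter]
    refine ⟨h1 _, ?_⟩
    rw [← h3, ext_res]
    exact h2
  · intro a ha a' ha' h
    rw [Finset.mem_coe, Finset.mem_filter] at ha ha'
    rw [← ext_res a, ← ext_res a', ha.2, ha'.2]
    simp only at h
    rw [h]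

/-- The box. -/
noncomputable def box (w : full u v D → ℕ) (B : ℕ) : Finset (full u v D → ℤ) :=
  Fintype.piFinset (fun s => Finset.Icc (-((B ^ w s : ℕ) : ℤ)) ((B ^ w s : ℕ) : ℤ))

lemma card_Icc_le (B k : ℕ) (hB : 1 ≤ B) :
    ((Finset.Icc (-((B ^ k : ℕ) : ℤ)) ((B ^ k : ℕ) : ℤ)).card : ℝ) ≤ 3 * (B : ℝ) ^ k := by
  have h1 : (Finset.Icc (-((B ^ k : ℕ) : ℤ)) ((B ^ k : ℕ) : ℤ)).card = 2 * B ^ k + 1 := by
    rw [Int.card_Icc]
    omega
  rw [h1]
  push_cast
  have : (1 : ℝ) ≤ (B : ℝ) ^ k := one_le_pow₀ (by exact_mod_cast hB)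
  linarith

lemma card_pi_le {σ : Type} [Fintype σ] [DecidableEq σ] (w : σ → ℕ) (B : ℕ) (hB : 1 ≤ B) :
    ((Fintype.piFinset (fun s : σ => Finset.Icc (-((B ^ w s : ℕ) : ℤ))
      ((B ^ w s : ℕ) : ℤ))).card : ℝ) ≤ 3 ^ Fintype.card σ * (B : ℝ) ^ (∑ s, w s) := by
  rw [Fintype.card_piFinset]
  push_cast
  calc ∏ s, ((Finset.Icc (-((B : ℤ) ^ w s)) ((B : ℤ) ^ w s)).card : ℝ)
      ≤ ∏ s : σ, (3 * (B : ℝ) ^ w s) := by
        apply Finset.prod_le_prod
        · intro i _
          positivity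
        · intro i _
          have := card_Icc_le B (w i) hB
          push_cast at this
          exact this
    _ = _ := by
        rw [Finset.prod_mul_distrib, Finset.prod_const, Finset.card_univ,
          Finset.prod_pow_eq_pow_sum]

/-- Vectors in the box with a small entry. -/
lemma card_small_le (w : full u v D → ℕ) (t : full u v D) {ε : ℝ} (hε : ε < w t) (B : ℕ)
    (hB : 1 ≤ B) (T : Finset (full u v D → ℤ)) (hT : T ⊆ box w B)
    (hs : ∀ a ∈ T, |(a t : ℝ)| < (B : ℝ) ^ ((w t : ℝ) - ε)) :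
    (T.card : ℝ) ≤ 3 ^ Fintype.card (full u v D) * (B : ℝ) ^ (((∑ s, w s : ℕ) : ℝ) - ε) := by
  classical
  have hB1 : (1 : ℝ) ≤ B := by exact_mod_cast hB
  have hB0 : (0 : ℝ) < B := by linarith
  set y : ℝ := (B : ℝ) ^ ((w t : ℝ) - ε) with hy
  have hy1 : 1 ≤ y := Real.one_le_rpow hB1 (by linarith)
  set k : ℕ := ⌊y⌋₊ with hk
  set S : full u v D → Finset ℤ := fun s => if s = t then Finset.Icc (-(k : ℤ)) k else
    Finset.Icc (-((B ^ w s : ℕ) : ℤ)) ((B ^ w s : ℕ) : ℤ) with hS
  have hsub : T ⊆ Fintype.piFinset S := by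
    intro a ha
    have h1 := hT ha
    unfold box at h1
    rw [Fintype.mem_piFinset] at h1 ⊢
    intro s
    rw [hS]
    simp only
    split_ifs with h
    · have h2 := hs a ha
      rw [h]
      have h3 : ((a t).natAbs : ℝ) < y := by
        rw [Nat.cast_natAbs, Int.cast_abs]
        exact h2
      have h4 : (a t).natAbs ≤ k := Nat.le_floor h3.le
      rw [Finset.mem_Icc]
      omega
    · exact h1 s
  have hc1 : ((Fintype.piFinset S).card : ℝ) ≤
      ∏ s : full u v D, (3 * (B : ℝ) ^ (if s = t then (w t : ℝ) - ε else (w s : ℝ))) := by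
    rw [Fintype.card_piFinset]
    push_cast
    apply Finset.prod_le_prod
    · intro i _
      positivity
    · intro i _
      rw [hS]
      simp only
      split_ifs with h
      · have h1 : (Finset.Icc (-(k : ℤ)) k).card = 2 * k + 1 := by
          rw [Int.card_Icc]
          omega
        rw [h1]
        push_cast
        have h2 : (k : ℝ) ≤ y := Nat.floor_le (by linarith)
        rw [← hy]
        linarith
      · rw [Real.rpow_natCast]
        exact card_Icc_le B (w i) hB
  have hc2 : ∏ s : full u v D, (3 * (B : ℝ) ^ (if s = t then (w t : ℝ) - ε else (w s : ℝ))) =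
      3 ^ Fintype.card (full u v D) * (B : ℝ) ^ (((∑ s, w s : ℕ) : ℝ) - ε) := by
    rw [Finset.prod_mul_distrib, Finset.prod_const, Finset.card_univ,
      ← Real.rpow_sum_of_pos hB0]
    congr 2
    have : ∀ s : full u v D, (if s = t then (w t : ℝ) - ε else (w s : ℝ)) =
        (w s : ℝ) - if s = t then ε else 0 := by
      intro s
      split_ifs with h
      · rw [h]
      · ring
    simp only [this]
    rw [Finset.sum_sub_distrib, Finset.sum_ite_eq' Finset.univ t, if_pos (Finset.mem_univ _)]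
    push_cast
    rfl
  calc (T.card : ℝ) ≤ ((Fintype.piFinset S).card : ℝ) := by
        exact_mod_cast Finset.card_le_card hsub
    _ ≤ _ := hc1
    _ = _ := hc2

/-- The height of a good vector of the box. -/
lemma height_box (hu : 0 < u) (hv : 0 < v) (hvD : v ∣ D) (hvlt : v < D)
    (α β ω : ℕ) (hω : ∀ s ∈ full u v D, α * s.1 + β * s.2 < ω) :
    ∃ C₃ : ℝ, ∀ (B : ℕ) (ε : ℝ), 1 ≤ B → ∀ a : full u v D → ℤ,
      (∀ s : full u v D, |(a s : ℝ)| ≤ (B : ℝ) ^ (ω - (α * s.1.1 + β * s.1.2))) →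
      (B : ℝ) ^ (((ω - (α * (topexp (u := u) hv hvD).1.1 + β * (topexp (u := u) hv hvD).1.2) : ℕ) : ℝ) - ε) ≤
        |(a (topexp hv hvD) : ℝ)| →
      GoodCurve hv hvD a →
      (∀ s t : hol u v D, MeasureTheory.Integrable (kernel (curve a) s t)) ∧ (gram a).PosDef ∧
      hW a ≤ ((∑ s : hol u v D, ((ω : ℝ) - (α * (s.1.1 + 1) + β * (s.1.2 + 1)))) +
        (Fintype.card (hol u v D) : ℝ) * (D / v : ℕ) * ε) * Real.log B + C₃ := by
  classical
  obtain ⟨C3, hheight⟩ := height_upper u v D hu hv hvD hvlt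
  refine ⟨C3, ?_⟩
  intro B ε hB a ha hat hgc
  have hB1 : (1 : ℝ) ≤ B := by exact_mod_cast hB
  have hBpos : (0 : ℝ) < B := by linarith
  set w : full u v D → ℕ := fun s => ω - (α * s.1.1 + β * s.1.2) with hw
  have hwadd : ∀ s : full u v D, w s + (α * s.1.1 + β * s.1.2) = ω := by
    intro s
    have := hω s.1 s.2
    simp only [hw]
    omega
  set S : ℝ := ∑ s : hol u v D, ((ω : ℝ) - (α * (s.1.1 + 1) + β * (s.1.2 + 1))) with hS
  set e : ℕ := D / v with he
  set g : ℝ := (Fintype.card (hol u v D) : ℝ) with hgd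
  have hg0 : 0 ≤ g := Nat.cast_nonneg _
  set t := topexp (u := u) hv hvD with ht
  obtain ⟨hint, hpd, hbd⟩ := hheight a hgc
  refine ⟨hint, hpd, ?_⟩
  have hbox : ∀ s : full u v D, |(a s : ℝ)| * ((B : ℝ) ^ α) ^ s.1.1 * ((B : ℝ) ^ β) ^ s.1.2 ≤
      (B : ℝ) ^ ω := by
    intro s
    have h2 : |(a s : ℝ)| ≤ (B : ℝ) ^ w s := ha s
    calc |(a s : ℝ)| * ((B : ℝ) ^ α) ^ s.1.1 * ((B : ℝ) ^ β) ^ s.1.2
        ≤ (B : ℝ) ^ w s * ((B : ℝ) ^ α) ^ s.1.1 * ((B : ℝ) ^ β) ^ s.1.2 := by gcongr
      _ = (B : ℝ) ^ ω := by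
          rw [← hwadd s, ← pow_mul, ← pow_mul, ← pow_add, ← pow_add]
          congr 1
          ring
  have h1 := hbd ((B : ℝ) ^ α) ((B : ℝ) ^ β) ((B : ℝ) ^ ω) (by positivity) (by positivity) hbox
  have hnt : ‖toC a t‖ = |(a t : ℝ)| := by
    unfold toC
    rw [Complex.norm_intCast]
  have hatpos : 0 < |(a t : ℝ)| := lt_of_lt_of_le (by positivity) hat
  have hwt : w t + β * e = ω := by
    have := hwadd t
    have h2 : t.1.1 = 0 := rfl
    have h3 : t.1.2 = e := rfl
    rw [h2, h3] at this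
    simpa using this
  have hL : Real.log ((B : ℝ) ^ ω / (‖toC a t‖ * ((B : ℝ) ^ β) ^ e)) ≤ ε * Real.log B := by
    rw [hnt, Real.log_div (by positivity) (by positivity), Real.log_mul hatpos.ne'
      (by positivity), Real.log_pow, Real.log_pow, Real.log_pow]
    have h2 := Real.log_le_log (by positivity) hat
    rw [Real.log_rpow hBpos] at h2
    change ((((w t : ℕ) : ℝ)) - ε) * Real.log B ≤ _ at h2
    have h3 : ((w t : ℕ) : ℝ) + β * e = ω := by exact_mod_cast hwt
    have h4 : (ω : ℝ) * Real.log B - (((w t : ℕ) : ℝ) - ε) * Real.log B -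
        e * (β * Real.log B) = ε * Real.log B := by
      rw [← h3]
      ring
    linarith
  have hsum : ∑ s : hol u v D, (((s.1.1 : ℝ) + 1) * Real.log ((B : ℝ) ^ α) +
      ((s.1.2 : ℝ) + 1) * Real.log ((B : ℝ) ^ β)) = (g * ω - S) * Real.log B := by
    rw [hS, hgd]
    have h2 : ((Fintype.card (hol u v D) : ℕ) : ℝ) * ω = ∑ _s : hol u v D, (ω : ℝ) := by
      rw [Finset.sum_const, Finset.card_univ, nsmul_eq_mul]
    rw [h2, ← Finset.sum_sub_distrib, Finset.sum_mul]
    apply Finset.sum_congr rfl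
    intro s _
    rw [Real.log_pow, Real.log_pow]
    ring
  rw [hsum, Real.log_pow] at h1
  have h5 : g * (e * Real.log ((B : ℝ) ^ ω / (‖toC a t‖ * ((B : ℝ) ^ β) ^ e))) ≤
      g * (e * (ε * Real.log B)) := by gcongr
  calc hW a ≤ g * (ω * Real.log B + e * Real.log ((B : ℝ) ^ ω /
        (‖toC a t‖ * ((B : ℝ) ^ β) ^ e))) - (g * ω - S) * Real.log B + C3 := h1
    _ = g * (e * Real.log ((B : ℝ) ^ ω / (‖toC a t‖ * ((B : ℝ) ^ β) ^ e))) +
        S * Real.log B + C3 := by ring
    _ ≤ g * (e * (ε * Real.log B)) + S * Real.log B + C3 := by linarith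
    _ = _ := by ring

lemma sum_nonneg' (hu : 0 < u) (hv : 0 < v)
    (α β ω : ℕ) (hω : ∀ s ∈ full u v D, α * s.1 + β * s.2 < ω) :
    0 ≤ ∑ s : hol u v D, ((ω : ℝ) - (α * (s.1.1 + 1) + β * (s.1.2 + 1))) := by
  apply Finset.sum_nonneg
  intro s _
  have hmem : (s.1.1 + 1, s.1.2 + 1) ∈ full u v D := by
    rw [mem_full hu hv]
    exact (hol_lt s).le
  have h1 := hω _ hmem
  simp only at h1
  have h2 : ((α * (s.1.1 + 1) + β * (s.1.2 + 1) : ℕ) : ℝ) < ω := by exact_mod_cast h1
  push_cast at h2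
  linarith

/-- **Main theorem.** -/
theorem main (hu : 0 < u) (hv : 0 < v) (huD : u ∣ D) (hvD : v ∣ D) (hg : u + v < D)
    (α β ω : ℕ) (hω : ∀ s ∈ full u v D, α * s.1 + β * s.2 < ω) (κ : ℝ)
    (hκ : (∑ s : hol u v D, ((ω : ℝ) - (α * (s.1.1 + 1) + β * (s.1.2 + 1)))) / ω < κ) :
    ∃ δ C : ℝ, 0 < δ ∧ 0 < C ∧ ∀ B : ℕ, 1 ≤ B → ∀ T : Finset (full u v D → ℤ),
      (∀ a ∈ T, (∀ s, (a s).natAbs ≤ B ^ (ω - (α * s.1.1 + β * s.1.2))) ∧ ¬ FreyHolds κ a) →
      (T.card : ℝ) ≤ C * (B : ℝ) ^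
        (((∑ s : full u v D, (ω - (α * s.1.1 + β * s.1.2)) : ℕ) : ℝ) - δ) := by
  classical
  set w : full u v D → ℕ := fun s => ω - (α * s.1.1 + β * s.1.2) with hw
  have hw1 : ∀ s : full u v D, 1 ≤ w s := by
    intro s
    have := hω s.1 s.2
    simp only [hw]
    omega
  have hwadd : ∀ s : full u v D, w s + (α * s.1.1 + β * s.1.2) = ω := by
    intro s
    have := hω s.1 s.2
    simp only [hw]
    omega
  have hwo : w (origin u v D) = ω := by
    have := hwadd (origin u v D)
    have h1 : (origin u v D).1.1 = 0 := rfl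
    have h2 : (origin u v D).1.2 = 0 := rfl
    rw [h1, h2] at this
    simpa using this
  have hω0 : 0 < ω := by
    rw [← hwo]
    exact hw1 _
  have hωR : (0 : ℝ) < ω := by exact_mod_cast hω0
  set S : ℝ := ∑ s : hol u v D, ((ω : ℝ) - (α * (s.1.1 + 1) + β * (s.1.2 + 1))) with hS
  have hS0 : 0 ≤ S := sum_nonneg' hu hv α β ω hω
  have hκ0 : 0 < κ := lt_of_le_of_lt (by positivity) hκ
  set e : ℕ := D / v with he
  set g : ℝ := (Fintype.card (hol u v D) : ℝ) with hgd
  have hg0 : 0 ≤ g := Nat.cast_nonneg _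
  set θ : ℝ := κ * ω - S with hθ
  have hθ0 : 0 < θ := by
    rw [div_lt_iff₀ hωR] at hκ
    linarith
  -- the parameters
  set ε : ℝ := min (1 / 2) (θ / (4 * (g * e + 1))) with hε
  have hge : 0 ≤ g * e := by positivity
  have hε0 : 0 < ε := by positivity
  have hε2 : ε ≤ 1 / 2 := min_le_left _ _
  have hεθ : g * e * ε ≤ θ / 4 := by
    have h1 : ε ≤ θ / (4 * (g * e + 1)) := min_le_right _ _
    rw [le_div_iff₀ (by positivity)] at h1
    nlinarith
  set ε' : ℝ := min (1 / 2) (θ / (4 * κ)) with hε'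
  have hε'0 : 0 < ε' := by positivity
  have hε'2 : ε' ≤ 1 / 2 := min_le_left _ _
  have hε'θ : κ * ε' ≤ θ / 4 := by
    have h1 : ε' ≤ θ / (4 * κ) := min_le_right _ _
    rw [le_div_iff₀ (by positivity)] at h1
    linarith
  have hω1 : (1 : ℝ) ≤ ω := by exact_mod_cast hω0
  set η : ℝ := ε' / (4 * ω) with hη
  have hη0 : 0 < η := by positivity
  obtain ⟨χ, M, hM0, hdeg, _, _, hfam⟩ :=
    exists_family (u := u) (v := v) (D := D) hu hv huD hvD hg
  obtain ⟨C1, hC1, hline⟩ := line_count_gen χ M (by omega : 0 < χ.natDegree) hη0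
  obtain ⟨C2, hC2, hzero⟩ := zeros_count M hM0 (fun s : tau u v D => w s.1) (fun s => hw1 s.1)
  obtain ⟨C3, hheight⟩ := height_box (u := u) hu hv hvD (by omega) α β ω hω
  -- the threshold
  set B0 : ℝ := Real.exp (4 * |C3| / θ) with hB0
  have hB00 : 1 ≤ B0 := Real.one_le_exp (by positivity)
  set N : ℕ := ∑ s : full u v D, w s with hN
  set N' : ℕ := ∑ s : tau u v D, w s.1 with hN'
  have hNN : N = ω + N' := by
    rw [hN, hN', Fintype.sum_eq_add_sum_subtype_ne _ (origin u v D), hwo]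
  set F3 : ℝ := 3 ^ Fintype.card (full u v D) with hF3
  have hF30 : 0 < F3 := by positivity
  set T3 : ℝ := 3 ^ Fintype.card (tau u v D) with hT3
  have hT30 : 0 < T3 := by positivity
  set δ : ℝ := min ε (ε' / 2) with hδ
  have hδ0 : 0 < δ := by positivity
  have hδ1 : δ ≤ ε := min_le_left _ _
  have hδ2 : δ ≤ ε' / 2 := min_le_right _ _
  have hδ3 : δ ≤ 1 := by linarith
  refine ⟨δ, F3 * B0 + (F3 + (T3 * C1 + 3 * C2)), hδ0, by positivity, ?_⟩
  intro B hB T hT
  have hB1 : (1 : ℝ) ≤ B := by exact_mod_cast hB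
  have hBpos : (0 : ℝ) < B := by linarith
  have hTbox : T ⊆ box w B := by
    intro a ha
    unfold box
    rw [Fintype.mem_piFinset]
    intro s
    have := (hT a ha).1 s
    rw [Finset.mem_Icc]
    simp only [hw]
    omega
  have hpow : 0 < (B : ℝ) ^ ((N : ℝ) - δ) := by positivity
  rcases lt_or_ge (B : ℝ) B0 with hsmall | hbig
  · -- small B
    have h1 : (T.card : ℝ) ≤ F3 * (B : ℝ) ^ N := by
      calc (T.card : ℝ) ≤ ((box w B).card : ℝ) := by exact_mod_cast Finset.card_le_card hTbox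
        _ ≤ _ := card_pi_le w B hB
    have h2 : (B : ℝ) ^ N ≤ B0 * (B : ℝ) ^ ((N : ℝ) - δ) := by
      have h3 : (B : ℝ) ^ N = (B : ℝ) ^ δ * (B : ℝ) ^ ((N : ℝ) - δ) := by
        rw [← Real.rpow_add hBpos, ← Real.rpow_natCast]
        congr 1
        ring
      rw [h3]
      apply mul_le_mul_of_nonneg_right _ hpow.le
      calc (B : ℝ) ^ δ ≤ (B : ℝ) ^ (1 : ℝ) := Real.rpow_le_rpow_of_exponent_le hB1 hδ3
        _ = B := Real.rpow_one _
        _ ≤ B0 := hsmall.le
    have h3 : 0 ≤ (F3 + (T3 * C1 + 3 * C2)) * (B : ℝ) ^ ((N : ℝ) - δ) := by positivity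
    calc (T.card : ℝ) ≤ F3 * (B : ℝ) ^ N := h1
      _ ≤ F3 * (B0 * (B : ℝ) ^ ((N : ℝ) - δ)) := by gcongr
      _ ≤ _ := by linarith
  · -- large B
    have hlogB : 4 * |C3| / θ ≤ Real.log B := by
      rw [Real.le_log_iff_exp_le hBpos]
      exact hbig
    have hlogB0 : 0 ≤ Real.log B := Real.log_nonneg hB1
    set t := topexp (u := u) hv hvD with ht
    set Y : ℝ := (B : ℝ) ^ ((ω : ℝ) - ε') with hY
    have hY1 : 1 ≤ Y := Real.one_le_rpow hB1 (by linarith)
    -- the good vectors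
    have hgood : ∀ a : full u v D → ℤ, a ∈ box w B → (B : ℝ) ^ ((w t : ℝ) - ε) ≤ |(a t : ℝ)| →
        evA (res a) M ≠ 0 → (χ.map (evA (res a))).eval (-(a (origin u v D))) ≠ 0 →
        Y < Nstar a → FreyHolds κ a := by
      intro a ha hat hMa hχa hYa
      obtain ⟨_, hfa⟩ := hfam a hMa
      obtain ⟨hgc, hsm, hns, hfin, _⟩ := hfa hχa
      have hbox : ∀ s : full u v D, |(a s : ℝ)| ≤ (B : ℝ) ^ w s := by
        intro s
        unfold box at ha
        rw [Fintype.mem_piFinset] at ha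
        have h1 := ha s
        rw [Finset.mem_Icc] at h1
        rw [abs_le]
        constructor
        · exact_mod_cast h1.1
        · exact_mod_cast h1.2
      obtain ⟨hint, hpd, h6⟩ := hheight B ε hB a hbox hat hgc
      refine ⟨hsm, hns, hint, hpd, hfin, ?_⟩
      change hW a ≤ (S + g * e * ε) * Real.log B + C3 at h6
      have h7 : ((ω : ℝ) - ε') * Real.log B ≤ Real.log (Nstar a) := by
        have := Real.log_le_log (by linarith) hYa.le
        rwa [hY, Real.log_rpow hBpos] at this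
      have h8 : κ * (((ω : ℝ) - ε') * Real.log B) ≤ κ * Real.log (Nstar a) := by gcongr
      have h9 : |C3| ≤ θ / 4 * Real.log B := by
        rw [div_le_iff₀ hθ0] at hlogB
        linarith
      have h10 : C3 ≤ |C3| := le_abs_self _
      have h11 : (S + g * e * ε) * Real.log B + θ / 4 * Real.log B ≤
          κ * (((ω : ℝ) - ε') * Real.log B) := by
        have h12 : S + g * e * ε + θ / 4 ≤ κ * ((ω : ℝ) - ε') := by
          have : κ * ((ω : ℝ) - ε') = S + θ - κ * ε' := by
            rw [hθ]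
            ring
          rw [this]
          linarith
        calc _ = (S + g * e * ε + θ / 4) * Real.log B := by ring
          _ ≤ (κ * ((ω : ℝ) - ε')) * Real.log B := by gcongr
          _ = _ := by ring
      linarith
    -- split the bad vectors
    set T1 := T.filter (fun a => |(a t : ℝ)| < (B : ℝ) ^ ((w t : ℝ) - ε)) with hT1
    set P : (full u v D → ℤ) → Prop := fun a => evA (res a) M = 0 ∨
      (χ.map (evA (res a))).eval (-(a (origin u v D))) = 0 ∨ (Nstar a : ℝ) ≤ Y with hP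
    have hcover : T ⊆ T1 ∪ (box w B).filter P := by
      intro a ha
      rw [Finset.mem_union]
      by_cases h1 : |(a t : ℝ)| < (B : ℝ) ^ ((w t : ℝ) - ε)
      · left
        rw [hT1, Finset.mem_filter]
        exact ⟨ha, h1⟩
      · right
        rw [Finset.mem_filter]
        refine ⟨hTbox ha, ?_⟩
        push Not at h1
        by_contra hcon
        rw [hP] at hcon
        push Not at hcon
        exact (hT a ha).2 (hgood a (hTbox ha) h1 hcon.1 hcon.2.1 hcon.2.2)
    have hwt1 : ε < w t := by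
      have : (1 : ℝ) ≤ w t := by exact_mod_cast hw1 t
      linarith
    have hc1 : (T1.card : ℝ) ≤ F3 * (B : ℝ) ^ ((N : ℝ) - ε) :=
      card_small_le w t hwt1 B hB T1 ((Finset.filter_subset _ _).trans hTbox)
        (fun a ha => (Finset.mem_filter.mp ha).2)
    have hc2 : (((box w B).filter P).card : ℝ) ≤ (T3 * C1 + 3 * C2) * (B : ℝ) ^ ((N : ℝ) - δ) := by
      have h1 := card_box_le (fun s : full u v D =>
        Finset.Icc (-((B ^ w s : ℕ) : ℤ)) ((B ^ w s : ℕ) : ℤ)) P
      set Bt := Fintype.piFinset (fun i : tau u v D =>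
        Finset.Icc (-((B ^ w i.1 : ℕ) : ℤ)) ((B ^ w i.1 : ℕ) : ℤ)) with hBt
      have hBtc : (Bt.card : ℝ) ≤ T3 * (B : ℝ) ^ N' :=
        card_pi_le (fun i : tau u v D => w i.1) B hB
      rw [hwo] at h1
      set I := Finset.Icc (-((B ^ ω : ℕ) : ℤ)) ((B ^ ω : ℕ) : ℤ) with hI
      have hIc : (I.card : ℝ) ≤ 3 * (B : ℝ) ^ ω := card_Icc_le B ω hB
      have hfib : ∀ b ∈ Bt, ((I.filter (fun c => P (ext b c))).card : ℝ) ≤
          C1 * (B : ℝ) ^ ((ω : ℝ) - ε' / 2) + if evA b M = 0 then (I.card : ℝ) else 0 := by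
        intro b hb
        have hpos : 0 ≤ C1 * (B : ℝ) ^ ((ω : ℝ) - ε' / 2) := by positivity
        split_ifs with h0
        · have : ((I.filter (fun c => P (ext b c))).card : ℝ) ≤ I.card := by
            exact_mod_cast Finset.card_filter_le _ _
          linarith
        · rw [add_zero]
          rw [hBt, Fintype.mem_piFinset] at hb
          have hbH : ∀ i, (b i).natAbs ≤ B ^ ω := by
            intro i
            have h2 := hb i
            rw [Finset.mem_Icc] at h2
            have h3 : B ^ w i.1 ≤ B ^ ω := by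
              apply Nat.pow_le_pow_right hB
              have := hwadd i.1
              omega
            omega
          have hH1 : 1 ≤ B ^ ω := Nat.one_le_pow _ _ hB
          obtain ⟨hd, _⟩ := hfam (ext b 0) (by rw [res_ext]; exact h0)
          rw [res_ext] at hd
          have h4 := hline (B ^ ω) hH1 b hbH h0 hd (fun c => Nstar (ext b c)) (by
            intro c hc
            obtain ⟨_, h5⟩ := hfam (ext b c) (by rw [res_ext]; exact h0)
            rw [res_ext, ext_origin] at h5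
            exact (h5 hc).2.2.2.2) Y hY1
          have h5 : I.filter (fun c => P (ext b c)) ⊆ (Finset.Icc (-((B ^ ω : ℕ) : ℤ))
              ((B ^ ω : ℕ) : ℤ)).filter (fun c => (χ.map (evA b)).eval (-c) = 0 ∨
                ((Nstar (ext b c) : ℕ) : ℝ) ≤ Y) := by
            intro c hc
            rw [Finset.mem_filter] at hc ⊢
            refine ⟨hc.1, ?_⟩
            have h6 := hc.2
            rw [hP] at h6
            simp only [res_ext, ext_origin] at h6
            exact h6.resolve_left h0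
          have h6 : ((I.filter (fun c => P (ext b c))).card : ℝ) ≤
              C1 * Y * (Y * ((B ^ ω : ℕ) : ℝ)) ^ η := by
            refine le_trans ?_ h4
            exact_mod_cast Finset.card_le_card h5
          refine h6.trans ?_
          have h7 : (Y * ((B ^ ω : ℕ) : ℝ)) ^ η ≤ (B : ℝ) ^ (ε' / 2) := by
            have h8 : Y * ((B ^ ω : ℕ) : ℝ) ≤ (B : ℝ) ^ (2 * (ω : ℝ)) := by
              have h9 : ((B ^ ω : ℕ) : ℝ) = (B : ℝ) ^ (ω : ℝ) := by
                rw [Real.rpow_natCast]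
                push_cast
                rfl
              rw [h9, hY, ← Real.rpow_add hBpos]
              apply Real.rpow_le_rpow_of_exponent_le hB1
              linarith
            calc (Y * ((B ^ ω : ℕ) : ℝ)) ^ η ≤ ((B : ℝ) ^ (2 * (ω : ℝ))) ^ η :=
                  Real.rpow_le_rpow (by positivity) h8 hη0.le
              _ = (B : ℝ) ^ (2 * (ω : ℝ) * η) := (Real.rpow_mul hBpos.le _ _).symm
              _ = (B : ℝ) ^ (ε' / 2) := by
                  congr 1
                  rw [hη]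
                  field_simp
                  ring
          calc C1 * Y * (Y * ((B ^ ω : ℕ) : ℝ)) ^ η ≤ C1 * Y * (B : ℝ) ^ (ε' / 2) := by gcongr
            _ = C1 * ((B : ℝ) ^ ((ω : ℝ) - ε') * (B : ℝ) ^ (ε' / 2)) := by
                rw [hY]
                ring
            _ = C1 * (B : ℝ) ^ ((ω : ℝ) - ε' / 2) := by
                rw [← Real.rpow_add hBpos]
                congr 2
                ring
      have hz : ((Bt.filter (fun b => evA b M = 0)).card : ℝ) * B ≤ C2 * (B : ℝ) ^ N' := hzero B hB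
      have hNr : (N : ℝ) = ω + N' := by
        rw [hNN]
        push_cast
        rfl
      have hz2 : ((Bt.filter (fun b => evA b M = 0)).card : ℝ) * I.card ≤
          3 * C2 * (B : ℝ) ^ ((N : ℝ) - δ) := by
        have k1 : ((Bt.filter (fun b => evA b M = 0)).card : ℝ) ≤ C2 * (B : ℝ) ^ N' / B := by
          rw [le_div_iff₀ hBpos]
          exact hz
        calc ((Bt.filter (fun b => evA b M = 0)).card : ℝ) * I.card
            ≤ (C2 * (B : ℝ) ^ N' / B) * (3 * (B : ℝ) ^ ω) := by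
              apply mul_le_mul k1 hIc (Nat.cast_nonneg _) (by positivity)
          _ = 3 * C2 * ((B : ℝ) ^ ω * (B : ℝ) ^ N' / B) := by ring
          _ = 3 * C2 * (B : ℝ) ^ ((N : ℝ) - 1) := by
              congr 1
              rw [← pow_add, ← hNN, Real.rpow_sub hBpos, Real.rpow_natCast, Real.rpow_one]
          _ ≤ 3 * C2 * (B : ℝ) ^ ((N : ℝ) - δ) := by
              gcongr
      have hm2 : (Bt.card : ℝ) * (C1 * (B : ℝ) ^ ((ω : ℝ) - ε' / 2)) ≤
          T3 * C1 * (B : ℝ) ^ ((N : ℝ) - δ) := by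
        calc (Bt.card : ℝ) * (C1 * (B : ℝ) ^ ((ω : ℝ) - ε' / 2))
            ≤ (T3 * (B : ℝ) ^ N') * (C1 * (B : ℝ) ^ ((ω : ℝ) - ε' / 2)) := by gcongr
          _ = T3 * C1 * ((B : ℝ) ^ (N' : ℝ) * (B : ℝ) ^ ((ω : ℝ) - ε' / 2)) := by
              rw [Real.rpow_natCast]
              ring
          _ = T3 * C1 * (B : ℝ) ^ ((N : ℝ) - ε' / 2) := by
              rw [← Real.rpow_add hBpos, hNr]
              congr 2
              ring
          _ ≤ _ := by
              gcongr
      have h1r : (((box w B).filter P).card : ℝ) ≤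
          ∑ b ∈ Bt, ((I.filter (fun c => P (ext b c))).card : ℝ) := by exact_mod_cast h1
      calc (((box w B).filter P).card : ℝ)
          ≤ ∑ b ∈ Bt, ((I.filter (fun c => P (ext b c))).card : ℝ) := h1r
        _ ≤ ∑ b ∈ Bt, (C1 * (B : ℝ) ^ ((ω : ℝ) - ε' / 2) +
              if evA b M = 0 then (I.card : ℝ) else 0) := Finset.sum_le_sum hfib
        _ = (Bt.card : ℝ) * (C1 * (B : ℝ) ^ ((ω : ℝ) - ε' / 2)) +
              ((Bt.filter (fun b => evA b M = 0)).card : ℝ) * I.card := by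
            rw [Finset.sum_add_distrib, Finset.sum_const, nsmul_eq_mul, ← Finset.sum_filter,
              Finset.sum_const, nsmul_eq_mul]
        _ ≤ T3 * C1 * (B : ℝ) ^ ((N : ℝ) - δ) + 3 * C2 * (B : ℝ) ^ ((N : ℝ) - δ) :=
            add_le_add hm2 hz2
        _ = _ := by ring
    have hc3 : (T.card : ℝ) ≤ (T1.card : ℝ) + (((box w B).filter P).card : ℝ) := by
      have := (Finset.card_le_card hcover).trans (Finset.card_union_le _ _)
      exact_mod_cast this
    have hc4 : F3 * (B : ℝ) ^ ((N : ℝ) - ε) ≤ F3 * (B : ℝ) ^ ((N : ℝ) - δ) := by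
      gcongr
    have hc5 : 0 ≤ F3 * B0 * (B : ℝ) ^ ((N : ℝ) - δ) := by positivity
    calc (T.card : ℝ) ≤ F3 * (B : ℝ) ^ ((N : ℝ) - δ) +
          (T3 * C1 + 3 * C2) * (B : ℝ) ^ ((N : ℝ) - δ) := by linarith
      _ ≤ (F3 * B0 + (F3 + (T3 * C1 + 3 * C2))) * (B : ℝ) ^ ((N : ℝ) - δ) := by linarith

end Pool.Agent.Helper90Frey
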