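import Pool.Agent.Helper90_Frey.Slice

/-!
# Continuity of sums over the roots, and the size of the derivative at the roots
-/

namespace Pool.Agent.Helper90Frey

open Polynomial Filter Topology

lemma exists_pos_le {ι : Type*} (s : Finset ι) (f : ι → ℝ) (h : ∀ i ∈ s, 0 < f i) :
    ∃ ε : ℝ, 0 < ε ∧ ∀ i ∈ s, ε ≤ f i := by
  rcases s.eq_empty_or_nonempty with hs | hs
  · refine ⟨1, one_pos, ?_⟩
    intro i hi
    rw [hs] at hi
    exact absurd hi (Finset.notMem_empty i)
  · obtain ⟨i, hi, hmin⟩ := s.exists_min_image f hs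
    exact ⟨f i, h i hi, hmin⟩

variable {F : MvPolynomial (Fin 2) ℂ} {e : ℕ} {l : ℂ}

/-- The slice has distinct roots exactly if the derivative does not vanish at the roots. -/
lemma Lead.card_eq_iff (h : Lead F e l) (x : ℂ) : (rts F x).card = e ↔
    ∀ y, val F x y = 0 → val (MvPolynomial.pderiv 1 F) x y ≠ 0 := by
  classical
  have h1 : (rts F x).card = e ↔ (slice F x).roots.Nodup := by
    rw [← Multiset.toFinset_card_eq_card_iff_nodup, h.card_roots]
    rfl
  rw [h1, Multiset.nodup_iff_count_le_one]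
  constructor
  · intro h2 y hy h3
    have h4 := h2 y
    rw [count_roots] at h4
    have h5 : 1 < (slice F x).rootMultiplicity y := by
      rw [one_lt_rootMultiplicity_iff_isRoot (h.ne_zero x)]
      constructor
      · rw [IsRoot.def, slice_eval, hy]
      · rw [IsRoot.def, slice_derivative, slice_eval, h3]
    omega
  · intro h2 y
    rw [count_roots]
    by_contra h3
    push Not at h3
    rw [one_lt_rootMultiplicity_iff_isRoot (h.ne_zero x)] at h3
    obtain ⟨h4, h5⟩ := h3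
    rw [IsRoot.def, slice_eval] at h4
    rw [IsRoot.def, slice_derivative, slice_eval] at h5
    exact h2 y h4 h5

/-- The roots of nearby slices, matched with the roots of a slice with distinct roots. -/
lemma Lead.matching (h : Lead F e l) {x₀ : ℂ} (hc : (rts F x₀).card = e) {δ : ℝ} (hδ : 0 < δ) :
    ∀ᶠ x in 𝓝 x₀, ∃ r : ℂ → ℂ, (∀ y ∈ rts F x₀, ‖r y - y‖ < δ) ∧
      Set.InjOn r (rts F x₀) ∧ (rts F x₀).image r = rts F x := by
  classical
  obtain ⟨ε, hε, hsep⟩ := exists_pos_le (rts F x₀).offDiag (fun q => ‖q.1 - q.2‖) (by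
    intro q hq
    rw [Finset.mem_offDiag] at hq
    exact norm_pos_iff.mpr (sub_ne_zero.mpr hq.2.2))
  set δ' : ℝ := min δ (ε / 2) with hδ'
  have hδ'0 : 0 < δ' := by positivity
  have hev : ∀ᶠ x in 𝓝 x₀, ∀ y₀ ∈ rts F x₀, ∃ y ∈ rts F x, ‖y - y₀‖ < δ' := by
    rw [Finset.eventually_all]
    intro y₀ hy₀
    exact h.eventually_exists x₀ hδ'0 (h.mem_rts.mp hy₀)
  filter_upwards [hev] with x hx
  choose! r hr1 hr2 using hx
  have hinj : Set.InjOn r (rts F x₀) := by
    intro y hy y' hy' heq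
    by_contra hne
    have h1 := hsep (y, y') (Finset.mem_offDiag.mpr ⟨hy, hy', hne⟩)
    simp only at h1
    have h2 := hr2 y hy
    have h3 := hr2 y' hy'
    have h4 : ‖y - y'‖ ≤ ‖r y - y‖ + ‖r y' - y'‖ := by
      have : y - y' = (r y' - y') - (r y - y) := by
        rw [heq]
        ring
      rw [this, add_comm]
      exact norm_sub_le _ _
    have h5 : δ' ≤ ε / 2 := min_le_right _ _
    linarith
  refine ⟨r, fun y hy => lt_of_lt_of_le (hr2 y hy) (min_le_left _ _), hinj, ?_⟩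
  apply Finset.eq_of_subset_of_card_le
  · intro y hy
    rw [Finset.mem_image] at hy
    obtain ⟨y', hy', rfl⟩ := hy
    exact hr1 y' hy'
  · rw [Finset.card_image_of_injOn hinj, hc]
    exact h.card_rts_le x

/-- Sums over the roots are continuous where the roots are distinct. -/
theorem Lead.continuousAt_sum (h : Lead F e l) {x₀ : ℂ} (hc : (rts F x₀).card = e)
    (g : ℂ × ℂ → ℂ) (hg : ∀ y ∈ rts F x₀, ContinuousAt g (x₀, y)) :
    ContinuousAt (fun x => ∑ y ∈ rts F x, g (x, y)) x₀ := by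
  classical
  rw [Metric.continuousAt_iff']
  intro ε hε
  have hε' : 0 < ε / (e + 1) := by positivity
  have hchoose : ∀ y ∈ rts F x₀, ∃ δ : ℝ, 0 < δ ∧ ∀ z : ℂ × ℂ, dist z (x₀, y) < δ →
      dist (g z) (g (x₀, y)) < ε / (e + 1) := by
    intro y hy
    obtain ⟨δ, hδ, h1⟩ := Metric.continuousAt_iff.mp (hg y hy) _ hε'
    exact ⟨δ, hδ, fun z hz => h1 hz⟩
  choose! δf hδf hgf using hchoose
  obtain ⟨δ, hδ, hmin⟩ := exists_pos_le (rts F x₀) δf hδf
  have hball : ∀ᶠ x in 𝓝 x₀, dist x x₀ < δ := Metric.ball_mem_nhds x₀ hδ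
  filter_upwards [h.matching hc hδ, hball] with x hx hxb
  obtain ⟨r, hr1, hr2, hr3⟩ := hx
  rw [← hr3, Finset.sum_image hr2]
  calc dist (∑ y ∈ rts F x₀, g (x, r y)) (∑ y ∈ rts F x₀, g (x₀, y))
      ≤ ∑ y ∈ rts F x₀, dist (g (x, r y)) (g (x₀, y)) := dist_sum_sum_le _ _ _
    _ ≤ ∑ _y ∈ rts F x₀, ε / (e + 1) := by
        apply Finset.sum_le_sum
        intro y hy
        apply le_of_lt
        apply hgf y hy
        rw [Prod.dist_eq, max_lt_iff]
        constructor
        · exact lt_of_lt_of_le hxb (hmin y hy)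
        · rw [dist_eq_norm]
          exact lt_of_lt_of_le (hr1 y hy) (hmin y hy)
    _ = e * (ε / (e + 1)) := by rw [Finset.sum_const, hc, nsmul_eq_mul]
    _ < ε := by
        rw [mul_div_assoc', div_lt_iff₀ (by positivity)]
        nlinarith

/-- Distinctness of the roots is an open condition. -/
lemma Lead.isOpen_card (h : Lead F e l) : IsOpen {x | (rts F x).card = e} := by
  classical
  rw [isOpen_iff_mem_nhds]
  intro x₀ hx₀
  filter_upwards [h.matching hx₀ one_pos] with x hx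
  obtain ⟨r, _, hr2, hr3⟩ := hx
  show (rts F x).card = e
  rw [← hr3, Finset.card_image_of_injOn hr2]
  exact hx₀

/-- The size of the derivative near a smooth point. -/
lemma local_lower (h : Lead F e l) {x₀ y₀ : ℂ} (hy₀ : val F x₀ y₀ = 0)
    (hs : val (MvPolynomial.pderiv 0 F) x₀ y₀ ≠ 0 ∨ val (MvPolynomial.pderiv 1 F) x₀ y₀ ≠ 0) :
    ∃ c : ℝ, 0 < c ∧ ∃ δ : ℝ, 0 < δ ∧ ∀ x y, ‖x - x₀‖ < δ → ‖y - y₀‖ < δ → val F x y = 0 →
      c * ‖x - x₀‖ ^ (((e : ℝ) - 1) / e) ≤ ‖val (MvPolynomial.pderiv 1 F) x y‖ := by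
  set q := slice F x₀ with hq
  have hq0 : q ≠ 0 := h.ne_zero x₀
  obtain ⟨u, hu1, hu2⟩ := Polynomial.exists_eq_pow_rootMultiplicity_mul_and_not_dvd q hq0 y₀
  set m := rootMultiplicity y₀ q with hm
  have hu3 : u.eval y₀ ≠ 0 := fun h0 => hu2 (dvd_iff_isRoot.mpr h0)
  have hm1 : 1 ≤ m := by
    rw [hm]
    apply (rootMultiplicity_pos hq0).mpr
    rw [IsRoot.def, hq, slice_eval, hy₀]
  have hme : m ≤ e := by
    rw [← (h.2 x₀).1, hm, ← count_roots, ← (h.card_roots x₀).trans (h.2 x₀).1.symm]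
    exact Multiset.count_le_card _ _
  have he1 : (1 : ℝ) ≤ e := by exact_mod_cast hm1.trans hme
  have hα0 : 0 ≤ ((e : ℝ) - 1) / e := by
    apply div_nonneg <;> linarith
  have hder : ∀ y, val (MvPolynomial.pderiv 1 F) x₀ y =
      (y - y₀) ^ (m - 1) * (m * u.eval y + (y - y₀) * (derivative u).eval y) := by
    intro y
    rw [← slice_eval, ← slice_derivative, ← hq, hu1, derivative_mul, derivative_X_sub_C_pow]
    simp only [eval_add, eval_mul, eval_C, eval_pow, eval_sub, eval_X]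
    obtain ⟨k, hk⟩ : ∃ k, m = k + 1 := ⟨m - 1, by omega⟩
    rw [hk]
    simp only [Nat.add_sub_cancel]
    ring
  by_cases hFy : val (MvPolynomial.pderiv 1 F) x₀ y₀ = 0
  · have hFx := hs.resolve_right (fun hh => hh hFy)
    have hm2 : 2 ≤ m := by
      by_contra hcon
      have hm' : m = 1 := by omega
      have := hder y₀
      rw [hFy, hm'] at this
      simp at this
      exact hu3 this.symm
    obtain ⟨w, hw1, hw2⟩ := exists_quotient F x₀
    obtain ⟨w', hw1', _⟩ := exists_quotient (MvPolynomial.pderiv 1 F) x₀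
    have hw0 : val w x₀ y₀ ≠ 0 := by rwa [hw2]
    set w0 : ℝ := ‖val w x₀ y₀‖ / 2 with hw0'
    have hw0p : 0 < w0 := by
      have := norm_pos_iff.mpr hw0
      positivity
    set U : ℝ := ‖u.eval y₀‖ + 1 with hU
    have hUp : 0 < U := by positivity
    set W' : ℝ := ‖val w' x₀ y₀‖ + 1 with hW'
    have hW'p : 0 < W' := by positivity
    set c1 : ℝ := ‖u.eval y₀‖ with hc1
    have hc1p : 0 < c1 := norm_pos_iff.mpr hu3
    have hmpos : (1 : ℝ) ≤ m := by exact_mod_cast hm1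
    have hE : ∀ᶠ z : ℂ × ℂ in 𝓝 (x₀, y₀), w0 ≤ ‖val w z.1 z.2‖ ∧ ‖u.eval z.2‖ ≤ U ∧
        ‖val w' z.1 z.2‖ ≤ W' ∧
        c1 / 2 ≤ ‖m * u.eval z.2 + (z.2 - y₀) * (derivative u).eval z.2‖ ∧
        ‖z.1 - x₀‖ < 1 ∧ ‖z.2 - y₀‖ * (U * W' / w0) ≤ c1 / 4 := by
      have k1 : Continuous (fun z : ℂ × ℂ => ‖val w z.1 z.2‖) := (continuous_val w).norm
      have k2 : Continuous (fun z : ℂ × ℂ => ‖u.eval z.2‖) :=
        (u.continuous.comp continuous_snd).norm
      have k3 : Continuous (fun z : ℂ × ℂ => ‖val w' z.1 z.2‖) := (continuous_val w').norm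
      have k4 : Continuous (fun z : ℂ × ℂ =>
          ‖m * u.eval z.2 + (z.2 - y₀) * (derivative u).eval z.2‖) := by
        have a1 := u.continuous.comp (continuous_snd (X := ℂ) (Y := ℂ))
        have a2 := (derivative u).continuous.comp (continuous_snd (X := ℂ) (Y := ℂ))
        have a3 : Continuous (fun z : ℂ × ℂ => z.2 - y₀) := by fun_prop
        exact ((continuous_const.mul a1).add (a3.mul a2)).norm
      have k5 : Continuous (fun z : ℂ × ℂ => ‖z.1 - x₀‖) := by fun_prop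
      have k6 : Continuous (fun z : ℂ × ℂ => ‖z.2 - y₀‖ * (U * W' / w0)) := by fun_prop
      have l1 : w0 < (fun z : ℂ × ℂ => ‖val w z.1 z.2‖) (x₀, y₀) := by
        have := norm_pos_iff.mpr hw0
        simp only [hw0']
        linarith
      have l2 : (fun z : ℂ × ℂ => ‖u.eval z.2‖) (x₀, y₀) < U := by
        simp only [hU]
        linarith
      have l3 : (fun z : ℂ × ℂ => ‖val w' z.1 z.2‖) (x₀, y₀) < W' := by
        simp only [hW']
        linarith
      have l4 : c1 / 2 < (fun z : ℂ × ℂ =>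
          ‖m * u.eval z.2 + (z.2 - y₀) * (derivative u).eval z.2‖) (x₀, y₀) := by
        simp only [sub_self, zero_mul, add_zero, norm_mul, Complex.norm_natCast, ← hc1]
        nlinarith
      have l5 : (fun z : ℂ × ℂ => ‖z.1 - x₀‖) (x₀, y₀) < 1 := by simp
      have l6 : (fun z : ℂ × ℂ => ‖z.2 - y₀‖ * (U * W' / w0)) (x₀, y₀) < c1 / 4 := by
        simp only [sub_self, norm_zero, zero_mul]
        positivity
      filter_upwards [continuousAt_const.eventually_lt k1.continuousAt l1,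
        k2.continuousAt.eventually_lt continuousAt_const l2,
        k3.continuousAt.eventually_lt continuousAt_const l3,
        continuousAt_const.eventually_lt k4.continuousAt l4,
        k5.continuousAt.eventually_lt continuousAt_const l5,
        k6.continuousAt.eventually_lt continuousAt_const l6] with z e1 e2 e3 e4 e5 e6
      exact ⟨e1.le, e2.le, e3.le, e4.le, e5, e6.le⟩
    obtain ⟨δ, hδ, hball⟩ := Metric.eventually_nhds_iff.mp hE
    refine ⟨c1 / 4 * (w0 / U) ^ (((m : ℝ) - 1) / m), by positivity, δ, hδ, ?_⟩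
    intro x y hx hy hxy
    obtain ⟨e1, e2, e3, e4, e5, e6⟩ := hball (y := (x, y)) (by
      rw [Prod.dist_eq, max_lt_iff, dist_eq_norm, dist_eq_norm]
      exact ⟨hx, hy⟩)
    simp only at e1 e2 e3 e4 e5 e6
    set r := ‖y - y₀‖ with hr
    set t := ‖x - x₀‖ with ht
    have hr0 : 0 ≤ r := norm_nonneg _
    have ht0 : 0 ≤ t := norm_nonneg _
    have hval : val F x₀ y = (y - y₀) ^ m * u.eval y := by
      rw [← slice_eval, ← hq, hu1]
      simp
    have f1 : r ^ m * ‖u.eval y‖ = t * ‖val w x y‖ := by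
      have := hw1 x y
      rw [hxy, zero_sub, hval] at this
      rw [hr, ht, ← norm_pow, ← norm_mul, ← norm_mul, ← this, norm_neg]
    have f2 : t * (w0 / U) ≤ r ^ m := by
      rw [mul_div_assoc', div_le_iff₀ hUp]
      calc t * w0 ≤ t * ‖val w x y‖ := by gcongr
        _ = r ^ m * ‖u.eval y‖ := f1.symm
        _ ≤ r ^ m * U := by gcongr
    have f3 : r ^ m = r ^ (m - 1) * r := by
      rw [← pow_succ]
      congr 1
      omega
    have f4 : t ≤ U / w0 * r ^ m := by
      have : t * w0 ≤ r ^ m * U := by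
        rw [mul_div_assoc', div_le_iff₀ hUp] at f2
        exact f2
      rw [div_mul_eq_mul_div, le_div_iff₀ hw0p]
      linarith
    have f5 : c1 / 4 * r ^ (m - 1) ≤ ‖val (MvPolynomial.pderiv 1 F) x y‖ := by
      have g1 : val (MvPolynomial.pderiv 1 F) x y = (y - y₀) ^ (m - 1) *
          (m * u.eval y + (y - y₀) * (derivative u).eval y) + (x - x₀) * val w' x y := by
        rw [← hder, ← hw1']
        ring
      have g2 : ‖(y - y₀) ^ (m - 1) * (m * u.eval y + (y - y₀) * (derivative u).eval y)‖ -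
          ‖(x - x₀) * val w' x y‖ ≤ ‖val (MvPolynomial.pderiv 1 F) x y‖ := by
        rw [g1]
        exact norm_sub_le_norm_add _ _
      rw [norm_mul, norm_mul, norm_pow, ← hr, ← ht] at g2
      have g3 : r ^ (m - 1) * (c1 / 2) ≤ r ^ (m - 1) *
          ‖m * u.eval y + (y - y₀) * (derivative u).eval y‖ := by gcongr
      have g4 : t * ‖val w' x y‖ ≤ r ^ (m - 1) * (c1 / 4) := by
        calc t * ‖val w' x y‖ ≤ (U / w0 * r ^ m) * W' := by gcongr
          _ = r ^ (m - 1) * (r * (U * W' / w0)) := by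
              rw [f3]
              ring
          _ ≤ r ^ (m - 1) * (c1 / 4) := by gcongr
      linarith
    have hmR : (0 : ℝ) < m := by linarith
    have f6 : (t * (w0 / U)) ^ (((m : ℝ) - 1) / m) ≤ r ^ (m - 1) := by
      have g1 := Real.rpow_le_rpow (by positivity) f2
        (show (0 : ℝ) ≤ ((m : ℝ) - 1) / m by
          apply div_nonneg <;> linarith)
      refine g1.trans (le_of_eq ?_)
      rw [← Real.rpow_natCast r m, ← Real.rpow_natCast r (m - 1), ← Real.rpow_mul hr0]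
      congr 1
      rw [Nat.cast_sub hm1]
      field_simp
      simp
    have f7 : t ^ (((e : ℝ) - 1) / e) ≤ t ^ (((m : ℝ) - 1) / m) := by
      rcases eq_or_lt_of_le ht0 with h0 | h0
      · rw [← h0]
        have hm1' : ((m : ℝ) - 1) / m ≠ 0 := by
          have : (2 : ℝ) ≤ m := by exact_mod_cast hm2
          have : 0 < ((m : ℝ) - 1) / m := by
            apply div_pos <;> linarith
          exact this.ne'
        have he1' : ((e : ℝ) - 1) / e ≠ 0 := by
          have : (2 : ℝ) ≤ e := by exact_mod_cast hm2.trans hme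
          have : 0 < ((e : ℝ) - 1) / e := by
            apply div_pos <;> linarith
          exact this.ne'
        rw [Real.zero_rpow hm1', Real.zero_rpow he1']
      · apply Real.rpow_le_rpow_of_exponent_ge h0 e5.le
        rw [div_le_div_iff₀ hmR (by linarith)]
        have : (m : ℝ) ≤ e := by exact_mod_cast hme
        nlinarith
    calc c1 / 4 * (w0 / U) ^ (((m : ℝ) - 1) / m) * t ^ (((e : ℝ) - 1) / e)
        ≤ c1 / 4 * (w0 / U) ^ (((m : ℝ) - 1) / m) * t ^ (((m : ℝ) - 1) / m) := by gcongr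
      _ = c1 / 4 * (t * (w0 / U)) ^ (((m : ℝ) - 1) / m) := by
          rw [Real.mul_rpow ht0 (by positivity)]
          ring
      _ ≤ c1 / 4 * r ^ (m - 1) := by gcongr
      _ ≤ _ := f5
  · set c : ℝ := ‖val (MvPolynomial.pderiv 1 F) x₀ y₀‖ / 2 with hc
    have hcp : 0 < c := by
      have := norm_pos_iff.mpr hFy
      positivity
    have hE : ∀ᶠ z : ℂ × ℂ in 𝓝 (x₀, y₀), c ≤ ‖val (MvPolynomial.pderiv 1 F) z.1 z.2‖ ∧
        ‖z.1 - x₀‖ < 1 := by
      have k1 : Continuous (fun z : ℂ × ℂ => ‖val (MvPolynomial.pderiv 1 F) z.1 z.2‖) :=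
        (continuous_val _).norm
      have k5 : Continuous (fun z : ℂ × ℂ => ‖z.1 - x₀‖) := by fun_prop
      have l1 : c < (fun z : ℂ × ℂ => ‖val (MvPolynomial.pderiv 1 F) z.1 z.2‖) (x₀, y₀) := by
        have := norm_pos_iff.mpr hFy
        simp only [hc]
        linarith
      have l5 : (fun z : ℂ × ℂ => ‖z.1 - x₀‖) (x₀, y₀) < 1 := by simp
      filter_upwards [continuousAt_const.eventually_lt k1.continuousAt l1,
        k5.continuousAt.eventually_lt continuousAt_const l5] with z e1 e5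
      exact ⟨e1.le, e5⟩
    obtain ⟨δ, hδ, hball⟩ := Metric.eventually_nhds_iff.mp hE
    refine ⟨c, hcp, δ, hδ, ?_⟩
    intro x y hx hy hxy
    obtain ⟨e1, e5⟩ := hball (y := (x, y)) (by
      rw [Prod.dist_eq, max_lt_iff, dist_eq_norm, dist_eq_norm]
      exact ⟨hx, hy⟩)
    simp only at e1 e5
    have : ‖x - x₀‖ ^ (((e : ℝ) - 1) / e) ≤ 1 := Real.rpow_le_one (norm_nonneg _) e5.le hα0
    calc c * ‖x - x₀‖ ^ (((e : ℝ) - 1) / e) ≤ c * 1 := by gcongr
      _ ≤ _ := by linarith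

/-- The size of the derivative at all roots of nearby slices. -/
theorem Lead.eventually_lower (h : Lead F e l) (x₀ : ℂ)
    (hs : ∀ y, val F x₀ y = 0 → val (MvPolynomial.pderiv 0 F) x₀ y ≠ 0 ∨
      val (MvPolynomial.pderiv 1 F) x₀ y ≠ 0) :
    ∃ c : ℝ, 0 < c ∧ ∀ᶠ x in 𝓝 x₀, ∀ y, val F x y = 0 →
      c * ‖x - x₀‖ ^ (((e : ℝ) - 1) / e) ≤ ‖val (MvPolynomial.pderiv 1 F) x y‖ := by
  have hch : ∀ y₀ ∈ rts F x₀, ∃ q : ℝ × ℝ, 0 < q.1 ∧ 0 < q.2 ∧ ∀ x y, ‖x - x₀‖ < q.2 →
      ‖y - y₀‖ < q.2 → val F x y = 0 →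
      q.1 * ‖x - x₀‖ ^ (((e : ℝ) - 1) / e) ≤ ‖val (MvPolynomial.pderiv 1 F) x y‖ := by
    intro y₀ hy₀
    obtain ⟨c, hc, δ, hδ, h1⟩ := local_lower h (h.mem_rts.mp hy₀) (hs y₀ (h.mem_rts.mp hy₀))
    exact ⟨(c, δ), hc, hδ, h1⟩
  choose! q hq1 hq2 hq3 using hch
  obtain ⟨c, hc, hcm⟩ := exists_pos_le (rts F x₀) (fun y => (q y).1) hq1
  obtain ⟨δ, hδ, hδm⟩ := exists_pos_le (rts F x₀) (fun y => (q y).2) hq2
  refine ⟨c, hc, ?_⟩
  have hball : ∀ᶠ x in 𝓝 x₀, ‖x - x₀‖ < δ := by
    have := Metric.ball_mem_nhds x₀ hδ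
    filter_upwards [this] with x hx
    rwa [Metric.mem_ball, dist_eq_norm] at hx
  filter_upwards [h.eventually_near x₀ hδ, hball] with x h1 h2 y hy
  obtain ⟨y₀, hy₀, hyy⟩ := h1 y hy
  refine le_trans ?_ (hq3 y₀ hy₀ x y (lt_of_lt_of_le h2 (hδm y₀ hy₀))
    (lt_of_lt_of_le hyy (hδm y₀ hy₀)) hy)
  have := hcm y₀ hy₀
  gcongr

end Pool.Agent.Helper90Frey
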