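import Mathlib

/-!
# Slices of a polynomial in two variables and continuity of their roots
-/

namespace Pool.Agent.Helper90Frey

open Polynomial Filter Topology

/-- The polynomial `F (x, Y)` in `Y`. -/
noncomputable def slice (F : MvPolynomial (Fin 2) ℂ) (x : ℂ) : ℂ[X] :=
  MvPolynomial.aeval ![C x, X] F

/-- The value `F (x, y)`. -/
noncomputable def val (F : MvPolynomial (Fin 2) ℂ) (x y : ℂ) : ℂ :=
  MvPolynomial.eval ![x, y] F

lemma slice_eval (F : MvPolynomial (Fin 2) ℂ) (x y : ℂ) : (slice F x).eval y = val F x y := by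
  unfold slice val
  rw [← coe_evalRingHom, MvPolynomial.aeval_def, MvPolynomial.hom_eval₂]
  rw [MvPolynomial.eval, MvPolynomial.coe_eval₂Hom]
  congr 1
  · ext z
    simp
  · funext i
    fin_cases i
    · simp
    · simp

lemma slice_derivative (F : MvPolynomial (Fin 2) ℂ) (x : ℂ) :
    derivative (slice F x) = slice (MvPolynomial.pderiv 1 F) x := by
  unfold slice
  induction F using MvPolynomial.induction_on with
  | C a => simp
  | add p q hp hq => simp only [map_add, hp, hq]
  | mul_X p i hp =>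
    rw [map_mul, derivative_mul, hp, Derivation.leibniz, smul_eq_mul, smul_eq_mul, map_add,
      map_mul, map_mul]
    fin_cases i
    · simp [mul_comm]
    · simp
      ring

lemma continuous_val (F : MvPolynomial (Fin 2) ℂ) :
    Continuous (fun z : ℂ × ℂ => val F z.1 z.2) := by
  unfold val
  induction F using MvPolynomial.induction_on with
  | C a => simpa using continuous_const
  | add p q hp hq =>
    simp only [map_add]
    exact hp.add hq
  | mul_X p i hp =>
    simp only [map_mul, MvPolynomial.eval_X]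
    refine hp.mul ?_
    fin_cases i
    · exact continuous_fst
    · exact continuous_snd

/-- The difference quotient in the first variable. -/
lemma exists_quotient (F : MvPolynomial (Fin 2) ℂ) (x₀ : ℂ) : ∃ w : MvPolynomial (Fin 2) ℂ,
    (∀ x y, val F x y - val F x₀ y = (x - x₀) * val w x y) ∧
      ∀ y, val w x₀ y = val (MvPolynomial.pderiv 0 F) x₀ y := by
  induction F using MvPolynomial.induction_on with
  | C a =>
    refine ⟨0, ?_, ?_⟩
    · intro x y
      simp [val]
    · intro y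
      simp [val]
  | add p q hp hq =>
    obtain ⟨w, h1, h2⟩ := hp
    obtain ⟨w', h1', h2'⟩ := hq
    refine ⟨w + w', ?_, ?_⟩
    · intro x y
      have e1 := h1 x y
      have e2 := h1' x y
      unfold val at e1 e2 ⊢
      rw [map_add, map_add, map_add]
      linear_combination e1 + e2
    · intro y
      have e1 := h2 y
      have e2 := h2' y
      unfold val at e1 e2 ⊢
      rw [map_add, map_add, map_add, e1, e2]
  | mul_X p i hp =>
    obtain ⟨w, h1, h2⟩ := hp
    fin_cases i
    · refine ⟨w * MvPolynomial.X 0 + MvPolynomial.C 1 * p -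
        MvPolynomial.C 1 * (MvPolynomial.X 0 - MvPolynomial.C x₀) * w, ?_, ?_⟩
      · intro x y
        have e1 := h1 x y
        unfold val at e1 ⊢
        simp only [map_sub, map_mul, map_add, MvPolynomial.eval_X, MvPolynomial.eval_C,
          Fin.zero_eta, Matrix.cons_val_zero] at e1 ⊢
        linear_combination x₀ * e1
      · intro y
        have e1 := h2 y
        unfold val at e1 ⊢
        rw [Derivation.leibniz]
        simp [e1]
        ring
    · refine ⟨w * MvPolynomial.X 1, ?_, ?_⟩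
      · intro x y
        have e1 := h1 x y
        unfold val at e1 ⊢
        simp only [map_mul, MvPolynomial.eval_X, Fin.mk_one, Matrix.cons_val_one,
          Matrix.cons_val_fin_one] at e1 ⊢
        linear_combination y * e1
      · intro y
        have e1 := h2 y
        unfold val at e1 ⊢
        rw [Derivation.leibniz]
        simp [e1]
        ring

/-- The polynomial has degree `e` in the second variable, with constant leading coefficient. -/
def Lead (F : MvPolynomial (Fin 2) ℂ) (e : ℕ) (l : ℂ) : Prop :=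
  l ≠ 0 ∧ ∀ x, (slice F x).natDegree = e ∧ (slice F x).leadingCoeff = l

variable {F : MvPolynomial (Fin 2) ℂ} {e : ℕ} {l : ℂ}

lemma Lead.ne_zero (h : Lead F e l) (x : ℂ) : slice F x ≠ 0 := by
  intro h0
  have := (h.2 x).2
  rw [h0, leadingCoeff_zero] at this
  exact h.1 this.symm

lemma Lead.card_roots (h : Lead F e l) (x : ℂ) : (slice F x).roots.card = e := by
  rw [← (h.2 x).1]
  exact (splits_iff_card_roots.mp (IsAlgClosed.splits (slice F x)))

/-- The set of roots of a slice. -/
noncomputable def rts (F : MvPolynomial (Fin 2) ℂ) (x : ℂ) : Finset ℂ :=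
  (slice F x).roots.toFinset

lemma Lead.mem_rts (h : Lead F e l) {x y : ℂ} : y ∈ rts F x ↔ val F x y = 0 := by
  unfold rts
  rw [Multiset.mem_toFinset, mem_roots (h.ne_zero x), IsRoot.def, slice_eval]

lemma Lead.card_rts_le (h : Lead F e l) (x : ℂ) : (rts F x).card ≤ e := by
  rw [← h.card_roots x]
  exact Multiset.toFinset_card_le _

/-- The product formula. -/
lemma Lead.norm_val (h : Lead F e l) (x z : ℂ) :
    ‖val F x z‖ = ‖l‖ * (((slice F x).roots.map (fun y => ‖z - y‖)).prod) := by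
  have h1 := (IsAlgClosed.splits (slice F x)).eval_eq_prod_roots z
  rw [slice_eval, (h.2 x).2] at h1
  rw [h1, norm_mul]
  congr 1
  have h2 : ‖(((slice F x).roots.map (fun y => z - y)).prod)‖ =
      (((slice F x).roots.map (fun y => z - y)).map norm).prod :=
    (map_multiset_prod (normHom : ℂ →*₀ ℝ) _)
  rw [h2, Multiset.map_map]
  rfl

lemma pow_card_le_multiset_prod (δ : ℝ) (hδ : 0 ≤ δ) (s : Multiset ℝ) (h : ∀ t ∈ s, δ ≤ t) :
    δ ^ s.card ≤ s.prod := by
  induction s using Multiset.induction with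
  | empty => simp
  | cons a s ih =>
    rw [Multiset.card_cons, Multiset.prod_cons, pow_succ']
    exact mul_le_mul (h a (Multiset.mem_cons_self a s))
      (ih fun t ht => h t (Multiset.mem_cons_of_mem ht)) (by positivity)
      (hδ.trans (h a (Multiset.mem_cons_self a s)))

/-- If the value is small, there is a root nearby. -/
lemma Lead.exists_near (h : Lead F e l) (x z : ℂ) (δ : ℝ) (hδ : 0 < δ)
    (hs : ‖val F x z‖ < ‖l‖ * δ ^ e) : ∃ y ∈ rts F x, ‖z - y‖ < δ := by
  by_contra hcon
  push Not at hcon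
  have hl : 0 < ‖l‖ := norm_pos_iff.mpr h.1
  rw [h.norm_val x z] at hs
  have h1 : δ ^ e ≤ ((slice F x).roots.map (fun y => ‖z - y‖)).prod := by
    rw [← h.card_roots x]
    have h2 : ∀ t ∈ (slice F x).roots.map (fun y => ‖z - y‖), δ ≤ t := by
      intro t ht
      rw [Multiset.mem_map] at ht
      obtain ⟨y, hy, rfl⟩ := ht
      exact hcon y (Multiset.mem_toFinset.mpr hy)
    have h3 := pow_card_le_multiset_prod δ hδ.le _ h2
    rwa [Multiset.card_map] at h3
  have := lt_of_mul_lt_mul_left hs hl.le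
  linarith

/-- A bound for the roots. -/
lemma Lead.root_bound (h : Lead F e l) {x y : ℂ} {R M : ℝ} (hR : 0 < R) (hM : 0 ≤ M)
    (hc : ∀ j < e, ‖(slice F x).coeff j‖ * R ^ j ≤ M * ‖l‖ * R ^ e) (hy : val F x y = 0) :
    ‖y‖ ≤ (1 + e * M) * R := by
  have hl : 0 < ‖l‖ := norm_pos_iff.mpr h.1
  by_contra hcon
  push Not at hcon
  have hy0 : R < ‖y‖ := by
    have : 0 ≤ (e : ℝ) * M := by positivity
    nlinarith
  have hypos : 0 < ‖y‖ := hR.trans hy0
  have h1 : (slice F x).eval y = ∑ j ∈ Finset.range e, (slice F x).coeff j * y ^ j + l * y ^ e := by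
    rw [eval_eq_sum_range, (h.2 x).1, Finset.sum_range_succ]
    congr 2
    rw [← (h.2 x).2, leadingCoeff, (h.2 x).1]
  rw [slice_eval, hy] at h1
  have h2 : ‖l‖ * ‖y‖ ^ e ≤ ∑ j ∈ Finset.range e, ‖(slice F x).coeff j‖ * ‖y‖ ^ j := by
    have h3 : l * y ^ e = -∑ j ∈ Finset.range e, (slice F x).coeff j * y ^ j := by
      linear_combination -h1
    rw [← norm_pow, ← norm_mul, h3, norm_neg]
    refine (norm_sum_le _ _).trans (le_of_eq ?_)
    apply Finset.sum_congr rfl
    intro j _
    rw [norm_mul, norm_pow]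
  have h4 : ∀ j ∈ Finset.range e, (‖(slice F x).coeff j‖ * ‖y‖ ^ j) * ‖y‖ ≤
      M * ‖l‖ * R * ‖y‖ ^ e := by
    intro j hj
    rw [Finset.mem_range] at hj
    obtain ⟨k, hk⟩ : ∃ k, e = j + 1 + k := ⟨e - (j + 1), by omega⟩
    have h5 := hc j hj
    have h6 : ‖(slice F x).coeff j‖ ≤ M * ‖l‖ * R ^ (1 + k) := by
      rw [hk] at h5
      have h7 : M * ‖l‖ * R ^ (j + 1 + k) = M * ‖l‖ * R ^ (1 + k) * R ^ j := by ring
      rw [h7] at h5
      exact le_of_mul_le_mul_right h5 (by positivity)
    have h8 : R ^ k ≤ ‖y‖ ^ k := pow_le_pow_left₀ hR.le hy0.le k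
    calc (‖(slice F x).coeff j‖ * ‖y‖ ^ j) * ‖y‖ ≤ (M * ‖l‖ * R ^ (1 + k) * ‖y‖ ^ j) * ‖y‖ := by
          gcongr
      _ = M * ‖l‖ * R * R ^ k * ‖y‖ ^ (j + 1) := by ring
      _ ≤ M * ‖l‖ * R * ‖y‖ ^ k * ‖y‖ ^ (j + 1) := by gcongr
      _ = M * ‖l‖ * R * ‖y‖ ^ e := by
          rw [hk]
          ring
  have h9 : ‖l‖ * ‖y‖ ^ e * ‖y‖ ≤ e * (M * ‖l‖ * R * ‖y‖ ^ e) := by
    calc ‖l‖ * ‖y‖ ^ e * ‖y‖ ≤
          (∑ j ∈ Finset.range e, ‖(slice F x).coeff j‖ * ‖y‖ ^ j) * ‖y‖ := by gcongr
      _ = ∑ j ∈ Finset.range e, (‖(slice F x).coeff j‖ * ‖y‖ ^ j) * ‖y‖ := by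
          rw [Finset.sum_mul]
      _ ≤ ∑ _j ∈ Finset.range e, M * ‖l‖ * R * ‖y‖ ^ e := Finset.sum_le_sum h4
      _ = _ := by simp
  have hp : 0 < ‖l‖ * ‖y‖ ^ e := by positivity
  have h10 : ‖y‖ ≤ e * M * R := by
    have : (‖l‖ * ‖y‖ ^ e) * ‖y‖ ≤ (‖l‖ * ‖y‖ ^ e) * (e * M * R) := by
      calc _ ≤ e * (M * ‖l‖ * R * ‖y‖ ^ e) := h9
        _ = _ := by ring
    exact le_of_mul_le_mul_left this hp
  nlinarith

/-- Roots of a slice near `x₀` have a root of the slice at `x₀` nearby; the values are uniformly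
controlled. -/
lemma Lead.eventually_bounded (h : Lead F e l) (x₀ : ℂ) : ∃ R : ℝ, 0 < R ∧
    ∀ᶠ x in 𝓝 x₀, ∀ y, val F x y = 0 → ‖y‖ ≤ R := by
  have hl : 0 < ‖l‖ := norm_pos_iff.mpr h.1
  have hcont : ∀ j, Continuous (fun x => (slice F x).coeff j) := by
    intro j
    unfold slice
    clear h hl
    induction F using MvPolynomial.induction_on generalizing j with
    | C a =>
      simp only [MvPolynomial.aeval_C]
      exact continuous_const
    | add p q hp hq =>
      simp only [map_add, coeff_add]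
      exact (hp j).add (hq j)
    | mul_X p i hp =>
      fin_cases i
      · simp only [map_mul, MvPolynomial.aeval_X, Fin.zero_eta, Matrix.cons_val_zero, coeff_mul_C]
        exact (hp j).mul continuous_id
      · simp only [map_mul, MvPolynomial.aeval_X, Fin.mk_one, Matrix.cons_val_one,
          Matrix.cons_val_fin_one]
        cases j with
        | zero =>
          simp only [mul_coeff_zero, coeff_X_zero, mul_zero]
          exact continuous_const
        | succ j =>
          simp only [coeff_mul_X]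
          exact hp j
  set M : ℝ := (∑ j ∈ Finset.range e, ‖(slice F x₀).coeff j‖ + 1) / ‖l‖ with hM
  have hS : 0 ≤ ∑ j ∈ Finset.range e, ‖(slice F x₀).coeff j‖ :=
    Finset.sum_nonneg fun _ _ => norm_nonneg _
  have hM0 : 0 ≤ M := by positivity
  refine ⟨(1 + e * M) * 1, by positivity, ?_⟩
  have hev : ∀ᶠ x in 𝓝 x₀, ∀ j ∈ Finset.range e, ‖(slice F x).coeff j‖ ≤
      ∑ j ∈ Finset.range e, ‖(slice F x₀).coeff j‖ + 1 := by
    rw [Finset.eventually_all]
    intro j hj
    have h1 : ‖(slice F x₀).coeff j‖ < ∑ j ∈ Finset.range e, ‖(slice F x₀).coeff j‖ + 1 := by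
      have := Finset.single_le_sum (f := fun j => ‖(slice F x₀).coeff j‖)
        (fun _ _ => norm_nonneg _) hj
      linarith
    filter_upwards [(hcont j).norm.continuousAt.eventually_lt continuousAt_const h1] with x hx
    exact hx.le
  filter_upwards [hev] with x hx y hy
  apply h.root_bound one_pos hM0 _ hy
  intro j hj
  rw [one_pow, one_pow, mul_one, mul_one, hM, div_mul_cancel₀ _ hl.ne']
  exact hx j (Finset.mem_range.mpr hj)

/-- Roots of nearby slices are close to the roots of the slice at `x₀`. -/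
lemma Lead.eventually_near (h : Lead F e l) (x₀ : ℂ) {δ : ℝ} (hδ : 0 < δ) :
    ∀ᶠ x in 𝓝 x₀, ∀ y, val F x y = 0 → ∃ y₀ ∈ rts F x₀, ‖y - y₀‖ < δ := by
  have hl : 0 < ‖l‖ := norm_pos_iff.mpr h.1
  obtain ⟨R, hR, hev⟩ := h.eventually_bounded x₀
  obtain ⟨w, hw, _⟩ := exists_quotient F x₀
  have hK : IsCompact (Metric.closedBall x₀ 1 ×ˢ Metric.closedBall (0 : ℂ) R) :=
    (isCompact_closedBall _ _).prod (isCompact_closedBall _ _)
  obtain ⟨W, hW⟩ := hK.exists_bound_of_continuousOn (continuous_val w).continuousOn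
  have hball : ∀ᶠ x in 𝓝 x₀, ‖x - x₀‖ < 1 := by
    have := Metric.ball_mem_nhds x₀ one_pos
    filter_upwards [this] with x hx
    rwa [Metric.mem_ball, dist_eq_norm] at hx
  have hsmall : ∀ᶠ x in 𝓝 x₀, ‖x - x₀‖ * (|W| + 1) < ‖l‖ * δ ^ e := by
    have hc : Continuous (fun x : ℂ => ‖x - x₀‖ * (|W| + 1)) := by fun_prop
    apply hc.continuousAt.eventually_lt continuousAt_const
    rw [sub_self, norm_zero, zero_mul]
    positivity
  filter_upwards [hev, hball, hsmall] with x h1 h2 h3 y hy
  have hyR := h1 y hy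
  have h4 := hw x y
  rw [hy, zero_sub] at h4
  have h5 : ‖val F x₀ y‖ < ‖l‖ * δ ^ e := by
    rw [← norm_neg, h4, norm_mul]
    refine lt_of_le_of_lt ?_ h3
    gcongr
    refine (hW (x, y) ⟨?_, ?_⟩).trans ((le_abs_self W).trans (by linarith))
    · rw [Metric.mem_closedBall, dist_eq_norm]
      exact h2.le
    · rw [mem_closedBall_zero_iff]
      exact hyR
  exact h.exists_near x₀ y δ hδ h5

/-- Near a root of the slice at `x₀` there is a root of each nearby slice. -/
lemma Lead.eventually_exists (h : Lead F e l) (x₀ : ℂ) {δ : ℝ} (hδ : 0 < δ) {y₀ : ℂ}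
    (hy : val F x₀ y₀ = 0) : ∀ᶠ x in 𝓝 x₀, ∃ y ∈ rts F x, ‖y - y₀‖ < δ := by
  have hl : 0 < ‖l‖ := norm_pos_iff.mpr h.1
  have hc : Continuous (fun x : ℂ => ‖val F x y₀‖) := by
    have := (continuous_val F).comp (Continuous.prodMk continuous_id (continuous_const (y := y₀)))
    exact this.norm
  have hsmall : ∀ᶠ x in 𝓝 x₀, ‖val F x y₀‖ < ‖l‖ * δ ^ e := by
    apply hc.continuousAt.eventually_lt continuousAt_const
    rw [hy, norm_zero]
    positivity
  filter_upwards [hsmall] with x hx
  obtain ⟨y, hy1, hy2⟩ := h.exists_near x y₀ δ hδ hx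
  exact ⟨y, hy1, by rwa [norm_sub_rev]⟩

end Pool.Agent.Helper90Frey
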